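import Pool.Agent.H505.PG.Stm

/-!
# Leaf ARR: the explicit arrangement is essential with `2 k² + j` hyperplanes
-/

set_option autoImplicit false

namespace Pool.Agent.H505.PG.ARR

open MvPolynomial

variable {K : Type} [Field K]

lemma mem_hyperplane {l : ℕ} (a x : Fin l → K) : x ∈ hyperplane a ↔ ∑ p, a p * x p = 0 := by
  unfold hyperplane
  rw [LinearMap.mem_ker, LinearMap.sum_apply]
  simp

lemma minors {l : ℕ} {a b : Fin l → K} (h : hyperplane a = hyperplane b) (p q : Fin l) :
    a p * b q = a q * b p := by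
  have h1 : (a q • Pi.single p (1 : K) - a p • Pi.single q (1 : K) : Fin l → K) ∈
      hyperplane a := by
    rw [mem_hyperplane]
    simp only [Pi.sub_apply, Pi.smul_apply, smul_eq_mul, mul_sub, Finset.sum_sub_distrib]
    have e1 : ∑ i, a i * (a q * (Pi.single p (1 : K) : Fin l → K) i) = a p * a q := by
      rw [Finset.sum_eq_single p]
      · simp
      · intro i _ hi
        simp [Pi.single_eq_of_ne hi]
      · simp
    have e2 : ∑ i, a i * (a p * (Pi.single q (1 : K) : Fin l → K) i) = a q * a p := by
      rw [Finset.sum_eq_single q]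
      · simp
      · intro i _ hi
        simp [Pi.single_eq_of_ne hi]
      · simp
    rw [e1, e2]
    ring
  rw [h, mem_hyperplane] at h1
  simp only [Pi.sub_apply, Pi.smul_apply, smul_eq_mul, mul_sub, Finset.sum_sub_distrib] at h1
  have e1 : ∑ i, b i * (a q * (Pi.single p (1 : K) : Fin l → K) i) = b p * a q := by
    rw [Finset.sum_eq_single p]
    · simp
    · intro i _ hi
      simp [Pi.single_eq_of_ne hi]
    · simp
  have e2 : ∑ i, b i * (a p * (Pi.single q (1 : K) : Fin l → K) i) = b q * a p := by
    rw [Finset.sum_eq_single q]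
    · simp
    · intro i _ hi
      simp [Pi.single_eq_of_ne hi]
    · simp
  rw [e1, e2] at h1
  linear_combination -h1

section
variable {k j : ℕ} {y z : Fin k → K} {β : Ix k → K}

lemma vec_inl_zero (u : Ix k) : vec j y z β (.inl u) 0 = 1 := by
  simp [vec]

lemma vec_inl_one (u : Ix k) : vec j y z β (.inl u) 1 = -pa y z β u := by
  simp [vec]

lemma val_two' : ((2 : Fin (j + 3)) : ℕ) = 2 := by
  change 2 % (j + 3) = 2
  exact Nat.mod_eq_of_lt (by omega)

lemma two_ne_zero' : (2 : Fin (j + 3)) ≠ 0 := by
  intro h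
  have h1 := congrArg Fin.val h
  rw [val_two'] at h1
  simp at h1

lemma two_ne_one' : (2 : Fin (j + 3)) ≠ 1 := by
  intro h
  have h1 := congrArg Fin.val h
  rw [val_two'] at h1
  simp at h1

lemma one_ne_zero' : (1 : Fin (j + 3)) ≠ 0 := by
  intro h
  have := congrArg Fin.val h
  simp at this

lemma vec_inl_two (u : Ix k) : vec j y z β (.inl u) 2 = -β u := by
  simp only [vec]
  rw [if_neg two_ne_zero', if_neg two_ne_one', if_pos trivial]

lemma sss_ne_zero (i : Fin j) : (i.succ.succ.succ : Fin (j + 3)) ≠ 0 := Fin.succ_ne_zero _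

lemma sss_ne_one (i : Fin j) : (i.succ.succ.succ : Fin (j + 3)) ≠ 1 := by
  intro h
  have := congrArg Fin.val h
  simp at this

lemma sss_ne_two (i : Fin j) : (i.succ.succ.succ : Fin (j + 3)) ≠ 2 := by
  intro h
  have h1 := congrArg Fin.val h
  rw [val_two'] at h1
  simp at h1

lemma vec_inl_sss (u : Ix k) (i : Fin j) : vec j y z β (.inl u) i.succ.succ.succ = 0 := by
  simp only [vec]
  rw [if_neg (sss_ne_zero i), if_neg (sss_ne_one i), if_neg (sss_ne_two i)]

lemma vec_pr_zero (e : Pr k) : vec j y z β (.inr (.inl e)) 0 = 0 := by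
  simp only [vec]
  rw [if_neg one_ne_zero'.symm, if_neg two_ne_zero'.symm]

lemma vec_pr_one (e : Pr k) : vec j y z β (.inr (.inl e)) 1 =
    pa y z β e.1.1 - pa y z β e.1.2 := by
  simp only [vec]
  rw [if_pos trivial]

lemma vec_pr_two (e : Pr k) : vec j y z β (.inr (.inl e)) 2 = β e.1.1 - β e.1.2 := by
  simp only [vec]
  rw [if_neg two_ne_one', if_pos trivial]

lemma vec_pr_sss (e : Pr k) (i : Fin j) :
    vec j y z β (.inr (.inl e)) i.succ.succ.succ = 0 := by
  simp only [vec]
  rw [if_neg (sss_ne_one i), if_neg (sss_ne_two i)]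

lemma vec_w (i : Fin j) : vec j y z β (.inr (.inr i)) i.succ.succ.succ = 1 := by
  simp only [vec]
  rw [Pi.single_eq_same]

lemma vec_w_ne (i : Fin j) (p : Fin (j + 3)) (h : p ≠ i.succ.succ.succ) :
    vec j y z β (.inr (.inr i)) p = 0 := by
  simp only [vec]
  rw [Pi.single_eq_of_ne h]

lemma vec_ne_zero (hk : 2 ≤ k) (hG : Good y z β) (i : Ia k j) : vec j y z β i ≠ 0 := by
  rcases i with u | e | i
  · intro h
    have := congrFun h 0
    rw [vec_inl_zero] at this
    simp at this
  · intro h
    have h1 := congrFun h 1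
    have h2 := congrFun h 2
    rw [vec_pr_one, Pi.zero_apply] at h1
    rw [vec_pr_two, Pi.zero_apply] at h2
    have hne : e.1.1 ≠ e.1.2 := by
      intro h
      have := e.2
      rw [h] at this
      exact lt_irrefl _ this
    let o : Fin k := ⟨0, by omega⟩
    refine hG.slopes e.1.1 e.1.2 (o, false) (o, true) hne (by simp) ?_ ?_
    · intro h
      rw [Sym2.eq_iff] at h
      have h3 := e.2
      rcases h with ⟨h4, h5⟩ | ⟨h4, h5⟩
      · rw [h4, h5] at h3
        exact lt_irrefl _ h3
      · rw [h4, h5] at h3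
        exact lt_irrefl _ h3
    · rw [h1, h2, zero_mul, zero_mul]
  · intro h
    have := congrFun h i.succ.succ.succ
    rw [vec_w] at this
    simp at this

lemma exists_third (hk : 2 ≤ k) (u v : Ix k) : ∃ w : Ix k, w ≠ u ∧ w ≠ v := by
  have h : ({u, v} : Finset (Ix k)).card < (Finset.univ : Finset (Ix k)).card := by
    refine lt_of_le_of_lt Finset.card_le_two ?_
    rw [Finset.card_univ, Fintype.card_prod, Fintype.card_fin, Fintype.card_bool]
    omega
  obtain ⟨w, -, hw⟩ := Finset.exists_mem_notMem_of_card_lt_card h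
  refine ⟨w, ?_, ?_⟩
  · rintro rfl
    exact hw (by simp)
  · rintro rfl
    exact hw (by simp)

lemma sym2_ne {α : Type} {u v w : α} (h : w ≠ v) : s(u, v) ≠ s(u, w) := by
  intro h1
  rw [Sym2.eq_iff] at h1
  rcases h1 with ⟨_, h2⟩ | ⟨h2, h3⟩
  · exact h h2.symm
  · exact h (h2.symm.trans h3.symm |>.symm ▸ rfl)

lemma hyp_inj (hk : 2 ≤ k) (hG : Good y z β) :
    Function.Injective fun i => hyperplane (vec j y z β i) := by
  have key : ∀ i i' : Ia k j, hyperplane (vec j y z β i) = hyperplane (vec j y z β i') →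
      ∀ p, vec j y z β i p ≠ 0 → vec j y z β i' p = 0 → False := by
    intro i i' h p h1 h2
    refine vec_ne_zero hk hG i' ?_
    funext q
    have h3 := minors h p q
    rw [h2, mul_zero] at h3
    rcases mul_eq_zero.1 h3 with h4 | h4
    · exact absurd h4 h1
    · exact h4
  intro i i' h
  have h : hyperplane (vec j y z β i) = hyperplane (vec j y z β i') := h
  rcases i with u | e | i <;> rcases i' with v | e' | i'
  · have h1 := minors h 0 1
    have h2 := minors h 0 2
    rw [vec_inl_zero, vec_inl_zero, vec_inl_one, vec_inl_one] at h1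
    rw [vec_inl_zero, vec_inl_zero, vec_inl_two, vec_inl_two] at h2
    by_contra hne
    have huv : u ≠ v := fun h => hne (by rw [h])
    obtain ⟨w, hw1, hw2⟩ := exists_third hk u v
    refine hG.slopes u v u w huv hw1.symm (sym2_ne hw2) ?_
    have e1 : pa y z β u - pa y z β v = 0 := by linear_combination h1
    have e2 : β u - β v = 0 := by linear_combination h2
    rw [e1, e2, zero_mul, zero_mul]
  · exact (key _ _ h 0 (by rw [vec_inl_zero]; exact one_ne_zero) (vec_pr_zero e')).elim
  · exact (key _ _ h 0 (by rw [vec_inl_zero]; exact one_ne_zero)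
      (vec_w_ne i' 0 (sss_ne_zero i').symm)).elim
  · exact (key _ _ h.symm 0 (by rw [vec_inl_zero]; exact one_ne_zero) (vec_pr_zero e)).elim
  · have h1 := minors h 1 2
    rw [vec_pr_one, vec_pr_one, vec_pr_two, vec_pr_two] at h1
    have hne : e.1.1 ≠ e.1.2 := by
      intro h
      have := e.2
      rw [h] at this
      exact lt_irrefl _ this
    have hne' : e'.1.1 ≠ e'.1.2 := by
      intro h
      have := e'.2
      rw [h] at this
      exact lt_irrefl _ this
    have h2 : s(e.1.1, e.1.2) = s(e'.1.1, e'.1.2) := by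
      by_contra h3
      exact hG.slopes _ _ _ _ hne hne' h3 h1
    rw [Sym2.eq_iff] at h2
    rcases h2 with ⟨h3, h4⟩ | ⟨h3, h4⟩
    · have : e = e' := Subtype.ext (Prod.ext h3 h4)
      rw [this]
    · exfalso
      have h5 := e.2
      rw [h3, h4] at h5
      exact lt_asymm h5 e'.2
  · exact (key _ _ h.symm i'.succ.succ.succ (by rw [vec_w]; exact one_ne_zero)
      (vec_pr_sss e i')).elim
  · exact (key _ _ h.symm 0 (by rw [vec_inl_zero]; exact one_ne_zero)
      (vec_w_ne i 0 (sss_ne_zero i).symm)).elim
  · exact (key _ _ h i.succ.succ.succ (by rw [vec_w]; exact one_ne_zero)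
      (vec_pr_sss e' i)).elim
  · by_contra hne
    have hii : i ≠ i' := fun h => hne (by rw [h])
    refine key _ _ h i.succ.succ.succ (by rw [vec_w]; exact one_ne_zero) (vec_w_ne i' _ ?_)
    intro h1
    exact hii (Fin.succ_injective _ (Fin.succ_injective _ (Fin.succ_injective _ h1)))

end

lemma card_pr (k : ℕ) : Fintype.card (Pr k) = 2 * k * (k - 1) := by
  rw [Fintype.card_subtype]
  have h1 : (Finset.univ.filter fun e : Ix k × Ix k => e.1.1 < e.2.1).card =
      ∑ e : Ix k × Ix k, if e.1.1 < e.2.1 then 1 else 0 := by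
    rw [Finset.card_filter]
  rw [h1, Fintype.sum_prod_type]
  have h2 : ∀ u : Ix k, (∑ v : Ix k, if u.1 < v.1 then 1 else 0) = 2 * (k - 1 - u.1.1) := by
    intro u
    rw [Fintype.sum_prod_type]
    simp only [Fintype.sum_bool]
    rw [Finset.sum_add_distrib, ← two_mul]
    congr 1
    rw [← Finset.card_filter]
    have : (Finset.univ.filter fun x : Fin k => u.1 < x) = Finset.Ioi u.1 := by
      ext x
      simp
    rw [this, Fin.card_Ioi]
  simp only [h2]
  rw [Fintype.sum_prod_type]
  simp only [Fintype.sum_bool]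
  have h3 : ∑ x : Fin k, (k - 1 - x.1) = k * (k - 1) / 2 := by
    rw [Fin.sum_univ_eq_sum_range fun x => k - 1 - x,
      Finset.sum_range_reflect (fun x => x), Finset.sum_range_id]
  have h4 : ∑ x : Fin k, (2 * (k - 1 - x.1) + 2 * (k - 1 - x.1)) =
      4 * ∑ x : Fin k, (k - 1 - x.1) := by
    rw [Finset.mul_sum]
    refine Finset.sum_congr rfl fun x _ => by ring
  rw [h4, h3]
  have h5 : 2 ∣ k * (k - 1) := by
    have := Nat.even_mul_pred_self k
    exact this.two_dvd
  obtain ⟨m, hm⟩ := h5
  rw [hm, Nat.mul_div_cancel_left _ (by norm_num), mul_assoc, hm]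
  ring

theorem main : S_ARR := by
  intro K _ k j hk y z β hG
  have hne := fun i => vec_ne_zero (j := j) hk hG i
  refine ⟨?_, ?_, ?_, hne⟩
  · intro H hH
    unfold arr at hH
    rw [Finset.mem_image] at hH
    obtain ⟨i, -, rfl⟩ := hH
    exact ⟨_, hne i, rfl⟩
  · unfold IsEssential
    rw [Submodule.eq_bot_iff]
    intro x hx
    have hx' : ∀ i, x ∈ hyperplane (vec j y z β i) := by
      intro i
      rw [Submodule.mem_finsetInf] at hx
      exact hx _ (Finset.mem_image_of_mem _ (Finset.mem_univ i))
    have hw : ∀ i : Fin j, x i.succ.succ.succ = 0 := by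
      intro i
      have h := hx' (.inr (.inr i))
      rw [mem_hyperplane, Finset.sum_eq_single i.succ.succ.succ, vec_w, one_mul] at h
      · exact h
      · intro p _ hp
        rw [vec_w_ne i p hp, zero_mul]
      · simp
    have hu : ∀ u : Ix k, x 0 - pa y z β u * x 1 - β u * x 2 = 0 := by
      intro u
      have h := hx' (.inl u)
      rw [mem_hyperplane, Fin.sum_univ_succ, Fin.sum_univ_succ, Fin.sum_univ_succ] at h
      rw [Finset.sum_eq_zero] at h
      · have e1 : (Fin.succ 0 : Fin (j + 3)) = 1 := rfl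
        have e2 : (Fin.succ (Fin.succ 0) : Fin (j + 3)) = 2 := rfl
        rw [e1, e2, vec_inl_zero, vec_inl_one, vec_inl_two] at h
        linear_combination h
      · intro i _
        rw [hw i, mul_zero]
    let o : Fin k := ⟨0, by omega⟩
    let t : Fin k := ⟨1, by omega⟩
    have hs := hG.slopes (o, false) (o, true) (o, false) (t, false) (by simp)
      (by simp [o, t]) (sym2_ne (by simp [o, t]))
    have h1 := hu (o, false)
    have h2 := hu (o, true)
    have h3 := hu (t, false)
    set A := pa y z β (o, false)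
    set B := pa y z β (o, true)
    set C' := pa y z β (t, false)
    set D := β (o, false)
    set E := β (o, true)
    set F := β (t, false)
    have hd : (A - B) * (D - F) - (D - E) * (A - C') ≠ 0 := sub_ne_zero.2 hs
    have q1 : (A - B) * x 1 + (D - E) * x 2 = 0 := by linear_combination h2 - h1
    have q2 : (A - C') * x 1 + (D - F) * x 2 = 0 := by linear_combination h3 - h1
    have x1 : x 1 = 0 := by
      have : ((A - B) * (D - F) - (D - E) * (A - C')) * x 1 = 0 := by
        linear_combination (D - F) * q1 - (D - E) * q2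
      exact (mul_eq_zero.1 this).resolve_left hd
    have x2 : x 2 = 0 := by
      have : ((A - B) * (D - F) - (D - E) * (A - C')) * x 2 = 0 := by
        linear_combination (A - B) * q2 - (A - C') * q1
      exact (mul_eq_zero.1 this).resolve_left hd
    have x0 : x 0 = 0 := by
      rw [x1, x2] at h1
      linear_combination h1
    funext p
    refine Fin.cases x0 (fun p => ?_) p
    refine Fin.cases x1 (fun p => ?_) p
    refine Fin.cases x2 (fun p => ?_) p
    exact hw p
  · unfold arr
    rw [Finset.card_image_of_injective _ (hyp_inj hk hG), Finset.card_univ, Fintype.card_sum,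
      Fintype.card_sum, card_pr, Fintype.card_prod, Fintype.card_fin, Fintype.card_bool,
      Fintype.card_fin]
    obtain ⟨m, rfl⟩ : ∃ m, k = m + 1 := ⟨k - 1, by omega⟩
    rw [Nat.add_sub_cancel]
    ring

end Pool.Agent.H505.PG.ARR
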