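import Mathlib

/-!
# Plus-one generated arrangements: definitions

Arrangements are finite sets of linear hyperplanes of `K ^ l`.
-/

set_option autoImplicit false

namespace Pool.Agent.H505.PG

open MvPolynomial

section definitions
variable {K : Type} [Field K] {l : ℕ}

/-- The linear form `∑ j, a j * x_j`. -/
noncomputable def linearForm (a : Fin l → K) : MvPolynomial (Fin l) K := ∑ j, C (a j) * X j

/-- The hyperplane `{x | ∑ j, a j * x_j = 0}` in `K ^ l` (for `a ≠ 0`). -/
def hyperplane (a : Fin l → K) : Submodule K (Fin l → K) :=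
  LinearMap.ker (∑ j, a j • LinearMap.proj j : (Fin l → K) →ₗ[K] K)

/-- `A` is an arrangement: a finite set of linear hyperplanes. -/
def IsArrangement (A : Finset (Submodule K (Fin l → K))) : Prop :=
  ∀ H ∈ A, ∃ a : Fin l → K, a ≠ 0 ∧ H = hyperplane a

/-- The arrangement is essential: the intersection of all its hyperplanes is `{0}`. -/
def IsEssential (A : Finset (Submodule K (Fin l → K))) : Prop := A.inf id = ⊥

/-- The intersection lattice `L(A)`: all intersections of subfamilies of the hyperplanes (the empty
intersection being `K ^ l`), ordered by reverse inclusion. -/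
abbrev Lattice (A : Finset (Submodule K (Fin l → K))) : Type :=
  {W : Submodule K (Fin l → K) | ∃ s ⊆ A, W = s.inf id}ᵒᵈ

/-- The module `D(A)` of logarithmic derivations: all `K`-linear derivations `θ` of the polynomial
ring `S` with `θ(α) ∈ α S` for every linear form `α ≠ 0` whose kernel is a hyperplane of `A`. -/
noncomputable def logDer (A : Finset (Submodule K (Fin l → K))) :
    Submodule (MvPolynomial (Fin l) K)
      (Derivation K (MvPolynomial (Fin l) K) (MvPolynomial (Fin l) K)) where
  carrier := {θ | ∀ a : Fin l → K, a ≠ 0 → hyperplane a ∈ A →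
    linearForm a ∣ θ (linearForm a)}
  add_mem' := fun {θ η} hθ hη a h0 ha => by
    rw [Derivation.add_apply]
    exact dvd_add (hθ a h0 ha) (hη a h0 ha)
  zero_mem' := fun a _ _ => by rw [Derivation.zero_apply]; exact dvd_zero _
  smul_mem' := fun r θ hθ a h0 ha => by
    rw [Derivation.smul_apply, smul_eq_mul]
    exact dvd_mul_of_dvd_right (hθ a h0 ha) r

/-- The derivations `θ_1, …, θ_l, φ` and the coefficients `f_1, …, f_l, α` give a minimal graded
free resolution `0 → S[-d-1] → S[-d] ⊕ ⨁ S[-e_i] → D → 0` of the module `D` of derivations, whose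
first map is `(α, f_1, …, f_l)`, where `α` is a linear form. -/
structure IsPlusOneResolution (D : Submodule (MvPolynomial (Fin l) K)
      (Derivation K (MvPolynomial (Fin l) K) (MvPolynomial (Fin l) K)))
    (e : Fin l → ℕ) (d : ℕ)
    (θ : Fin l → Derivation K (MvPolynomial (Fin l) K) (MvPolynomial (Fin l) K))
    (φ : Derivation K (MvPolynomial (Fin l) K) (MvPolynomial (Fin l) K))
    (f : Fin l → MvPolynomial (Fin l) K) (α : MvPolynomial (Fin l) K) : Prop where
  /-- the `θ_i` are logarithmic derivations -/
  theta_mem : ∀ i, θ i ∈ D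
  /-- `φ` is a logarithmic derivation -/
  phi_mem : φ ∈ D
  /-- `θ_i` is homogeneous of degree `e_i` -/
  theta_homogeneous : ∀ i j, (θ i (X j)).IsHomogeneous (e i)
  /-- `φ` is homogeneous of degree `d` -/
  phi_homogeneous : ∀ j, (φ (X j)).IsHomogeneous d
  /-- `f_i` is homogeneous of degree `d + 1 - e_i` -/
  coeff_homogeneous : ∀ i, f i = 0 ∨ ∃ m, m + e i = d + 1 ∧ (f i).IsHomogeneous m
  /-- `α` is a linear form -/
  alpha_homogeneous : α.IsHomogeneous 1
  /-- the `θ_i` and `φ` generate `D` -/
  generate : ∀ η ∈ D, ∃ (g : Fin l → MvPolynomial (Fin l) K) (h : MvPolynomial (Fin l) K),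
    η = ∑ i, g i • θ i + h • φ
  /-- the relation -/
  relation : ∑ i, f i • θ i + α • φ = 0
  /-- every relation is a multiple of it -/
  relations : ∀ (g : Fin l → MvPolynomial (Fin l) K) (h : MvPolynomial (Fin l) K),
    ∑ i, g i • θ i + h • φ = 0 → ∃ c, (∀ i, g i = c * f i) ∧ h = c * α
  /-- the relation is not the zero relation, so the first map is injective -/
  nonzero : α ≠ 0 ∨ ∃ i, f i ≠ 0
  /-- minimality: the entries of the first map lie in the irrelevant ideal -/
  minimal : ∀ i, constantCoeff (f i) = 0

/-- `A` is plus-one generated with exponents `e` and level `d`. -/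
def PlusOneGenerated (A : Finset (Submodule K (Fin l → K))) (e : Fin l → ℕ) (d : ℕ) : Prop :=
  ∃ θ φ f α, IsPlusOneResolution (logDer A) e d θ φ f α

/-- `A` is strictly plus-one generated with exponents `e` and level `d`. -/
def StrictlyPlusOneGenerated (A : Finset (Submodule K (Fin l → K))) (e : Fin l → ℕ) (d : ℕ) :
    Prop :=
  ∃ θ φ f α, IsPlusOneResolution (logDer A) e d θ φ f α ∧ α ≠ 0

end definitions

end Pool.Agent.H505.PG
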