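import Mathlib
import Pool.Agent.H505.PG.Defs

/-!
# Interfaces (helper505): plus-one generated arrangements and ideals of points

Coordinates in `K ^ (j + 3)`: `z = X 0`, `x = X 1`, `y = X 2` and `w_i = X i.succ.succ.succ`.
Given `y, z : Fin k → K` and `β : Fin k × Bool → K` the arrangement consists of
* the `2 k` hyperplanes `L_u : Z = a_u x + β_u y`, `u = (i, s)`, `a_u = z_i - β_u y_i`, so that the two
  hyperplanes `L_(i, false)`, `L_(i, true)` meet in the point `q_i = (z : x : y) = (z_i : 1 : y_i)`;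
* the `2 k (k - 1)` hyperplanes `M_uv : (a_u - a_v) x + (β_u - β_v) y = 0` (which join `(1 : 0 : 0)`
  to `L_u ∩ L_v`) for the *unmatched* pairs, `u.1 < v.1`;
* the `j` coordinate hyperplanes `w_i = 0`.
-/

set_option autoImplicit false

namespace Pool.Agent.H505.PG

open MvPolynomial

variable {K : Type} [Field K]

abbrev Ix (k : ℕ) := Fin k × Bool

/-- the unmatched pairs -/
abbrev Pr (k : ℕ) := {e : Ix k × Ix k // e.1.1 < e.2.1}

/-- the index set of the arrangement -/
abbrev Ia (k j : ℕ) := Ix k ⊕ (Pr k ⊕ Fin j)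

/-- `a_u` -/
def pa {k : ℕ} (y z : Fin k → K) (β : Ix k → K) (u : Ix k) : K := z u.1 - β u * y u.1

/-- all slopes are distinct, and one unmatched pair is horizontal -/
structure Good {k : ℕ} (y z : Fin k → K) (β : Ix k → K) : Prop where
  slopes : ∀ u v u' v' : Ix k, u ≠ v → u' ≠ v' → s(u, v) ≠ s(u', v') →
    (pa y z β u - pa y z β v) * (β u' - β v') ≠ (β u - β v) * (pa y z β u' - pa y z β v')
  base : ∃ u v : Ix k, u.1 ≠ v.1 ∧ β u = β v

/-- the coefficient vectors of the hyperplanes -/
def vec {k : ℕ} (j : ℕ) (y z : Fin k → K) (β : Ix k → K) : Ia k j → Fin (j + 3) → K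
  | .inl u => fun i => if i = 0 then 1 else if i = 1 then -pa y z β u else if i = 2 then -β u else 0
  | .inr (.inl e) => fun i => if i = 1 then pa y z β e.1.1 - pa y z β e.1.2 else
      if i = 2 then β e.1.1 - β e.1.2 else 0
  | .inr (.inr i) => Pi.single i.succ.succ.succ 1

open Classical in
/-- the arrangement -/
noncomputable def arr {k : ℕ} (j : ℕ) (y z : Fin k → K) (β : Ix k → K) :
    Finset (Submodule K (Fin (j + 3) → K)) :=
  Finset.univ.image fun i => hyperplane (vec j y z β i)

/-- the logarithmic derivations, in terms of the vectors -/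
noncomputable def famDer {k : ℕ} (j : ℕ) (y z : Fin k → K) (β : Ix k → K) :
    Submodule (MvPolynomial (Fin (j + 3)) K)
      (Derivation K (MvPolynomial (Fin (j + 3)) K) (MvPolynomial (Fin (j + 3)) K)) where
  carrier := {θ | ∀ i, linearForm (vec j y z β i) ∣ θ (linearForm (vec j y z β i))}
  add_mem' := fun {θ η} hθ hη i => by
    rw [Derivation.add_apply]
    exact dvd_add (hθ i) (hη i)
  zero_mem' := fun i => by rw [Derivation.zero_apply]; exact dvd_zero _
  smul_mem' := fun r θ hθ i => by
    rw [Derivation.smul_apply, smul_eq_mul]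
    exact dvd_mul_of_dvd_right (hθ i) r

/-- the form `L_u` -/
noncomputable def Lf {k : ℕ} (j : ℕ) (y z : Fin k → K) (β : Ix k → K) (u : Ix k) :
    MvPolynomial (Fin (j + 3)) K := X 0 - C (pa y z β u) * X 1 - C (β u) * X 2

/-- the form `M_uv` -/
noncomputable def Mf {k : ℕ} (j : ℕ) (y z : Fin k → K) (β : Ix k → K) (u v : Ix k) :
    MvPolynomial (Fin (j + 3)) K := C (pa y z β u - pa y z β v) * X 1 + C (β u - β v) * X 2

open Classical in
/-- the product of the forms `M_uv` for the unmatched pairs which are not horizontal -/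
noncomputable def Qp {k : ℕ} (j : ℕ) (y z : Fin k → K) (β : Ix k → K) :
    MvPolynomial (Fin (j + 3)) K :=
  ∏ e ∈ (Finset.univ : Finset (Pr k)).filter (fun e => β e.1.1 ≠ β e.1.2),
    Mf j y z β e.1.1 e.1.2

/-- restriction to `L_u`: the substitution `Z ↦ a_u x + β_u y` -/
noncomputable def ev {k : ℕ} (j : ℕ) (y z : Fin k → K) (β : Ix k → K) (u : Ix k) :
    MvPolynomial (Fin (j + 3)) K →ₐ[K] MvPolynomial (Fin (j + 3)) K :=
  aeval fun i => if i = 0 then C (pa y z β u) * X 1 + C (β u) * X 2 else X i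

/-- restriction to the point `q_i`: the substitution `Z ↦ z_i x`, `y ↦ y_i x` -/
noncomputable def rho {k : ℕ} (j : ℕ) (y z : Fin k → K) (i : Fin k) :
    MvPolynomial (Fin (j + 3)) K →ₐ[K] MvPolynomial (Fin (j + 3)) K :=
  aeval fun l => if l = 0 then C (z i) * X 1 else if l = 2 then C (y i) * X 1 else X l

/-- the ideal of the points `q_i` -/
noncomputable def IZ {k : ℕ} (j : ℕ) (y z : Fin k → K) : Ideal (MvPolynomial (Fin (j + 3)) K) :=
  ⨅ i, RingHom.ker (rho j y z i)

/-- the derivation `a E + (0, G Q, h) + ∑ c_i w_i ∂/∂w_i` -/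
noncomputable def mk {k : ℕ} (j : ℕ) (y z : Fin k → K) (β : Ix k → K)
    (a G h : MvPolynomial (Fin (j + 3)) K) (c : Fin j → MvPolynomial (Fin (j + 3)) K) :
    Derivation K (MvPolynomial (Fin (j + 3)) K) (MvPolynomial (Fin (j + 3)) K) :=
  mkDerivation K (Fin.cons (a * X 0 + h) (Fin.cons (a * X 1)
    (Fin.cons (a * X 2 + G * Qp j y z β) fun i => c i * X i.succ.succ.succ)) :
      Fin (j + 3) → MvPolynomial (Fin (j + 3)) K)

/-- no form of degree `d - 1` vanishes at all points `(z_i, 1, y_i)` -/
def NoLow {k : ℕ} (d : ℕ) (y z : Fin k → K) : Prop :=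
  ∀ F : MvPolynomial (Fin 3) K, F.IsHomogeneous (d - 1) →
    (∀ i, eval ![z i, 1, y i] F = 0) → F = 0

/-- LIN: good configurations exist, for arbitrary points `q_i` with distinct projections.
PROOF. Choose `β` generically. Every condition of `Good` on `β` excludes few values; for instance
choose first `β (0, false) = β (1, false)` and then the other `β u` one after the other (or use that
finitely many nonzero polynomials in the `β u` have a common non-zero). Geometrically: the points
`p_u = (a_u, β_u)` lie on the lines `Λ_i : a + β y_i = z_i` (`u = (i, s)`), which have pairwise distinct,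
non-horizontal directions `(-y_i, 1)`. Keep the invariants: the slopes of all chosen pairs are
distinct, the slopes of the unmatched chosen pairs are different from all directions of the `Λ_i`, and
`p_u` is not on `Λ_i` for `i ≠ u.1`. A new point on `Λ_a` then has to avoid finitely many points of
`Λ_a`: the intersections with the lines through a chosen point in a chosen direction (a direction of
a chosen pair or of some `Λ_i`), with the lines through two chosen points and with the `Λ_i`. -/
def S_LIN : Prop :=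
  ∀ (K : Type) [Field K] [Infinite K] (k : ℕ), 2 ≤ k → ∀ (y z : Fin k → K),
    Function.Injective y → ∃ β : Ix k → K, Good y z β

/-- PTS: `d (d + 1) / 2` points on no curve of degree `d - 1`, and `d + 1` forms of degree `d` through
them. PROOF. A triangular grid: let `s_0, …, s_(d-1)` be distinct elements of `K`, let `μ ∈ K` be
such that the `s_a + μ s_b` (`a, b < d`) are pairwise distinct for distinct pairs `(a, b)` (`K` is
infinite), and take the points `z = s_b`, `y = s_a + μ s_b` for `a + b < d` (there are `d (d + 1) / 2` of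
them). A polynomial of degree `≤ d - 1` in `S = y - μ z` and `z` which vanishes at `S = s_a`, `z = s_b`,
`a + b < d`, is zero (induction on `d`: on the line `z = s_0` it has `d` zeros, so it is divisible by
`z - s_0`). The forms `∏_{a < c} ((Y - μ Z) - s_a X) ∏_{b < d - c} (Z - s_b X)`, `c = 0, …, d`, vanish
at all points and are linearly independent (put `X = 0`). Here `X_0 = Z`, `X_1 = X`, `X_2 = Y`. -/
def S_PTS : Prop :=
  ∀ (K : Type) [Field K] [Infinite K] (d : ℕ), 1 ≤ d →
    ∃ y z : Fin (d * (d + 1) / 2) → K, Function.Injective y ∧ NoLow d y z ∧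
      ∃ g : Fin (d + 1) → MvPolynomial (Fin 3) K, LinearIndependent K g ∧
        ∀ i, (g i).IsHomogeneous d ∧ ∀ l, eval ![z l, 1, y l] (g i) = 0

/-- ARR: it is an essential arrangement with `2 k² + j` hyperplanes. PROOF. The vectors are pairwise
not proportional and not zero: for `L_u`, `L_v` compare the coordinates (`p_u ≠ p_v` by `slopes`, as
there are at least two more pairs); for `M_uv`, `M_u'v'` use `slopes`. Number of the unmatched pairs:
`4 * (k choose 2) = 2 k² - 2 k`. Essential: the forms `L_u`, `M` of two different slopes and the `w_i`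
span. -/
def S_ARR : Prop :=
  ∀ (K : Type) [Field K] (k j : ℕ), 2 ≤ k → ∀ (y z : Fin k → K) (β : Ix k → K), Good y z β →
    IsArrangement (arr j y z β) ∧ IsEssential (arr j y z β) ∧
      (arr j y z β).card = 2 * k ^ 2 + j ∧ (∀ i, vec j y z β i ≠ 0)

/-- LAT: the intersection lattice does not depend on the good configuration. PROOF. (1) General fact:
if `v, v' : ι → K ^ l` are two finite families such that for every set `s` of indices and every
index `i`: `v i ∈ span (v '' s) ↔ v' i ∈ span (v' '' s)`, then `s ↦ ⋂_{i ∈ s} ker (v i)` induces an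
isomorphism of the lattices of intersections (the flats are the closed sets `s` of indices, and
`⋂_{i ∈ s} ker v_i ⊆ ker v_m` iff `v_m ∈ span (v '' s)`). (2) For the vectors of a good
configuration: a vector `w_i` is in the span iff its index is in `s`, and the other vectors live in
the three-dimensional space of the first coordinates, where `L_u, L_v, L_w` (distinct) are
independent, `L_u, M, M'` are independent (`M ≠ M'`), `M, M', M''` are dependent, and `L_u, L_v, M_ab`
are dependent iff `{u, v} = {a, b}`; any three independent vectors span everything. So the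
condition in (1) is expressed by the indices only. -/
def S_LAT : Prop :=
  ∀ (K : Type) [Field K] (k j : ℕ), 2 ≤ k → ∀ (y z y' z' : Fin k → K) (β β' : Ix k → K),
    Good y z β → Good y' z' β' → Nonempty (Lattice (arr j y z β) ≃o Lattice (arr j y' z' β'))

/-- STR: the structure of the logarithmic derivations. PROOF. (1) Let `(u₀, v₀)` be the horizontal
pair: `M = (a_u₀ - a_v₀) x`, so `x ∣ θ x`, `θ x = a x`; `θ w_i = c_i w_i`. Put `θ' = θ - a E`,
`E = (Z, x, y)`: `θ' x = 0`, and for the other unmatched pairs `M_uv ∣ θ' M_uv = (β_u - β_v) θ' y`,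
`β_u ≠ β_v` (by `slopes`, compared with the base pair), so all `M_uv` divide `θ' y`; they are
pairwise non-associated primes, so `θ' y = G Q`. `L_u ∣ θ' L_u = h - β_u G Q` means
`ev u h = β_u Q ev u G` (`Q` does not contain `Z`). For `u = (i, false)`, `v = (i, true)` apply `rho i`
(note `rho i ∘ ev u = rho i`, since `a_u + β_u y_i = z_i`):
`rho i h = β_u (rho i Q) (rho i G) = β_v (rho i Q) (rho i G)`, and `β_u ≠ β_v`, `rho i Q ≠ 0` (a factor
`M_u'v'` with `rho i M_u'v' = 0` would have the slope of `p_u - p_v`). So `rho i G = 0`.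
(2) is the same computation backwards. -/
def S_STR : Prop :=
  ∀ (K : Type) [Field K] (k j : ℕ), 2 ≤ k → ∀ (y z : Fin k → K) (β : Ix k → K), Good y z β →
    (∀ θ ∈ famDer j y z β, ∃ (a G h : MvPolynomial (Fin (j + 3)) K)
      (c : Fin j → MvPolynomial (Fin (j + 3)) K), θ = mk j y z β a G h c ∧ G ∈ IZ j y z ∧
        ∀ u, ev j y z β u h = C (β u) * Qp j y z β * ev j y z β u G) ∧
    (∀ (a G h : MvPolynomial (Fin (j + 3)) K) (c : Fin j → MvPolynomial (Fin (j + 3)) K),
      (∀ u, ev j y z β u h = C (β u) * Qp j y z β * ev j y z β u G) →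
        mk j y z β a G h c ∈ famDer j y z β)

/-- INP: interpolation. PROOF. Work in `R[Z]`, `R = K[x, y, w]` (`MvPolynomial.finSuccEquiv K (j + 2)`).
General lemma: let `R` be a domain, `ℓ_u ∈ R` nodes such that the differences `ℓ_u - ℓ_v` (`u ≠ v`) are
primes and, for fixed `u`, pairwise non-associated, and `t_u ∈ R` values with
`(ℓ_u - ℓ_v) ∣ (t_u - t_v)`. Then there is `h ∈ R[Z]` with `h(ℓ_u) = t_u` for all `u`: by induction,
`h' = h + c ∏_{i ≤ m} (Z - ℓ_i)`, where `c = (t_{m+1} - h(ℓ_{m+1})) / ∏ (ℓ_{m+1} - ℓ_i)`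
(`Finset.prod_primes_dvd`). Here `ℓ_u = a_u x + β_u y`, `ℓ_u - ℓ_v = M_uv` and `t_u = β_u Q ev_u G`: modulo
`M_uv` we have `ev_u G ≡ ev_v G`, so `t_u - t_v ≡ (β_u - β_v) Q ev_u G`, which is `0` if `β_u = β_v`,
divisible by `M_uv` if the pair is unmatched (`M_uv ∣ Q`), and also if it is matched, `u = (i, _)`:
`M_uv = (β_u - β_v) (y - y_i x)` and modulo `y - y_i x` we have `ev_u G ≡ rho i G = 0`. Finally replace `h` by
its homogeneous component of degree `e + (2 k² - 2 k - 1)`. `Q` is homogeneous: exactly one unmatched pair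
is horizontal. -/
def S_INP : Prop :=
  ∀ (K : Type) [Field K] (k j : ℕ), 2 ≤ k → ∀ (y z : Fin k → K) (β : Ix k → K), Good y z β →
    (Qp j y z β).IsHomogeneous (2 * k ^ 2 - 2 * k - 1) ∧ Qp j y z β ≠ 0 ∧
    ∀ (e : ℕ), ∀ G ∈ IZ j y z, G.IsHomogeneous e →
      ∃ h : MvPolynomial (Fin (j + 3)) K, h.IsHomogeneous (e + (2 * k ^ 2 - 2 * k - 1)) ∧
        ∀ u, ev j y z β u h = C (β u) * Qp j y z β * ev j y z β u G

/-- KER: PROOF. `ev u h = 0` iff `L_u ∣ h`, and the `L_u` are pairwise non-associated primes. -/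
def S_KER : Prop :=
  ∀ (K : Type) [Field K] (k j : ℕ), 2 ≤ k → ∀ (y z : Fin k → K) (β : Ix k → K), Good y z β →
    (∀ u, ev j y z β u (Lf j y z β u) = 0) ∧
    ∀ h : MvPolynomial (Fin (j + 3)) K, (∀ u, ev j y z β u h = 0) → (∏ u, Lf j y z β u) ∣ h

/-- POG: if all `q_i` lie on `Z = 0`, then `D` is strictly plus-one generated.
PROOF (from STR, INP, KER). The ideal of the points is generated by `Z` and `f = ∏_i (y - y_i x)`
(`G ∈ IZ`: `y - y_i x` divides `G(Z = 0)` for all `i`). Let `h_1` be as in INP for `G = Z` (degree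
`2 k² - 2 k`) and `h_2` for `G = f` (degree `2 k² - k - 1`). Generators:
`θ_0 = (∏ L_u) ∂/∂Z` (degree `2 k`), `θ_1 = E` (`a = 1`, `G = h = 0`), `θ_2 = mk 0 Z h_1 0`,
`θ_(i+3) = w_i ∂/∂w_i`, `φ = mk 0 f h_2 0`. Relation `f θ_2 - Z φ - c θ_0 = 0`, where
`f h_1 - Z h_2 = c ∏ L_u` by KER (`ev_u (f h_1 - Z h_2) = 0`), `c` of degree `2 k² - 3 k`, `α = -Z`.
Generation: for `θ = mk a G h c` write `G = s Z + t f`; then `θ - a E - ∑ c_i w_i ∂_i - s θ_2 - t φ` has
`a = G = c = 0`, so it is a multiple of `θ_0` by KER. Relations: apply to `x`, `w_i`, `y`, `Z`; from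
`(g_2 Z + h f) Q = 0` and `Z` prime, `Z ∤ f`, get `h = -c' Z`, `g_2 = c' f`. -/
def S_POG : Prop :=
  ∀ (K : Type) [Field K] (k j : ℕ), 2 ≤ k → ∀ (y : Fin k → K) (β : Ix k → K),
    Function.Injective y → Good y (fun _ => 0) β →
    ∃ θ φ f α, IsPlusOneResolution (famDer j y (fun _ => 0) β)
      (Fin.cons (2 * k) (Fin.cons 1 (Fin.cons (2 * k ^ 2 - 2 * k) fun _ => 1)) : Fin (j + 3) → ℕ)
      (2 * k ^ 2 - k - 1) θ φ f α ∧ α ≠ 0

/-- LOW: PROOF. For `G ∈ IZ` all homogeneous components of `G` are in `IZ` (`rho` preserves degrees), so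
let `G` be homogeneous of degree `e < d`. Write `G = ∑_m w^m G_m` with forms `G_m` in `Z, x, y` of
degree `e - |m|`: `rho i G = ∑_m w^m G_m(z_i, 1, y_i) x^(e - |m|) = 0`, so `G_m(z_i, 1, y_i) = 0` for all
`i`; then `x^(d - 1 - e + |m|) G_m` has degree `d - 1` and vanishes at all points, so `G_m = 0`. (Or: use
`K` infinite and evaluate the `w`'s: for fixed values of the `w`'s the polynomial in `Z, x, y` has
components of degree `≤ e` vanishing at all `(z_i, 1, y_i)`.) HIGH: rename the variables of the `g_i`. -/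
def S_LOW : Prop :=
  ∀ (K : Type) [Field K] [Infinite K] (k j d : ℕ), 1 ≤ d → ∀ (y z : Fin k → K),
    (NoLow d y z → ∀ G ∈ IZ j y z, ∀ e < d, homogeneousComponent e G = 0) ∧
    ((∃ g : Fin (d + 1) → MvPolynomial (Fin 3) K, LinearIndependent K g ∧
        ∀ i, (g i).IsHomogeneous d ∧ ∀ l, eval ![z l, 1, y l] (g i) = 0) →
      ∃ g : Fin (d + 1) → MvPolynomial (Fin (j + 3)) K, LinearIndependent K g ∧
        ∀ i, (g i).IsHomogeneous d ∧ g i ∈ IZ j y z)

/-- GEN: lower bound for the number of generators. PROOF (from STR, INP, KER). For `θ = mk a G h c` in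
`famDer` consider the `K`-linear map `Φ(θ) = (constant coefficient of a, the constant coefficients of
the c_i, homogeneousComponent d G, coefficient of Z^(2k) in h)`; (`a, G, h, c` are determined by `θ`, e.g.
`a x = θ x`, `G Q = θ y - a y`, `h = θ Z - a Z`). If `r` has constant coefficient zero, then
`Φ(r θ) = 0`: clear for the first parts and for `G` (the components of `G` of degree `< d` vanish);
for `h`: the homogeneous components of `h` of degree `e < 2 k` vanish, since
`ev_u h_e = β_u Q (ev_u G)_(e - deg Q) = 0` as `2 k < deg Q + d`, `deg Q = 2 k² - 2 k - 1`,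
so `∏ L_u` (degree `2 k`) divides `h_e`. So if `N` elements generate `famDer`, then the range of
`Φ` has dimension at most `N`. It contains the images of `E`, `w_i ∂/∂w_i`, `(∏ L_u) ∂/∂Z` and
`mk 0 (g i) (h_i) 0` (`h_i` from INP), which are linearly independent: dimension at least
`1 + j + 1 + (d + 1) = j + 3 + d`. -/
def S_GEN : Prop :=
  ∀ (K : Type) [Field K] (k j d : ℕ), 3 ≤ k → 1 ≤ d → ∀ (y z : Fin k → K) (β : Ix k → K),
    Good y z β → (∀ G ∈ IZ j y z, ∀ e < d, homogeneousComponent e G = 0) →
    (∃ g : Fin (d + 1) → MvPolynomial (Fin (j + 3)) K, LinearIndependent K g ∧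
      ∀ i, (g i).IsHomogeneous d ∧ g i ∈ IZ j y z) →
    ∀ (N : ℕ) (η : Fin N → Derivation K (MvPolynomial (Fin (j + 3)) K)
      (MvPolynomial (Fin (j + 3)) K)),
      famDer j y z β ≤ Submodule.span (MvPolynomial (Fin (j + 3)) K) (Set.range η) →
      (∀ i, η i ∈ famDer j y z β) → j + 3 + d ≤ N

end Pool.Agent.H505.PG
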