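import Mathlib
import Pool.Agent.H505.PG.Stm

set_option autoImplicit false

namespace Pool.Agent.H505.PG.Conv

open MvPolynomial

variable {K : Type} [Field K] {l : ℕ}

theorem mem_hyperplane (a x : Fin l → K) : x ∈ hyperplane a ↔ ∑ j, a j * x j = 0 := by
  simp [hyperplane, LinearMap.mem_ker, LinearMap.sum_apply, smul_eq_mul]

theorem hyperplane_eq {a b : Fin l → K} (ha : a ≠ 0) (hb : b ≠ 0)
    (h : hyperplane a = hyperplane b) : ∃ c : K, c ≠ 0 ∧ a = c • b := by
  obtain ⟨i, hi⟩ := Function.ne_iff.mp hb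
  have hi' : b i ≠ 0 := by simpa using hi
  have key : ∀ j, a j * b i = a i * b j := by
    intro j
    have hmem : (Pi.single j (b i) - Pi.single i (b j) : Fin l → K) ∈ hyperplane b := by
      rw [mem_hyperplane]
      simp only [Pi.sub_apply, mul_sub, Finset.sum_sub_distrib]
      simp only [Pi.single_apply, mul_ite, mul_zero, Finset.sum_ite_eq', Finset.mem_univ, if_true]
      ring
    rw [← h, mem_hyperplane] at hmem
    simp only [Pi.sub_apply, mul_sub, Finset.sum_sub_distrib] at hmem
    simp only [Pi.single_apply, mul_ite, mul_zero, Finset.sum_ite_eq', Finset.mem_univ, if_true]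
      at hmem
    exact sub_eq_zero.mp hmem
  have hab : a = (a i / b i) • b := by
    funext j
    rw [Pi.smul_apply, smul_eq_mul, div_mul_eq_mul_div, eq_div_iff hi', key j]
  refine ⟨a i / b i, ?_, hab⟩
  intro h0
  rw [h0, zero_smul] at hab
  exact ha hab

theorem linearForm_smul (c : K) (b : Fin l → K) :
    linearForm (c • b) = C c * linearForm b := by
  simp only [linearForm, Pi.smul_apply, smul_eq_mul, C_mul, Finset.mul_sum, mul_assoc]

theorem dvd_smul {c : K} (hc : c ≠ 0) (b : Fin l → K)
    (θ : Derivation K (MvPolynomial (Fin l) K) (MvPolynomial (Fin l) K)) :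
    linearForm (c • b) ∣ θ (linearForm (c • b)) ↔ linearForm b ∣ θ (linearForm b) := by
  have hu : IsUnit (C c : MvPolynomial (Fin l) K) := (IsUnit.mk0 c hc).map C
  rw [linearForm_smul, Derivation.leibniz, derivation_C, smul_zero, add_zero, smul_eq_mul]
  rw [hu.mul_left_dvd, hu.dvd_mul_left]

theorem logDer_arr {k j : ℕ} (y z : Fin k → K) (β : Ix k → K)
    (hne : ∀ i, vec j y z β i ≠ 0) : logDer (arr j y z β) = famDer j y z β := by
  ext θ
  constructor
  · intro hθ i
    exact hθ _ (hne i) (Finset.mem_image_of_mem _ (Finset.mem_univ i))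
  · intro hθ a ha hmem
    obtain ⟨i, -, hi⟩ := Finset.mem_image.mp hmem
    obtain ⟨c, hc, rfl⟩ := hyperplane_eq ha (hne i) hi.symm
    exact (dvd_smul hc _ θ).mpr (hθ i)

end Pool.Agent.H505.PG.Conv
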