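import Mathlib
import Pool.Agent.H505.PG.Conv

set_option autoImplicit false

namespace Pool.Agent.H505.PG

open MvPolynomial

/-- the exponents of the plus-one generated arrangement: `2 k, 1, 2 k² - 2 k, 1, …, 1` -/
def exps (k j : ℕ) : Fin (j + 3) → ℕ :=
  Fin.cons (2 * k) (Fin.cons 1 (Fin.cons (2 * k ^ 2 - 2 * k) fun _ => 1))

theorem pair (hARR : S_ARR) (hLAT : S_LAT) (hPOG : S_POG) (hGEN : S_GEN)
    {K : Type} [Field K] (j d k : ℕ) (hd : 2 ≤ d) (hk : 3 ≤ k)
    (y z : Fin k → K) (hy : Function.Injective y) (β β' : Ix k → K)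
    (h0 : Good y (fun _ => 0) β) (h1 : Good y z β')
    (hlow : ∀ G ∈ IZ j y z, ∀ e < d, homogeneousComponent e G = 0)
    (hg : ∃ g : Fin (d + 1) → MvPolynomial (Fin (j + 3)) K, LinearIndependent K g ∧
      ∀ i, (g i).IsHomogeneous d ∧ g i ∈ IZ j y z) :
    ∃ A B : Finset (Submodule K (Fin (j + 3) → K)),
      IsArrangement A ∧ IsArrangement B ∧ IsEssential A ∧ IsEssential B ∧
      A.card = 2 * k ^ 2 + j ∧ B.card = 2 * k ^ 2 + j ∧
      Nonempty (Lattice A ≃o Lattice B) ∧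
      StrictlyPlusOneGenerated A (exps k j) (2 * k ^ 2 - k - 1) ∧
      (∀ (N : ℕ) (η : Fin N → Derivation K (MvPolynomial (Fin (j + 3)) K)
        (MvPolynomial (Fin (j + 3)) K)),
        Submodule.span (MvPolynomial (Fin (j + 3)) K) (Set.range η) = logDer B →
          j + 3 + d ≤ N) ∧
      ¬ ∃ e m, PlusOneGenerated B e m := by
  have hk2 : 2 ≤ k := by omega
  obtain ⟨a1, a2, a3, a4⟩ := hARR K k j hk2 y (fun _ => 0) β h0
  obtain ⟨b1, b2, b3, b4⟩ := hARR K k j hk2 y z β' h1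
  have hN : ∀ (N : ℕ) (η : Fin N → Derivation K (MvPolynomial (Fin (j + 3)) K)
      (MvPolynomial (Fin (j + 3)) K)),
      Submodule.span (MvPolynomial (Fin (j + 3)) K) (Set.range η) = logDer (arr j y z β') →
        j + 3 + d ≤ N := by
    intro N η hη
    rw [Conv.logDer_arr y z β' b4] at hη
    refine hGEN K k j d hk (by omega) y z β' h1 hlow hg N η hη.ge ?_
    intro i
    rw [← hη]
    exact Submodule.subset_span ⟨i, rfl⟩
  refine ⟨arr j y (fun _ => 0) β, arr j y z β', a1, b1, a2, b2, a3, b3,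
    hLAT K k j hk2 y (fun _ => 0) y z β β' h0 h1, ?_, hN, ?_⟩
  · obtain ⟨θ, φ, f, α, h, hα⟩ := hPOG K k j hk2 y β hy h0
    rw [← Conv.logDer_arr y (fun _ => 0) β a4] at h
    exact ⟨θ, φ, f, α, h, hα⟩
  · rintro ⟨e, m, θ, φ, f, α, h⟩
    have h2 := hN (j + 3 + 1) (Fin.snoc (α := fun _ => Derivation K (MvPolynomial (Fin (j + 3)) K)
      (MvPolynomial (Fin (j + 3)) K)) θ φ) ?_
    · omega
    · apply le_antisymm
      · rw [Submodule.span_le]
        rintro _ ⟨i, rfl⟩
        refine Fin.lastCases ?_ (fun i => ?_) i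
        · simpa using h.phi_mem
        · simpa using h.theta_mem i
      · intro η hη
        obtain ⟨g, c, rfl⟩ := h.generate η hη
        refine Submodule.add_mem _ (Submodule.sum_mem _ fun i _ => Submodule.smul_mem _ _
          (Submodule.subset_span ⟨i.castSucc, by simp⟩)) (Submodule.smul_mem _ _
          (Submodule.subset_span ⟨Fin.last _, by simp⟩))

theorem final (hLIN : S_LIN) (hPTS : S_PTS) (hARR : S_ARR) (hLAT : S_LAT) (hPOG : S_POG)
    (hLOW : S_LOW) (hGEN : S_GEN) (K : Type) [Field K] [Infinite K] (j d k : ℕ) (hd : 2 ≤ d)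
    (hk : k = d * (d + 1) / 2) :
    ∃ A B : Finset (Submodule K (Fin (j + 3) → K)),
      IsArrangement A ∧ IsArrangement B ∧ IsEssential A ∧ IsEssential B ∧
      A.card = 2 * k ^ 2 + j ∧ B.card = 2 * k ^ 2 + j ∧
      Nonempty (Lattice A ≃o Lattice B) ∧
      StrictlyPlusOneGenerated A (exps k j) (2 * k ^ 2 - k - 1) ∧
      (∀ (N : ℕ) (η : Fin N → Derivation K (MvPolynomial (Fin (j + 3)) K)
        (MvPolynomial (Fin (j + 3)) K)),
        Submodule.span (MvPolynomial (Fin (j + 3)) K) (Set.range η) = logDer B →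
          j + 3 + d ≤ N) ∧
      ¬ ∃ e m, PlusOneGenerated B e m := by
  have hk3 : 3 ≤ k := by
    have h6 : 2 * 3 ≤ d * (d + 1) := Nat.mul_le_mul hd (by omega)
    omega
  subst hk
  obtain ⟨y, z, hy, hlow, hg⟩ := hPTS K d (by omega)
  obtain ⟨β, h0⟩ := hLIN K _ (by omega) y (fun _ => 0) hy
  obtain ⟨β', h1⟩ := hLIN K _ (by omega) y z hy
  exact pair hARR hLAT hPOG hGEN j d _ hd hk3 y z hy β β' h0 h1
    ((hLOW K _ j d (by omega) y z).1 hlow) ((hLOW K _ j d (by omega) y z).2 hg)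

end Pool.Agent.H505.PG
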