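import Pool.Agent.H505.PG.Stm

/-! Leaf POG (helper354): explicit minimal resolution from the structure theorem. -/

set_option autoImplicit false

namespace Pool.Agent.H505.PG.POG

open MvPolynomial

variable {K : Type} [Field K]

/-! ### the calculus of `mk` -/

section mk

variable {k j : ℕ} (y z : Fin k → K) (β : Ix k → K)

lemma mk_X0 (a G h : MvPolynomial (Fin (j + 3)) K) (c : Fin j → MvPolynomial (Fin (j + 3)) K) :
    mk j y z β a G h c (X 0) = a * X 0 + h := by
  rw [mk, mkDerivation_X]; rfl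

lemma mk_X1 (a G h : MvPolynomial (Fin (j + 3)) K) (c : Fin j → MvPolynomial (Fin (j + 3)) K) :
    mk j y z β a G h c (X 1) = a * X 1 := by
  rw [mk, mkDerivation_X]; rfl

lemma mk_X2 (a G h : MvPolynomial (Fin (j + 3)) K) (c : Fin j → MvPolynomial (Fin (j + 3)) K) :
    mk j y z β a G h c (X 2) = a * X 2 + G * Qp j y z β := by
  rw [mk, mkDerivation_X]; rfl

lemma mk_Xs (a G h : MvPolynomial (Fin (j + 3)) K) (c : Fin j → MvPolynomial (Fin (j + 3)) K)
    (i : Fin j) :
    mk j y z β a G h c (X i.succ.succ.succ) = c i * X i.succ.succ.succ := by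
  rw [mk, mkDerivation_X]; rfl

/-- case distinction on the variables -/
lemma fin_cases3 {P : Fin (j + 3) → Prop} (h0 : P 0) (h1 : P 1) (h2 : P 2)
    (hs : ∀ i : Fin j, P i.succ.succ.succ) (i : Fin (j + 3)) : P i := by
  refine Fin.cases h0 (fun i => ?_) i
  refine Fin.cases h1 (fun i => ?_) i
  exact Fin.cases h2 (fun i => hs i) i

lemma mk_add (a G h a' G' h' : MvPolynomial (Fin (j + 3)) K)
    (c c' : Fin j → MvPolynomial (Fin (j + 3)) K) :
    mk j y z β a G h c + mk j y z β a' G' h' c' = mk j y z β (a + a') (G + G') (h + h') (c + c') := by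
  apply MvPolynomial.derivation_ext
  refine fin_cases3 ?_ ?_ ?_ (fun i => ?_)
  · rw [Derivation.add_apply, mk_X0, mk_X0, mk_X0]; ring
  · rw [Derivation.add_apply, mk_X1, mk_X1, mk_X1]; ring
  · rw [Derivation.add_apply, mk_X2, mk_X2, mk_X2]; ring
  · rw [Derivation.add_apply, mk_Xs, mk_Xs, mk_Xs, Pi.add_apply]; ring

lemma smul_mk (r a G h : MvPolynomial (Fin (j + 3)) K)
    (c : Fin j → MvPolynomial (Fin (j + 3)) K) :
    r • mk j y z β a G h c = mk j y z β (r * a) (r * G) (r * h) (fun i => r * c i) := by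
  apply MvPolynomial.derivation_ext
  refine fin_cases3 ?_ ?_ ?_ (fun i => ?_)
  · rw [Derivation.smul_apply, mk_X0, mk_X0, smul_eq_mul]; ring
  · rw [Derivation.smul_apply, mk_X1, mk_X1, smul_eq_mul]; ring
  · rw [Derivation.smul_apply, mk_X2, mk_X2, smul_eq_mul]; ring
  · rw [Derivation.smul_apply, mk_Xs, mk_Xs, smul_eq_mul]; ring

lemma mk_zero : mk j y z β 0 0 0 0 = 0 := by
  apply MvPolynomial.derivation_ext
  refine fin_cases3 ?_ ?_ ?_ (fun i => ?_)
  · rw [mk_X0]; simp
  · rw [mk_X1]; simp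
  · rw [mk_X2]; simp
  · rw [mk_Xs]; simp

lemma mk_sum {ι : Type} (s : Finset ι) (a G h : ι → MvPolynomial (Fin (j + 3)) K)
    (c : ι → Fin j → MvPolynomial (Fin (j + 3)) K) :
    ∑ i ∈ s, mk j y z β (a i) (G i) (h i) (c i) =
      mk j y z β (∑ i ∈ s, a i) (∑ i ∈ s, G i) (∑ i ∈ s, h i) (∑ i ∈ s, c i) := by
  classical
  induction s using Finset.induction_on with
  | empty => simp [mk_zero]
  | insert i s hi ih =>
    rw [Finset.sum_insert hi, ih, mk_add, Finset.sum_insert hi, Finset.sum_insert hi,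
      Finset.sum_insert hi, Finset.sum_insert hi]

lemma mk_inj (hQ : Qp j y z β ≠ 0) {a G h a' G' h' : MvPolynomial (Fin (j + 3)) K}
    {c c' : Fin j → MvPolynomial (Fin (j + 3)) K}
    (H : mk j y z β a G h c = mk j y z β a' G' h' c') : a = a' ∧ G = G' ∧ h = h' ∧ c = c' := by
  have h1 : a = a' := by
    have := congrArg (fun D => D (X 1)) H
    simp only [mk_X1] at this
    exact mul_right_cancel₀ (X_ne_zero _) this
  subst h1
  have h2 : G = G' := by
    have := congrArg (fun D => D (X 2)) H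
    simp only [mk_X2] at this
    exact mul_right_cancel₀ hQ (add_left_cancel this)
  subst h2
  have h3 : h = h' := by
    have := congrArg (fun D => D (X 0)) H
    simp only [mk_X0] at this
    exact add_left_cancel this
  subst h3
  refine ⟨rfl, rfl, rfl, funext fun i => ?_⟩
  have := congrArg (fun D => D (X i.succ.succ.succ)) H
  simp only [mk_Xs] at this
  exact mul_right_cancel₀ (X_ne_zero _) this

end mk

/-! ### substitutions -/

lemma sub_dvd {σ : Type} (g : σ → MvPolynomial σ K) (d : MvPolynomial σ K)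
    (hg : ∀ l, d ∣ X l - g l) (p : MvPolynomial σ K) : d ∣ p - aeval g p := by
  induction p using MvPolynomial.induction_on with
  | C a => simp
  | add p q hp hq =>
    rw [map_add, add_sub_add_comm]
    exact dvd_add hp hq
  | mul_X p l hp =>
    have : p * X l - aeval g (p * X l) = (p - aeval g p) * X l + aeval g p * (X l - g l) := by
      rw [map_mul, aeval_X]; ring
    rw [this]
    exact dvd_add (dvd_mul_of_dvd_left hp _) (dvd_mul_of_dvd_right (hg l) _)

/-- a factor of a homogeneous polynomial is homogeneous -/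
lemma homog_factor {σ : Type} (c P F : MvPolynomial σ K) (m n : ℕ) (hP : P.IsHomogeneous m)
    (hP0 : P ≠ 0) (hF : F.IsHomogeneous (n + m)) (h : F = c * P) : c.IsHomogeneous n := by
  have h1 : c * P = homogeneousComponent n c * P := by
    have h2 : homogeneousComponent (n + m) (c * P) = c * P := by
      rw [← h]
      rw [homogeneousComponent_of_mem ((mem_homogeneousSubmodule _ _).2 hF), if_pos rfl]
    have h3 : homogeneousComponent (n + m) (c * P) = homogeneousComponent n c * P := by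
      conv_lhs => rw [← sum_homogeneousComponent c, Finset.sum_mul, map_sum]
      have h4 : ∀ i ∈ Finset.range (c.totalDegree + 1),
          homogeneousComponent (n + m) (homogeneousComponent i c * P) =
            if i = n then homogeneousComponent n c * P else 0 := by
        intro i _
        rw [homogeneousComponent_of_mem ((mem_homogeneousSubmodule _ _).2
          ((homogeneousComponent_isHomogeneous i c).mul hP))]
        by_cases hin : i = n
        · subst hin; simp
        · rw [if_neg hin, if_neg (by omega)]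
      rw [Finset.sum_congr rfl h4, Finset.sum_ite_eq']
      split_ifs with h5
      · rfl
      · rw [Finset.mem_range, not_lt] at h5
        rw [homogeneousComponent_eq_zero _ _ (by omega), zero_mul]
    rw [← h2, h3]
  have h5 := mul_right_cancel₀ hP0 h1
  rw [h5]
  exact homogeneousComponent_isHomogeneous n c

/-! ### the ideal of the points -/

/-- `∏ (y - y_i x)` -/
noncomputable def ff {k : ℕ} (j : ℕ) (y : Fin k → K) : MvPolynomial (Fin (j + 3)) K :=
  ∏ i, (X 2 - C (y i) * X 1)

/-- the substitution `Z ↦ 0` -/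
noncomputable def s0 (K : Type) [Field K] (j : ℕ) :
    MvPolynomial (Fin (j + 3)) K →ₐ[K] MvPolynomial (Fin (j + 3)) K :=
  aeval fun l => if l = 0 then 0 else X l

/-- the substitution `y ↦ a x` -/
noncomputable def s2 (j : ℕ) (a : K) :
    MvPolynomial (Fin (j + 3)) K →ₐ[K] MvPolynomial (Fin (j + 3)) K :=
  aeval fun l => if l = 2 then C a * X 1 else X l

lemma s0_dvd (j : ℕ) (p : MvPolynomial (Fin (j + 3)) K) : X 0 ∣ p - s0 K j p := by
  apply sub_dvd
  intro l
  by_cases hl : l = 0
  · subst hl; simp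
  · simp [hl]

lemma s2_dvd (j : ℕ) (a : K) (p : MvPolynomial (Fin (j + 3)) K) :
    (X 2 - C a * X 1) ∣ p - s2 j a p := by
  apply sub_dvd
  intro l
  by_cases hl : l = 2
  · subst hl; simp
  · simp [hl]

lemma two_ne_one (j : ℕ) : (1 : Fin (j + 3)) ≠ 2 := by
  intro h
  have := congrArg Fin.val h
  simp at this
  rw [Nat.mod_eq_of_lt (by omega)] at this
  omega

lemma two_ne_zero' (j : ℕ) : (2 : Fin (j + 3)) ≠ 0 := by
  intro h
  have := congrArg Fin.val h
  simp at this
  rw [Nat.mod_eq_of_lt (by omega)] at this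
  omega

lemma one_ne_zero' (j : ℕ) : (1 : Fin (j + 3)) ≠ 0 := by
  intro h
  have := congrArg Fin.val h
  simp at this

lemma s2_X1 (j : ℕ) (a : K) : s2 j a (X 1) = X 1 := by
  rw [s2, aeval_X, if_neg (two_ne_one j)]

lemma s2_X2 (j : ℕ) (a : K) : s2 j a (X 2) = C a * X 1 := by
  rw [s2, aeval_X, if_pos rfl]

lemma s2_C (j : ℕ) (a b : K) : s2 j a (C b) = C b := by
  rw [s2, aeval_C]; rfl

lemma s0_X0 (j : ℕ) : s0 K j (X 0) = 0 := by
  rw [s0, aeval_X, if_pos rfl]

lemma s0_X1 (j : ℕ) : s0 K j (X 1) = X 1 := by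
  rw [s0, aeval_X, if_neg (one_ne_zero' j)]

lemma s0_X2 (j : ℕ) : s0 K j (X 2) = X 2 := by
  rw [s0, aeval_X, if_neg (two_ne_zero' j)]

lemma s0_C (j : ℕ) (b : K) : s0 K j (C b) = C b := by
  rw [s0, aeval_C]; rfl

lemma s0_ff {k : ℕ} (j : ℕ) (y : Fin k → K) : s0 K j (ff j y) = ff j y := by
  rw [ff, map_prod]
  apply Finset.prod_congr rfl
  intro i _
  rw [map_sub, map_mul, s0_X1, s0_X2, s0_C]

lemma rho_eq {k : ℕ} (j : ℕ) (y : Fin k → K) (i : Fin k) (p : MvPolynomial (Fin (j + 3)) K) :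
    rho j y (fun _ => 0) i p = s2 j (y i) (s0 K j p) := by
  have : rho j y (fun _ => 0) i = (s2 j (y i)).comp (s0 K j) := by
    apply MvPolynomial.algHom_ext
    intro l
    rw [AlgHom.comp_apply]
    by_cases hl : l = 0
    · subst hl
      rw [s0_X0, rho, aeval_X, if_pos rfl, C_0, zero_mul, map_zero]
    · rw [rho, aeval_X, if_neg hl, s0, aeval_X, if_neg hl, s2, aeval_X]
  rw [this]; rfl

lemma prod_dvd {k : ℕ} (j : ℕ) (y : Fin k → K) (hy : Function.Injective y) (s : Finset (Fin k))
    (p : MvPolynomial (Fin (j + 3)) K) (hp : ∀ i ∈ s, s2 j (y i) p = 0) :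
    (∏ i ∈ s, (X 2 - C (y i) * X 1)) ∣ p := by
  classical
  induction s using Finset.induction_on with
  | empty => simp
  | insert a s ha ih =>
    obtain ⟨q, hq⟩ := ih (fun i hi => hp i (Finset.mem_insert_of_mem hi))
    have h1 := hp a (Finset.mem_insert_self a s)
    rw [hq, map_mul, map_prod] at h1
    have h2 : ∏ i ∈ s, s2 j (y a) (X 2 - C (y i) * X 1) ≠ 0 := by
      rw [Finset.prod_ne_zero_iff]
      intro i hi
      rw [map_sub, map_mul, s2_X1, s2_X2, s2_C, ← sub_mul, ← C_sub]
      apply mul_ne_zero _ (X_ne_zero _)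
      rw [Ne, C_eq_zero, sub_eq_zero]
      intro h
      exact ha ((hy h) ▸ hi)
    have h3 : s2 j (y a) q = 0 := by
      rcases mul_eq_zero.1 h1 with h | h
      · exact absurd h h2
      · exact h
    have h4 := s2_dvd j (y a) q
    rw [h3, sub_zero] at h4
    rw [Finset.prod_insert ha, hq, mul_comm]
    exact mul_dvd_mul_left _ h4

lemma IZ_struct {k : ℕ} (j : ℕ) (y : Fin k → K) (hy : Function.Injective y)
    (G : MvPolynomial (Fin (j + 3)) K) (hG : G ∈ IZ j y (fun _ => 0)) :
    ∃ s t, G = s * X 0 + t * ff j y := by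
  obtain ⟨s, hs⟩ := s0_dvd j G
  have h1 : ff j y ∣ s0 K j G := by
    apply prod_dvd j y hy
    intro i _
    rw [← rho_eq]
    rw [IZ, Ideal.mem_iInf] at hG
    exact hG i
  obtain ⟨t, ht⟩ := h1
  refine ⟨s, t, ?_⟩
  rw [← sub_add_cancel G (s0 K j G), hs, ht]
  ring

lemma X0_mem {k : ℕ} (j : ℕ) (y : Fin k → K) :
    (X 0 : MvPolynomial (Fin (j + 3)) K) ∈ IZ j y (fun _ => 0) := by
  rw [IZ, Ideal.mem_iInf]
  intro i
  rw [RingHom.mem_ker, rho_eq, s0_X0, map_zero]

lemma ff_mem {k : ℕ} (j : ℕ) (y : Fin k → K) : ff j y ∈ IZ j y (fun _ => 0) := by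
  rw [IZ, Ideal.mem_iInf]
  intro i
  rw [RingHom.mem_ker, rho_eq, s0_ff, ff, map_prod]
  apply Finset.prod_eq_zero (Finset.mem_univ i)
  rw [map_sub, map_mul, s2_X1, s2_X2, s2_C, sub_self]

lemma ff_hom {k : ℕ} (j : ℕ) (y : Fin k → K) : (ff j y).IsHomogeneous k := by
  have h := IsHomogeneous.prod (Finset.univ : Finset (Fin k))
    (fun i => (X 2 - C (y i) * X 1 : MvPolynomial (Fin (j + 3)) K)) (fun _ => 1)
    (fun i _ => (isHomogeneous_X K 2).sub (isHomogeneous_C_mul_X (y i) 1))
  simpa [ff] using h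

lemma LL_hom {k : ℕ} (j : ℕ) (y z : Fin k → K) (β : Ix k → K) :
    (∏ u, Lf j y z β u).IsHomogeneous (2 * k) := by
  have h := IsHomogeneous.prod (Finset.univ : Finset (Ix k))
    (fun u => Lf j y z β u) (fun _ => 1)
    (fun u _ => ((isHomogeneous_X K 0).sub (isHomogeneous_C_mul_X _ 1)).sub
      (isHomogeneous_C_mul_X _ 2))
  have h2 : ∑ _u : Ix k, 1 = 2 * k := by
    simp [Fintype.card_prod, mul_comm]
  rw [h2] at h
  exact h

lemma ff_ne {k : ℕ} (j : ℕ) (y : Fin k → K) : ff j y ≠ 0 := by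
  rw [ff, Finset.prod_ne_zero_iff]
  intro i _ h
  have := congrArg (eval (Pi.single 2 1)) h
  simp [two_ne_one j] at this

lemma LL_ne {k : ℕ} (j : ℕ) (y z : Fin k → K) (β : Ix k → K) : (∏ u, Lf j y z β u) ≠ 0 := by
  rw [Finset.prod_ne_zero_iff]
  intro u _ h
  have := congrArg (eval (Pi.single 0 1)) h
  simp [Lf, two_ne_zero' j, one_ne_zero' j] at this

/-! ### the resolution -/

theorem main (hSTR : S_STR) (hINP : S_INP) (hKER : S_KER) : S_POG := by
  intro K _ k j hk y β hy hgood
  obtain ⟨hstr1, hstr2⟩ := hSTR K k j hk y (fun _ => 0) β hgood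
  obtain ⟨hQh, hQ0, hinp⟩ := hINP K k j hk y (fun _ => 0) β hgood
  obtain ⟨hker1, hker2⟩ := hKER K k j hk y (fun _ => 0) β hgood
  have hkk : 2 * k ≤ k ^ 2 := by nlinarith
  set q := 2 * k ^ 2 - 2 * k - 1 with hq
  obtain ⟨h1, h1h, h1e⟩ := hinp 1 (X 0) (X0_mem j y) (isHomogeneous_X K 0)
  obtain ⟨h2, h2h, h2e⟩ := hinp k (ff j y) (ff_mem j y) (ff_hom j y)
  set z : Fin k → K := fun _ => 0 with hz
  set Q := Qp j y z β with hQd
  set LL := ∏ u, Lf j y z β u with hLL
  have hLL0 : LL ≠ 0 := LL_ne j y z β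
  have hevLL : ∀ u, ev j y z β u LL = 0 := by
    intro u
    rw [hLL, map_prod]
    exact Finset.prod_eq_zero (Finset.mem_univ u) (hker1 u)
  -- the coefficient c
  obtain ⟨c, hc⟩ : LL ∣ ff j y * h1 - X 0 * h2 := by
    apply hker2
    intro u
    rw [map_sub, map_mul, map_mul, h1e, h2e]
    ring
  have hc' : ff j y * h1 - X 0 * h2 = c * LL := by rw [hc, mul_comm]
  have hchom : c.IsHomogeneous (2 * k ^ 2 - 3 * k) := by
    apply homog_factor c LL (ff j y * h1 - X 0 * h2) (2 * k) _ (LL_hom j y z β) hLL0 _ hc'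
    have e1 : 2 * k ^ 2 - 3 * k + 2 * k = k + (1 + q) := by omega
    have e2 : 2 * k ^ 2 - 3 * k + 2 * k = 1 + (k + q) := by omega
    apply IsHomogeneous.sub
    · rw [e1]; exact (ff_hom j y).mul h1h
    · rw [e2]; exact (isHomogeneous_X K 0).mul h2h
  set th0 := mk j y z β 0 0 LL 0 with hth0
  set th1 := mk j y z β 1 0 0 0 with hth1
  set th2 := mk j y z β 0 (X 0) h1 0 with hth2
  set phi := mk j y z β 0 (ff j y) h2 0 with hphi
  set thw : Fin j → Derivation K (MvPolynomial (Fin (j + 3)) K) (MvPolynomial (Fin (j + 3)) K) :=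
    fun i => mk j y z β 0 0 0 (Pi.single i 1) with hthw
  set th : Fin (j + 3) → Derivation K (MvPolynomial (Fin (j + 3)) K)
    (MvPolynomial (Fin (j + 3)) K) := Fin.cons th0 (Fin.cons th1 (Fin.cons th2 thw)) with hth
  have t0 : th 0 = th0 := rfl
  have t1 : th 1 = th1 := rfl
  have t2 : th 2 = th2 := rfl
  have ts : ∀ i : Fin j, th i.succ.succ.succ = thw i := fun i => rfl
  -- sums
  have hsum : ∀ (g : Fin (j + 3) → MvPolynomial (Fin (j + 3)) K)
      (h : MvPolynomial (Fin (j + 3)) K), ∑ i, g i • th i + h • phi =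
      mk j y z β (g 1) (g 2 * X 0 + h * ff j y) (g 0 * LL + g 2 * h1 + h * h2)
        (fun i => g i.succ.succ.succ) := by
    intro g h
    have hw : ∑ i : Fin j, g i.succ.succ.succ • thw i =
        mk j y z β 0 0 0 (fun i => g i.succ.succ.succ) := by
      have e1 : ∀ i ∈ (Finset.univ : Finset (Fin j)), g i.succ.succ.succ • thw i =
          mk j y z β 0 0 0 (fun l => g i.succ.succ.succ * (Pi.single i 1 : Fin j → _) l) := by
        intro i _
        rw [hthw]
        simp only
        rw [smul_mk, mul_zero]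
      rw [Finset.sum_congr rfl e1, mk_sum]
      simp only [Finset.sum_const_zero]
      congr 1
      funext l
      rw [Finset.sum_apply]
      simp [Pi.single_apply]
    rw [Fin.sum_univ_succ, Fin.sum_univ_succ, Fin.sum_univ_succ]
    have e0 : (Fin.succ 0 : Fin (j + 3)) = 1 := rfl
    have e1 : (Fin.succ (Fin.succ 0) : Fin (j + 3)) = 2 := rfl
    rw [e0, e1, t0, t1, t2]
    simp only [ts]
    rw [hw, hth0, hth1, hth2, hphi, smul_mk, smul_mk, smul_mk, smul_mk, mk_add, mk_add, mk_add,
      mk_add]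
    congr 1
    · ring
    · ring
    · ring
    · funext i
      simp
  refine ⟨th, phi, Fin.cons (-c) (Fin.cons 0 (Fin.cons (ff j y) fun _ => 0)), -X 0, ?_, ?_⟩
  swap
  · rw [neg_ne_zero]; exact X_ne_zero _
  set fc : Fin (j + 3) → MvPolynomial (Fin (j + 3)) K :=
    Fin.cons (-c) (Fin.cons 0 (Fin.cons (ff j y) fun _ => 0)) with hfc
  have f0 : fc 0 = -c := rfl
  have f1 : fc 1 = 0 := rfl
  have f2 : fc 2 = ff j y := rfl
  have fs : ∀ i : Fin j, fc i.succ.succ.succ = 0 := fun i => rfl
  refine ⟨?_, ?_, ?_, ?_, ?_, ?_, ?_, ?_, ?_, ?_, ?_⟩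
  · -- theta_mem
    refine fin_cases3 ?_ ?_ ?_ (fun i => ?_)
    · rw [t0]
      apply hstr2
      intro u
      rw [hevLL, map_zero, mul_zero]
    · rw [t1]
      apply hstr2
      intro u
      rw [map_zero, mul_zero]
    · rw [t2]
      exact hstr2 _ _ _ _ h1e
    · rw [ts]
      apply hstr2
      intro u
      rw [map_zero, mul_zero]
  · exact hstr2 _ _ _ _ h2e
  · -- theta_homogeneous
    refine fin_cases3 ?_ ?_ ?_ (fun i => ?_)
    · rw [t0]
      show ∀ l, (th0 (X l)).IsHomogeneous (2 * k)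
      refine fin_cases3 ?_ ?_ ?_ (fun i => ?_)
      · rw [hth0, mk_X0, zero_mul, zero_add]
        exact LL_hom j y z β
      · rw [hth0, mk_X1, zero_mul]; exact isHomogeneous_zero _ _ _
      · rw [hth0, mk_X2, zero_mul, zero_mul, add_zero]; exact isHomogeneous_zero _ _ _
      · rw [hth0, mk_Xs, Pi.zero_apply, zero_mul]; exact isHomogeneous_zero _ _ _
    · rw [t1]
      show ∀ l, (th1 (X l)).IsHomogeneous 1
      refine fin_cases3 ?_ ?_ ?_ (fun i => ?_)
      · rw [hth1, mk_X0, one_mul, add_zero]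
        exact isHomogeneous_X K _
      · rw [hth1, mk_X1, one_mul]; exact isHomogeneous_X K _
      · rw [hth1, mk_X2, one_mul, zero_mul, add_zero]; exact isHomogeneous_X K _
      · rw [hth1, mk_Xs, Pi.zero_apply, zero_mul]; exact isHomogeneous_zero _ _ _
    · rw [t2]
      show ∀ l, (th2 (X l)).IsHomogeneous (2 * k ^ 2 - 2 * k)
      have e1 : 2 * k ^ 2 - 2 * k = 1 + q := by omega
      rw [e1]
      refine fin_cases3 ?_ ?_ ?_ (fun i => ?_)
      · rw [hth2, mk_X0, zero_mul, zero_add]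
        exact h1h
      · rw [hth2, mk_X1, zero_mul]; exact isHomogeneous_zero _ _ _
      · rw [hth2, mk_X2, zero_mul, zero_add]
        exact (isHomogeneous_X K 0).mul hQh
      · rw [hth2, mk_Xs, Pi.zero_apply, zero_mul]; exact isHomogeneous_zero _ _ _
    · rw [ts]
      show ∀ l, (mk j y z β 0 0 0 (Pi.single i 1) (X l)).IsHomogeneous 1
      refine fin_cases3 ?_ ?_ ?_ (fun l => ?_)
      · rw [mk_X0, zero_mul, add_zero]; exact isHomogeneous_zero _ _ _
      · rw [mk_X1, zero_mul]; exact isHomogeneous_zero _ _ _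
      · rw [mk_X2, zero_mul, zero_mul, add_zero]; exact isHomogeneous_zero _ _ _
      · rw [mk_Xs]
        by_cases hl : l = i
        · subst hl
          rw [Pi.single_eq_same, one_mul]
          exact isHomogeneous_X K _
        · rw [Pi.single_eq_of_ne hl, zero_mul]; exact isHomogeneous_zero _ _ _
  · -- phi_homogeneous
    have e1 : 2 * k ^ 2 - k - 1 = k + q := by omega
    rw [e1]
    refine fin_cases3 ?_ ?_ ?_ (fun i => ?_)
    · rw [hphi, mk_X0, zero_mul, zero_add]
      exact h2h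
    · rw [hphi, mk_X1, zero_mul]; exact isHomogeneous_zero _ _ _
    · rw [hphi, mk_X2, zero_mul, zero_add]
      exact (ff_hom j y).mul hQh
    · rw [hphi, mk_Xs, Pi.zero_apply, zero_mul]; exact isHomogeneous_zero _ _ _
  · -- coeff_homogeneous
    refine fin_cases3 ?_ ?_ ?_ (fun i => ?_)
    · right
      refine ⟨2 * k ^ 2 - 3 * k, ?_, ?_⟩
      · show 2 * k ^ 2 - 3 * k + 2 * k = 2 * k ^ 2 - k - 1 + 1
        omega
      · rw [f0]; exact hchom.neg
    · left; exact f1
    · right
      refine ⟨k, ?_, ?_⟩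
      · show k + (2 * k ^ 2 - 2 * k) = 2 * k ^ 2 - k - 1 + 1
        omega
      · rw [f2]; exact ff_hom j y
    · left; exact fs i
  · exact (isHomogeneous_X K 0).neg
  · -- generate
    intro η hη
    obtain ⟨a, G, h, c', hη', hG, he⟩ := hstr1 η hη
    obtain ⟨s, t, hst⟩ := IZ_struct j y hy G hG
    obtain ⟨r, hr⟩ : LL ∣ h - s * h1 - t * h2 := by
      apply hker2
      intro u
      rw [map_sub, map_sub, map_mul, map_mul, h1e, h2e, he, hst, map_add, map_mul, map_mul]
      ring
    refine ⟨Fin.cons r (Fin.cons a (Fin.cons s c')), t, ?_⟩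
    rw [hsum, hη']
    congr 1
    show h = r * LL + s * h1 + t * h2
    linear_combination hr
  · -- relation
    rw [hsum, f0, f1, f2]
    have e1 : ff j y * X 0 + -X 0 * ff j y = (0 : MvPolynomial (Fin (j + 3)) K) := by ring
    have e2 : -c * LL + ff j y * h1 + -X 0 * h2 = 0 := by
      linear_combination hc'
    rw [e1, e2]
    exact mk_zero y z β
  · -- relations
    intro g h hgh
    rw [hsum, ← mk_zero y z β] at hgh
    obtain ⟨e1, e2, e3, e4⟩ := mk_inj y z β hQ0 hgh
    have e5 : s0 K j h = 0 := by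
      have e6 := congrArg (s0 K j) e2
      rw [map_add, map_mul, map_mul, s0_X0, mul_zero, zero_add, s0_ff, map_zero] at e6
      exact (mul_eq_zero.1 e6).resolve_right (ff_ne j y)
    obtain ⟨c', hc''⟩ := s0_dvd j h
    rw [e5, sub_zero] at hc''
    have e6 : g 2 = -c' * ff j y := by
      have e7 : (X 0 : MvPolynomial (Fin (j + 3)) K) * (g 2 + c' * ff j y) = 0 := by
        rw [hc''] at e2
        linear_combination e2
      have e8 := (mul_eq_zero.1 e7).resolve_left (X_ne_zero _)
      linear_combination e8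
    have e7 : g 0 = -c' * -c := by
      have e8 : LL * (g 0 - c' * c) = 0 := by
        rw [hc'', e6] at e3
        linear_combination e3 + c' * hc'
      have e9 := (mul_eq_zero.1 e8).resolve_left hLL0
      linear_combination e9
    refine ⟨-c', ?_, ?_⟩
    · refine fin_cases3 ?_ ?_ ?_ (fun i => ?_)
      · rw [e7, f0]
      · rw [e1, f1, mul_zero]
      · rw [e6, f2]
      · rw [fs, mul_zero]
        exact congrFun e4 i
    · rw [hc'']; ring
  · left
    rw [neg_ne_zero]; exact X_ne_zero _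
  · -- minimal
    have hcc : ∀ (p : MvPolynomial (Fin (j + 3)) K) (n : ℕ), 0 < n → p.IsHomogeneous n →
        constantCoeff p = 0 := by
      intro p n hn hp
      rw [constantCoeff_eq]
      by_contra hne
      have := hp hne
      simp at this
      omega
    refine fin_cases3 ?_ ?_ ?_ (fun i => ?_)
    · rw [f0, map_neg, hcc c _ (by nlinarith [Nat.sub_pos_of_lt (show 3 * k < 2 * k ^ 2 by nlinarith)]) hchom, neg_zero]
    · rw [f1, map_zero]
    · rw [f2]; exact hcc _ k (by omega) (ff_hom j y)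
    · rw [fs, map_zero]

end Pool.Agent.H505.PG.POG
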