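import Pool.Agent.H505.PG.Stm
import Pool.Agent.H505.PG.POG

/-! Leaf GEN (helper354): lower bound for the number of generators. -/

set_option autoImplicit false

namespace Pool.Agent.H505.PG.GEN

open MvPolynomial
open Pool.Agent.H505.PG.POG (mk_add smul_mk mk_zero mk_sum mk_inj LL_hom LL_ne fin_cases3
  two_ne_zero' one_ne_zero')

variable {K : Type} [Field K] {σ : Type}

/-! ### polynomials without components of low degree -/

/-- all coefficients of degree `< n` vanish -/
def Low (n : ℕ) (p : MvPolynomial σ K) : Prop := ∀ m : σ →₀ ℕ, m.degree < n → coeff m p = 0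

lemma low_iff (n : ℕ) (p : MvPolynomial σ K) :
    Low n p ↔ ∀ e < n, homogeneousComponent e p = 0 := by
  constructor
  · intro h e he
    ext m
    rw [coeff_homogeneousComponent, coeff_zero]
    split_ifs with hm
    · exact h m (by omega)
    · rfl
  · intro h m hm
    have h1 := congrArg (coeff m) (h _ hm)
    rw [coeff_homogeneousComponent, if_pos rfl, coeff_zero] at h1
    exact h1

lemma low_of_hom (n : ℕ) (p : MvPolynomial σ K) (hp : p.IsHomogeneous n) : Low n p := by
  intro m hm
  exact hp.coeff_eq_zero (by omega)

lemma low_mono {m n : ℕ} (hmn : m ≤ n) (p : MvPolynomial σ K) (hp : Low n p) : Low m p :=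
  fun a ha => hp a (by omega)

lemma low_mul (m n : ℕ) (r p : MvPolynomial σ K) (hr : Low m r) (hp : Low n p) :
    Low (m + n) (r * p) := by
  classical
  intro a ha
  rw [coeff_mul]
  apply Finset.sum_eq_zero
  rintro ⟨a1, a2⟩ h12
  rw [Finset.HasAntidiagonal.mem_antidiagonal] at h12
  have h1 : a1.degree + a2.degree = a.degree := by
    rw [← h12]; simp
  rcases lt_or_ge a1.degree m with h | h
  · rw [hr _ h, zero_mul]
  · rw [hp a2 (by omega), mul_zero]

lemma low_zero (p : MvPolynomial σ K) : Low 0 p := fun m hm => absurd hm (by omega)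

lemma low_sum {ι : Type} (s : Finset ι) (n : ℕ) (p : ι → MvPolynomial σ K)
    (hp : ∀ i ∈ s, Low n (p i)) : Low n (∑ i ∈ s, p i) := by
  intro m hm
  rw [coeff_sum]
  exact Finset.sum_eq_zero fun i hi => hp i hi m hm

lemma comp_mul (n : ℕ) (r p : MvPolynomial σ K) (hp : Low n p) :
    homogeneousComponent n (r * p) = C (constantCoeff r) * homogeneousComponent n p := by
  classical
  ext m
  rw [coeff_C_mul, coeff_homogeneousComponent, coeff_homogeneousComponent]
  split_ifs with hm
  · rw [coeff_mul, Finset.sum_eq_single (0, m)]
    · rfl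
    · rintro ⟨a1, a2⟩ h12 hne
      rw [Finset.HasAntidiagonal.mem_antidiagonal] at h12
      simp only at h12
      have h1 : a1.degree + a2.degree = m.degree := by
        rw [← h12]; simp
      have h2 : a1 ≠ 0 := by
        rintro rfl
        apply hne
        rw [zero_add] at h12
        rw [h12]
      have h3 : a1.degree ≠ 0 := by
        rwa [Ne, Finsupp.degree_eq_zero_iff]
      rw [hp a2 (by omega), mul_zero]
    · intro h
      exact absurd (by simp) h
  · rw [mul_zero]

lemma comp_hom (n m : ℕ) (p : MvPolynomial σ K) (hp : p.IsHomogeneous m) :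
    homogeneousComponent n p = if n = m then p else 0 :=
  homogeneousComponent_of_mem ((mem_homogeneousSubmodule _ _).2 hp)

/-- a linear substitution commutes with the homogeneous components -/
lemma comp_subst (g : σ → MvPolynomial σ K) (hg : ∀ i, (g i).IsHomogeneous 1) (e : ℕ)
    (p : MvPolynomial σ K) :
    homogeneousComponent e (aeval g p) = aeval g (homogeneousComponent e p) := by
  have hh : ∀ i, (aeval g (homogeneousComponent i p)).IsHomogeneous i := by
    intro i
    have := (homogeneousComponent_isHomogeneous i p).aeval g hg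
    rwa [one_mul] at this
  conv_lhs => rw [← sum_homogeneousComponent p, map_sum, map_sum]
  have h4 : ∀ i ∈ Finset.range (p.totalDegree + 1),
      homogeneousComponent e (aeval g (homogeneousComponent i p)) =
        if e = i then aeval g (homogeneousComponent e p) else 0 := by
    intro i _
    rw [comp_hom e i _ (hh i)]
    by_cases hin : e = i
    · subst hin; rfl
    · rw [if_neg hin, if_neg hin]
  rw [Finset.sum_congr rfl h4, Finset.sum_ite_eq]
  split_ifs with h5
  · rfl
  · rw [Finset.mem_range, not_lt] at h5
    rw [homogeneousComponent_eq_zero _ _ (by omega), map_zero]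

lemma ev_hom {k : ℕ} (j : ℕ) (y z : Fin k → K) (β : Ix k → K) (u : Ix k) (i : Fin (j + 3)) :
    ((fun i => if i = 0 then C (pa y z β u) * X 1 + C (β u) * X 2 else X i :
      Fin (j + 3) → MvPolynomial (Fin (j + 3)) K) i).IsHomogeneous 1 := by
  simp only
  split_ifs
  · exact (isHomogeneous_C_mul_X _ _).add (isHomogeneous_C_mul_X _ _)
  · exact isHomogeneous_X K _

theorem main (hSTR : S_STR) (hINP : S_INP) (hKER : S_KER) : S_GEN := by
  intro K _ k j d hk hd y z β hgood hlow hex N η hspan hη
  obtain ⟨g, hgli, hg⟩ := hex
  obtain ⟨hstr1, hstr2⟩ := hSTR K k j (by omega) y z β hgood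
  obtain ⟨hQh, hQ0, hinp⟩ := hINP K k j (by omega) y z β hgood
  obtain ⟨hker1, hker2⟩ := hKER K k j (by omega) y z β hgood
  have hkk : 3 * k ≤ k ^ 2 := by nlinarith
  set q := 2 * k ^ 2 - 2 * k - 1 with hq
  have hqd : 2 * k < q := by omega
  set LL := ∏ u, Lf j y z β u with hLL
  have hLL0 : LL ≠ 0 := LL_ne j y z β
  have hLLh : LL.IsHomogeneous (2 * k) := LL_hom j y z β
  have hevLL : ∀ u, ev j y z β u LL = 0 := by
    intro u
    rw [hLL, map_prod]
    exact Finset.prod_eq_zero (Finset.mem_univ u) (hker1 u)
  -- h has no components of degree < 2 k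
  have hlowh : ∀ G h : MvPolynomial (Fin (j + 3)) K, G ∈ IZ j y z →
      (∀ u, ev j y z β u h = C (β u) * Qp j y z β * ev j y z β u G) → Low (2 * k) h := by
    intro G h hG he
    rw [low_iff]
    intro e he2
    have h1 : LL ∣ homogeneousComponent e h := by
      apply hker2
      intro u
      have h2 : ev j y z β u (homogeneousComponent e h) =
          homogeneousComponent e (ev j y z β u h) :=
        (comp_subst _ (ev_hom j y z β u) e h).symm
      rw [h2, he]
      have h3 : Low d (ev j y z β u G) := by
        rw [low_iff]
        intro e' he'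
        have h4 : homogeneousComponent e' (ev j y z β u G) =
            ev j y z β u (homogeneousComponent e' G) :=
          comp_subst _ (ev_hom j y z β u) e' G
        rw [h4, hlow G hG e' he', map_zero]
      have h5 : Low (q + d) (C (β u) * Qp j y z β * ev j y z β u G) := by
        apply low_mul _ _ _ _ _ h3
        have := low_mul 0 q (C (β u)) (Qp j y z β) (low_zero _) (low_of_hom q _ hQh)
        rwa [zero_add] at this
      exact (low_iff _ _).1 h5 e (by omega)
    obtain ⟨c, hc⟩ := h1
    have h2 : Low (2 * k) (homogeneousComponent e h) := by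
      rw [hc, mul_comm LL c]
      have := low_mul 0 (2 * k) c LL (low_zero _) (low_of_hom _ _ hLLh)
      rwa [zero_add] at this
    have h3 := (low_iff _ _).1 h2 e he2
    rwa [comp_hom e e _ (homogeneousComponent_isHomogeneous e h), if_pos rfl] at h3
  choose A G H c hAe hAG hAev using fun i => hstr1 (η i) (hη i)
  have hlowH : ∀ i, Low (2 * k) (H i) := fun i => hlowh (G i) (H i) (hAG i) (hAev i)
  have hlowG : ∀ i, Low d (G i) := fun i => (low_iff _ _).2 (hlow (G i) (hAG i))
  choose hh hhh hhe using fun i => hinp d (g i) (hg i).2 (hg i).1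
  set e0 : Fin (j + 3) → K := Pi.single 0 1 with he0
  have hevalLL : eval e0 LL = 1 := by
    rw [hLL, map_prod]
    apply Finset.prod_eq_one
    intro u _
    simp [Lf, he0, two_ne_zero' j, one_ne_zero' j]
  let w : Fin N → K × (Fin j → K) × MvPolynomial (Fin (j + 3)) K × K := fun i => (constantCoeff (A i), fun l => constantCoeff (c i l),
    homogeneousComponent d (G i), eval e0 (homogeneousComponent (2 * k) (H i)))
  let T : (K × (Fin j → K) × (Fin (d + 1) → K) × K) →ₗ[K]
      K × (Fin j → K) × MvPolynomial (Fin (j + 3)) K × K :=
    LinearMap.prodMap LinearMap.id (LinearMap.prodMap LinearMap.id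
      (LinearMap.prodMap (Fintype.linearCombination K g) LinearMap.id))
  have hTinj : Function.Injective T := by
    rintro ⟨x1, x2, x3, x4⟩ ⟨y1, y2, y3, y4⟩ hxy
    have h1 : x1 = y1 := congrArg (fun v => v.1) hxy
    have h2 : x2 = y2 := congrArg (fun v => v.2.1) hxy
    have h3 : Fintype.linearCombination K g x3 = Fintype.linearCombination K g y3 :=
      congrArg (fun v => v.2.2.1) hxy
    have h4 : x4 = y4 := congrArg (fun v => v.2.2.2) hxy
    have h5 : x3 = y3 := by
      rw [Fintype.linearCombination_apply, Fintype.linearCombination_apply, ← sub_eq_zero,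
        ← Finset.sum_sub_distrib] at h3
      simp only [← sub_smul] at h3
      funext i
      exact sub_eq_zero.1 (Fintype.linearIndependent_iff.1 hgli _ h3 i)
    rw [h1, h2, h4, h5]
  have hTr : ∀ x, T x ∈ Submodule.span K (Set.range w) := by
    rintro ⟨α, γ, δ, ε⟩
    have hth : mk j y z β (C α) (∑ i, C (δ i) * g i) (∑ i, C (δ i) * hh i + C ε * LL)
        (fun l => C (γ l)) ∈ famDer j y z β := by
      apply hstr2
      intro u
      rw [map_add, map_sum, map_mul, hevLL, mul_zero, add_zero, map_sum, Finset.mul_sum]
      apply Finset.sum_congr rfl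
      intro i _
      rw [map_mul, map_mul, hhe]
      ring
    have hth2 := hspan hth
    rw [Submodule.mem_span_range_iff_exists_fun] at hth2
    obtain ⟨r, hr⟩ := hth2
    have hr2 : ∑ i, r i • η i = mk j y z β (∑ i, r i * A i) (∑ i, r i * G i) (∑ i, r i * H i)
        (∑ i, fun l => r i * c i l) := by
      rw [← mk_sum]
      apply Finset.sum_congr rfl
      intro i _
      conv_lhs => rw [hAe i]
      rw [smul_mk]
    rw [hr2] at hr
    obtain ⟨e1, e2, e3, e4⟩ := mk_inj y z β hQ0 hr
    rw [Submodule.mem_span_range_iff_exists_fun]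
    refine ⟨fun i => constantCoeff (r i), ?_⟩
    have p1 : ∑ i, constantCoeff (r i) * constantCoeff (A i) = α := by
      have := congrArg constantCoeff e1
      rw [map_sum, constantCoeff_C] at this
      simpa using this
    have p2 : ∀ l, ∑ i, constantCoeff (r i) * constantCoeff (c i l) = γ l := by
      intro l
      have := congrArg constantCoeff (congrFun e4 l)
      rw [Finset.sum_apply, map_sum, constantCoeff_C] at this
      simpa using this
    have p3 : ∑ i, constantCoeff (r i) • homogeneousComponent d (G i) = ∑ i, δ i • g i := by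
      have := congrArg (homogeneousComponent d) e2
      rw [map_sum, map_sum] at this
      have h1 : ∀ i ∈ (Finset.univ : Finset (Fin N)), homogeneousComponent d (r i * G i) =
          constantCoeff (r i) • homogeneousComponent d (G i) := by
        intro i _
        rw [comp_mul d _ _ (hlowG i), smul_eq_C_mul]
      have h2 : ∀ i ∈ (Finset.univ : Finset (Fin (d + 1))),
          homogeneousComponent d (C (δ i) * g i) = δ i • g i := by
        intro i _
        rw [homogeneousComponent_C_mul, comp_hom d d _ (hg i).1, if_pos rfl, smul_eq_C_mul]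
      rw [Finset.sum_congr rfl h1, Finset.sum_congr rfl h2] at this
      exact this
    have p4 : ∑ i, constantCoeff (r i) * eval e0 (homogeneousComponent (2 * k) (H i)) = ε := by
      have := congrArg (fun p => eval e0 (homogeneousComponent (2 * k) p)) e3
      rw [map_sum, map_sum, map_add, map_sum, homogeneousComponent_C_mul,
        comp_hom (2 * k) (2 * k) _ hLLh, if_pos rfl] at this
      have h1 : ∀ i ∈ (Finset.univ : Finset (Fin N)),
          eval e0 (homogeneousComponent (2 * k) (r i * H i)) =
          constantCoeff (r i) * eval e0 (homogeneousComponent (2 * k) (H i)) := by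
        intro i _
        rw [comp_mul (2 * k) _ _ (hlowH i), map_mul, eval_C]
      have h2 : ∀ i ∈ (Finset.univ : Finset (Fin (d + 1))),
          homogeneousComponent (2 * k) (C (δ i) * hh i) = 0 := by
        intro i _
        rw [homogeneousComponent_C_mul, comp_hom (2 * k) _ _ (hhh i), if_neg (by omega), mul_zero]
      rw [Finset.sum_congr rfl h1, Finset.sum_congr rfl h2, Finset.sum_const_zero, zero_add,
        map_mul, eval_C, hevalLL, mul_one] at this
      exact this
    simp only [w, T, LinearMap.prodMap_apply, LinearMap.id_apply]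
    refine Prod.ext ?_ (Prod.ext ?_ (Prod.ext ?_ ?_))
    · simp only [Prod.fst_sum, Prod.smul_mk, smul_eq_mul]
      exact p1
    · funext l
      simp only [Prod.fst_sum, Prod.snd_sum, Prod.smul_mk, Finset.sum_apply, Pi.smul_apply,
        smul_eq_mul]
      exact p2 l
    · simp only [Prod.fst_sum, Prod.snd_sum, Prod.smul_mk]
      rw [Fintype.linearCombination_apply]
      exact p3
    · simp only [Prod.snd_sum, Prod.smul_mk, smul_eq_mul]
      exact p4
  let T' : (K × (Fin j → K) × (Fin (d + 1) → K) × K) →ₗ[K] Submodule.span K (Set.range w) :=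
    T.codRestrict _ hTr
  have hT'inj : Function.Injective T' := by
    intro a b hab
    apply hTinj
    exact congrArg Subtype.val hab
  have hfin : FiniteDimensional K (Submodule.span K (Set.range w)) :=
    FiniteDimensional.span_of_finite K (Set.finite_range w)
  have h1 := LinearMap.finrank_le_finrank_of_injective hT'inj
  have h2 : Module.finrank K (Submodule.span K (Set.range w)) ≤ Fintype.card (Fin N) :=
    finrank_range_le_card w
  rw [Module.finrank_prod, Module.finrank_prod, Module.finrank_prod, Module.finrank_fin_fun,
    Module.finrank_fin_fun, Module.finrank_self] at h1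
  rw [Fintype.card_fin] at h2
  omega

end Pool.Agent.H505.PG.GEN
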