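import Pool.Agent.H505.PG.Stm

/-!
# PG, leaf STR (by helper44): the structure of the logarithmic derivations
-/

set_option autoImplicit false

namespace Pool.Agent.H505.PG.STR

open MvPolynomial

variable {K : Type} [Field K] {k j : ℕ}

/-! ### indices -/

lemma h10 : (1 : Fin (j + 3)) ≠ 0 := by
  rw [Ne, Fin.ext_iff]; simp

lemma h20 : (2 : Fin (j + 3)) ≠ 0 := by
  rw [Ne, Fin.ext_iff, Fin.val_two]; simp

lemma h21 : (2 : Fin (j + 3)) ≠ 1 := by
  rw [Ne, Fin.ext_iff, Fin.val_two]; simp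

lemma s0 (i : Fin j) : (i.succ.succ.succ : Fin (j + 3)) ≠ 0 := Fin.succ_ne_zero _

lemma s1 (i : Fin j) : (i.succ.succ.succ : Fin (j + 3)) ≠ 1 := by
  rw [Ne, Fin.ext_iff]; simp

lemma s2 (i : Fin j) : (i.succ.succ.succ : Fin (j + 3)) ≠ 2 := by
  rw [Ne, Fin.ext_iff, Fin.val_two]; simp

/-- every index is `0`, `1`, `2` or `i + 3` -/
lemma idx (P : Fin (j + 3) → Prop) (h0 : P 0) (h1 : P 1) (h2 : P 2)
    (h3 : ∀ i : Fin j, P i.succ.succ.succ) (i : Fin (j + 3)) : P i := by
  induction i using Fin.cases with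
  | zero => exact h0
  | succ i =>
    induction i using Fin.cases with
    | zero => exact h1
    | succ i =>
      induction i using Fin.cases with
      | zero => exact h2
      | succ i => exact h3 i

lemma sum3 {M : Type} [AddCommMonoid M] (f : Fin (j + 3) → M) :
    ∑ i, f i = f 0 + (f 1 + (f 2 + ∑ i : Fin j, f i.succ.succ.succ)) := by
  rw [Fin.sum_univ_succ, Fin.sum_univ_succ, Fin.sum_univ_succ]
  rfl

/-! ### linear forms -/

lemma irr_lin {σ : Type} {p : MvPolynomial σ K} (h1 : p.IsHomogeneous 1) (h0 : p ≠ 0) :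
    Irreducible p := by
  refine irreducible_of_totalDegree_eq_one (h1.totalDegree h0) fun x hx => ?_
  rw [isUnit_iff_ne_zero]
  rintro rfl
  apply h0
  ext m
  rw [coeff_zero]
  exact zero_dvd_iff.1 (hx m)

lemma hom_dvd (d : MvPolynomial (Fin (j + 3)) K)
    (f g : MvPolynomial (Fin (j + 3)) K →ₐ[K] MvPolynomial (Fin (j + 3)) K)
    (h : ∀ i, d ∣ f (X i) - g (X i)) (p : MvPolynomial (Fin (j + 3)) K) : d ∣ f p - g p := by
  have h1 : (Ideal.Quotient.mkₐ K (Ideal.span {d})).comp f =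
      (Ideal.Quotient.mkₐ K (Ideal.span {d})).comp g := by
    apply MvPolynomial.algHom_ext
    intro i
    rw [AlgHom.comp_apply, AlgHom.comp_apply, Ideal.Quotient.mkₐ_eq_mk, Ideal.Quotient.eq,
      Ideal.mem_span_singleton]
    exact h i
  have h2 := DFunLike.congr_fun h1 p
  rw [AlgHom.comp_apply, AlgHom.comp_apply, Ideal.Quotient.mkₐ_eq_mk, Ideal.Quotient.eq,
    Ideal.mem_span_singleton] at h2
  exact h2

variable {y z : Fin k → K} {β : Ix k → K}

lemma ev_X0 (u : Ix k) : ev j y z β u (X 0) = C (pa y z β u) * X 1 + C (β u) * X 2 := by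
  rw [ev, aeval_X, if_pos rfl]

lemma ev_X (u : Ix k) {i : Fin (j + 3)} (hi : i ≠ 0) : ev j y z β u (X i) = X i := by
  rw [ev, aeval_X, if_neg hi]

lemma ev_C (u : Ix k) (a : K) : ev j y z β u (C a) = C a := by
  rw [ev, aeval_C]
  rfl

lemma ev_Mf (u v w : Ix k) : ev j y z β w (Mf j y z β u v) = Mf j y z β u v := by
  rw [Mf, map_add, map_mul, map_mul, ev_C, ev_C, ev_X w h10, ev_X w h20]

lemma ev_Qp (w : Ix k) : ev j y z β w (Qp j y z β) = Qp j y z β := by
  rw [Qp, map_prod]
  exact Finset.prod_congr rfl fun e _ => ev_Mf _ _ _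

lemma ev_Lf (u v : Ix k) : ev j y z β v (Lf j y z β u) = Mf j y z β v u := by
  rw [Lf, Mf, map_sub, map_sub, map_mul, map_mul, ev_C, ev_C, ev_X0, ev_X v h10, ev_X v h20,
    C_sub, C_sub]
  ring

lemma ev_Lf_self (u : Ix k) : ev j y z β u (Lf j y z β u) = 0 := by
  rw [ev_Lf, Mf, sub_self, sub_self, C_0]
  ring

/-- restriction to `L_u` -/
lemma Lf_dvd_sub (u : Ix k) (p : MvPolynomial (Fin (j + 3)) K) :
    Lf j y z β u ∣ p - ev j y z β u p := by
  refine hom_dvd _ (AlgHom.id K _) _ (fun i => ?_) p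
  rw [AlgHom.id_apply]
  rcases eq_or_ne i 0 with rfl | hi
  · rw [ev_X0, Lf]
    exact dvd_of_eq (by ring)
  · rw [ev_X u hi, sub_self]
    exact dvd_zero _

lemma Lf_dvd {u : Ix k} {p : MvPolynomial (Fin (j + 3)) K} (h : ev j y z β u p = 0) :
    Lf j y z β u ∣ p := by
  have h1 := Lf_dvd_sub (j := j) (y := y) (z := z) (β := β) u p
  rwa [h, sub_zero] at h1

lemma rho_X0 (i : Fin k) : rho j y z i (X 0) = C (z i) * X 1 := by
  rw [rho, aeval_X, if_pos rfl]

lemma rho_X2 (i : Fin k) : rho j y z i (X 2) = C (y i) * X 1 := by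
  rw [rho, aeval_X, if_neg h20, if_pos rfl]

lemma rho_X (i : Fin k) {l : Fin (j + 3)} (h0 : l ≠ 0) (h2 : l ≠ 2) :
    rho j y z i (X l) = X l := by
  rw [rho, aeval_X, if_neg h0, if_neg h2]

lemma rho_C (i : Fin k) (a : K) : rho j y z i (C a) = C a := by
  rw [rho, aeval_C]
  rfl

lemma rho_Mf (i : Fin k) (u v : Ix k) : rho j y z i (Mf j y z β u v) =
    C ((pa y z β u - pa y z β v) + (β u - β v) * y i) * X 1 := by
  rw [Mf, map_add, map_mul, map_mul, rho_C, rho_C, rho_X2, rho_X i h10 h21.symm, C_add, C_mul]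
  ring

lemma pa_mul (u : Ix k) : pa y z β u + β u * y u.1 = z u.1 := by
  rw [pa]
  ring

lemma rho_ev (u : Ix k) (p : MvPolynomial (Fin (j + 3)) K) :
    rho j y z u.1 (ev j y z β u p) = rho j y z u.1 p := by
  have h1 : (rho j y z u.1).comp (ev j y z β u) = rho j y z u.1 := by
    apply MvPolynomial.algHom_ext
    intro i
    rw [AlgHom.comp_apply]
    rcases eq_or_ne i 0 with rfl | hi
    · rw [ev_X0, map_add, map_mul, map_mul, rho_C, rho_C, rho_X2, rho_X u.1 h10 h21.symm, rho_X0,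
        ← pa_mul (y := y) (z := z) (β := β) u, C_add, C_mul]
      ring
    · rw [ev_X u hi]
  exact DFunLike.congr_fun h1 p

/-! ### consequences of `Good` -/

lemma pair_ne (hk : 2 ≤ k) (u v : Ix k) : ∃ i : Fin k, s(((i, false) : Ix k), (i, true)) ≠ s(u, v) := by
  by_contra hcon
  push Not at hcon
  have h0 := hcon ⟨0, by omega⟩
  have h1 := hcon ⟨1, by omega⟩
  rw [← h1, Sym2.eq_iff] at h0
  rcases h0 with ⟨h, -⟩ | ⟨h, -⟩ <;> simp [Prod.ext_iff, Fin.ext_iff] at h

lemma good_ne (hk : 2 ≤ k) (h : Good y z β) {u v : Ix k} (huv : u ≠ v) :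
    pa y z β u - pa y z β v ≠ 0 ∨ β u - β v ≠ 0 := by
  by_contra hcon
  push Not at hcon
  obtain ⟨i, hi⟩ := pair_ne hk u v
  have h1 := h.slopes u v (i, false) (i, true) huv (by simp) hi.symm
  rw [hcon.1, hcon.2, zero_mul, zero_mul] at h1
  exact h1 rfl

lemma Mf_hom (u v : Ix k) : (Mf j y z β u v).IsHomogeneous 1 :=
  ((isHomogeneous_C_mul_X _ _).add (isHomogeneous_C_mul_X _ _))

lemma Mf_ne (hk : 2 ≤ k) (h : Good y z β) {u v : Ix k} (huv : u ≠ v) : Mf j y z β u v ≠ 0 := by
  intro h0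
  have h1 : ∀ s t : K, (pa y z β u - pa y z β v) * s + (β u - β v) * t = 0 := by
    intro s t
    have h2 := congrArg (eval fun i : Fin (j + 3) => if i = 1 then s else if i = 2 then t else 0) h0
    simpa [Mf, h21] using h2
  rcases good_ne hk h huv with h2 | h2
  · exact h2 (by simpa using h1 1 0)
  · exact h2 (by simpa using h1 0 1)

lemma Mf_irr (hk : 2 ≤ k) (h : Good y z β) {u v : Ix k} (huv : u ≠ v) :
    Irreducible (Mf j y z β u v) := irr_lin (Mf_hom u v) (Mf_ne hk h huv)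

lemma Mf_not_dvd (h : Good y z β) {u v u' v' : Ix k} (huv : u ≠ v) (huv' : u' ≠ v')
    (hne : s(u, v) ≠ s(u', v')) : ¬ Mf j y z β u v ∣ Mf j y z β u' v' := by
  rintro ⟨c, hc⟩
  have h1 := congrArg (eval fun i : Fin (j + 3) => if i = 1 then β u - β v else
    if i = 2 then -(pa y z β u - pa y z β v) else 0) hc
  simp only [Mf, map_mul, map_add, eval_C, eval_X, if_true, if_neg h21] at h1
  have h2 := h.slopes u v u' v' huv huv' hne
  apply h2
  linear_combination (-1 : K) * h1

lemma Mf_rel (hk : 2 ≤ k) (h : Good y z β) {u v u' v' : Ix k} (huv : u ≠ v) (huv' : u' ≠ v')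
    (hne : s(u, v) ≠ s(u', v')) : IsRelPrime (Mf j y z β u v) (Mf j y z β u' v') :=
  ((Mf_irr hk h huv).isRelPrime_iff_not_dvd).2 (Mf_not_dvd h huv huv' hne)

/-- the base pair -/
lemma base_pair (hk : 2 ≤ k) (h : Good y z β) : ∃ e₀ : Pr k, β e₀.1.1 = β e₀.1.2 ∧
    pa y z β e₀.1.1 ≠ pa y z β e₀.1.2 ∧
    ∀ u v : Ix k, u ≠ v → s(u, v) ≠ s(e₀.1.1, e₀.1.2) → β u ≠ β v := by
  have main : ∀ u₀ v₀ : Ix k, u₀.1 < v₀.1 → β u₀ = β v₀ → ∃ e₀ : Pr k, β e₀.1.1 = β e₀.1.2 ∧
      pa y z β e₀.1.1 ≠ pa y z β e₀.1.2 ∧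
      ∀ u v : Ix k, u ≠ v → s(u, v) ≠ s(e₀.1.1, e₀.1.2) → β u ≠ β v := by
    intro u₀ v₀ hlt hβ
    have hne : u₀ ≠ v₀ := fun e => by rw [e] at hlt; exact lt_irrefl _ hlt
    have h1 : ∀ u v : Ix k, u ≠ v → s(u, v) ≠ s(u₀, v₀) →
        (pa y z β u₀ - pa y z β v₀) * (β u - β v) ≠ 0 := by
      intro u v huv hs
      have h2 := h.slopes u₀ v₀ u v hne huv hs.symm
      rwa [hβ, sub_self, zero_mul] at h2
    refine ⟨⟨(u₀, v₀), hlt⟩, hβ, ?_, fun u v huv hs => ?_⟩
    · obtain ⟨i, hi⟩ := pair_ne hk u₀ v₀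
      exact sub_ne_zero.1 (left_ne_zero_of_mul (h1 _ _ (by simp) hi))
    · exact sub_ne_zero.1 (right_ne_zero_of_mul (h1 u v huv hs))
  obtain ⟨u, v, huv, hβ⟩ := h.base
  rcases lt_or_gt_of_ne huv with h1 | h1
  · exact main u v h1 hβ
  · exact main v u h1 hβ.symm

lemma good_off (h : Good y z β) {u v : Ix k} (huv : u.1 ≠ v.1) (i : Fin k) :
    (pa y z β u - pa y z β v) + (β u - β v) * y i ≠ 0 := by
  have hne : s(((i, false) : Ix k), (i, true)) ≠ s(u, v) := by
    intro e
    rw [Sym2.eq_iff] at e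
    rcases e with ⟨e1, e2⟩ | ⟨e1, e2⟩
    · exact huv (by rw [← e1, ← e2])
    · exact huv (by rw [← e1, ← e2])
  have h1 := h.slopes (i, false) (i, true) u v (by simp) (fun e => huv (by rw [e])) hne
  intro h2
  apply h1
  simp only [pa] at h2 ⊢
  linear_combination (-(β (i, false) - β (i, true))) * h2

lemma rho_Qp_ne (h : Good y z β) (i : Fin k) : rho j y z i (Qp j y z β) ≠ 0 := by
  rw [Qp, map_prod, Finset.prod_ne_zero_iff]
  intro e _
  rw [rho_Mf]
  refine mul_ne_zero ?_ (X_ne_zero _)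
  rw [Ne, C_eq_zero]
  exact good_off h (ne_of_lt e.2) i

/-! ### the linear forms of the vectors -/

lemma lf_inl (u : Ix k) : linearForm (vec j y z β (.inl u)) = Lf j y z β u := by
  rw [linearForm, sum3, Lf]
  simp only [vec, if_true, if_neg h10, if_neg h20, if_neg h21, if_neg (s0 _), if_neg (s1 _),
    if_neg (s2 _), C_0, zero_mul, Finset.sum_const_zero, C_1, one_mul, C_neg]
  ring

lemma lf_inm (e : Pr k) :
    linearForm (vec j y z β (.inr (.inl e))) = Mf j y z β e.1.1 e.1.2 := by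
  rw [linearForm, sum3, Mf]
  simp only [vec, if_true, if_neg h10.symm, if_neg h20.symm, if_neg h21, if_neg (s1 _),
    if_neg (s2 _), C_0, zero_mul, Finset.sum_const_zero]
  ring

lemma lf_inr (i : Fin j) :
    linearForm (vec j y z β (.inr (.inr i))) = X i.succ.succ.succ := by
  rw [linearForm, Finset.sum_eq_single i.succ.succ.succ]
  · simp [vec]
  · intro b _ hb
    simp [vec, hb]
  · simp

lemma der_C_mul (θ : Derivation K (MvPolynomial (Fin (j + 3)) K) (MvPolynomial (Fin (j + 3)) K))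
    (a : K) (p : MvPolynomial (Fin (j + 3)) K) : θ (C a * p) = C a * θ p := by
  rw [C_mul', θ.map_smul, C_mul']

lemma der_Lf (θ : Derivation K (MvPolynomial (Fin (j + 3)) K) (MvPolynomial (Fin (j + 3)) K))
    (u : Ix k) : θ (Lf j y z β u) =
      θ (X 0) - C (pa y z β u) * θ (X 1) - C (β u) * θ (X 2) := by
  rw [Lf, map_sub, map_sub, der_C_mul, der_C_mul]

lemma der_Mf (θ : Derivation K (MvPolynomial (Fin (j + 3)) K) (MvPolynomial (Fin (j + 3)) K))
    (u v : Ix k) : θ (Mf j y z β u v) =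
      C (pa y z β u - pa y z β v) * θ (X 1) + C (β u - β v) * θ (X 2) := by
  rw [Mf, map_add, der_C_mul, der_C_mul]

section mk
variable (a G h : MvPolynomial (Fin (j + 3)) K) (c : Fin j → MvPolynomial (Fin (j + 3)) K)

lemma mk_X0 : mk j y z β a G h c (X 0) = a * X 0 + h := by
  rw [mk, mkDerivation_X]
  rfl

lemma mk_X1 : mk j y z β a G h c (X 1) = a * X 1 := by
  rw [mk, mkDerivation_X]
  rfl

lemma mk_X2 : mk j y z β a G h c (X 2) = a * X 2 + G * Qp j y z β := by
  rw [mk, mkDerivation_X]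
  rfl

lemma mk_X3 (i : Fin j) : mk j y z β a G h c (X i.succ.succ.succ) =
    c i * X i.succ.succ.succ := by
  rw [mk, mkDerivation_X]
  rfl

end mk

theorem main : S_STR := by
  classical
  intro K _ k j hk y z β hG
  obtain ⟨e₀, hβ₀, ha₀, hβne⟩ := base_pair hk hG
  have hmatch : ∀ i : Fin k, β (i, false) ≠ β (i, true) := by
    intro i
    refine hβne _ _ (by simp) fun e => ?_
    rw [Sym2.eq_iff] at e
    have hlt := e₀.2
    rcases e with ⟨e1, e2⟩ | ⟨e1, e2⟩
    · rw [← e1, ← e2] at hlt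
      exact lt_irrefl _ hlt
    · rw [← e1, ← e2] at hlt
      exact lt_irrefl _ hlt
  constructor
  · intro θ hθ
    have hL : ∀ u, Lf j y z β u ∣ θ (Lf j y z β u) := by
      intro u
      have := hθ (.inl u)
      rwa [lf_inl] at this
    have hM : ∀ e : Pr k, Mf j y z β e.1.1 e.1.2 ∣ θ (Mf j y z β e.1.1 e.1.2) := by
      intro e
      have := hθ (.inr (.inl e))
      rwa [lf_inm] at this
    have hW : ∀ i : Fin j, (X i.succ.succ.succ : MvPolynomial (Fin (j + 3)) K) ∣
        θ (X i.succ.succ.succ) := by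
      intro i
      have := hθ (.inr (.inr i))
      rwa [lf_inr] at this
    choose c hc using hW
    have hC : ∀ r : K, r ≠ 0 → IsUnit (C r : MvPolynomial (Fin (j + 3)) K) := fun r hr =>
      (IsUnit.mk0 r hr).map C
    -- `θ x = a x`
    have hx : (X 1 : MvPolynomial (Fin (j + 3)) K) ∣ θ (X 1) := by
      have h1 := hM e₀
      rw [der_Mf, Mf, hβ₀, sub_self, C_0, zero_mul, zero_mul, add_zero, add_zero] at h1
      have hu := hC _ (sub_ne_zero.2 ha₀)
      exact (hu.dvd_mul_left).1 ((hu.mul_left_dvd).1 h1)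
    obtain ⟨a, ha⟩ := hx
    set t : MvPolynomial (Fin (j + 3)) K := θ (X 2) - a * X 2 with ht
    set h : MvPolynomial (Fin (j + 3)) K := θ (X 0) - a * X 0 with hh
    -- `Q ∣ t`
    have hQ : Qp j y z β ∣ t := by
      rw [Qp]
      refine Finset.prod_dvd_of_isRelPrime ?_ ?_
      · intro e _ e' _ hee'
        refine Mf_rel hk hG (fun h1 => ?_) (fun h1 => ?_) fun h1 => ?_
        · have := e.2
          rw [h1] at this
          exact lt_irrefl _ this
        · have := e'.2
          rw [h1] at this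
          exact lt_irrefl _ this
        · rw [Sym2.eq_iff] at h1
          rcases h1 with ⟨h1, h2⟩ | ⟨h1, h2⟩
          · exact hee' (Subtype.ext (Prod.ext h1 h2))
          · have h3 := e.2
            have h4 := e'.2
            rw [h1, h2] at h3
            exact lt_asymm h3 h4
      · intro e he
        rw [Finset.mem_filter] at he
        have h1 := hM e
        rw [der_Mf] at h1
        have h2 : C (pa y z β e.1.1 - pa y z β e.1.2) * θ (X 1) +
            C (β e.1.1 - β e.1.2) * θ (X 2) =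
            Mf j y z β e.1.1 e.1.2 * a + C (β e.1.1 - β e.1.2) * t := by
          rw [ht, ha, Mf]
          ring
        rw [h2] at h1
        exact ((hC _ (sub_ne_zero.2 he.2)).dvd_mul_left).1
          ((dvd_add_right (Dvd.intro a rfl)).1 h1)
    obtain ⟨G, hGt⟩ := hQ
    -- the values of `h`
    have hev : ∀ u, ev j y z β u h = C (β u) * Qp j y z β * ev j y z β u G := by
      intro u
      have h1 := hL u
      rw [der_Lf] at h1
      have h2 : θ (X 0) - C (pa y z β u) * θ (X 1) - C (β u) * θ (X 2) =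
          Lf j y z β u * a + (h - C (β u) * t) := by
        rw [ht, hh, ha, Lf]
        ring
      rw [h2] at h1
      obtain ⟨q, hq⟩ := (dvd_add_right (Dvd.intro a rfl)).1 h1
      have h3 := congrArg (ev j y z β u) hq
      rw [map_mul, ev_Lf_self, zero_mul, map_sub, map_mul, ev_C, hGt, map_mul, ev_Qp,
        sub_eq_zero] at h3
      rw [h3]
      ring
    refine ⟨a, G, h, c, ?_, ?_, hev⟩
    · refine MvPolynomial.derivation_ext fun i => ?_
      refine idx (fun i => θ (X i) = mk j y z β a G h c (X i)) ?_ ?_ ?_ (fun i => ?_) i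
      · rw [mk_X0, hh]
        ring
      · rw [mk_X1, ha]
        ring
      · rw [mk_X2, mul_comm G, ← hGt, ht]
        ring
      · rw [mk_X3, hc]
        ring
    · rw [IZ, Ideal.mem_iInf]
      intro i
      rw [RingHom.mem_ker]
      have h1 := congrArg (rho j y z i) (hev (i, false))
      have h2 := congrArg (rho j y z i) (hev (i, true))
      rw [map_mul, map_mul, rho_C, rho_ev ((i, false) : Ix k), rho_ev ((i, false) : Ix k)] at h1
      rw [map_mul, map_mul, rho_C, rho_ev ((i, true) : Ix k), rho_ev ((i, true) : Ix k), h1] at h2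
      have h3 : C (β (i, false) - β (i, true)) * (rho j y z i (Qp j y z β) * rho j y z i G) = 0 := by
        rw [C_sub]
        linear_combination h2
      rcases mul_eq_zero.1 h3 with h4 | h4
      · rw [C_eq_zero] at h4
        exact absurd (sub_eq_zero.1 h4) (hmatch i)
      · exact (mul_eq_zero.1 h4).resolve_left (rho_Qp_ne hG i)
  · intro a G h c hev i
    rcases i with u | e | i
    · rw [lf_inl, der_Lf, mk_X0, mk_X1, mk_X2]
      have h1 : Lf j y z β u ∣ h - C (β u) * (G * Qp j y z β) := by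
        apply Lf_dvd
        rw [map_sub, map_mul, map_mul, ev_C, ev_Qp, hev]
        ring
      have h2 : a * X 0 + h - C (pa y z β u) * (a * X 1) -
          C (β u) * (a * X 2 + G * Qp j y z β) =
          Lf j y z β u * a + (h - C (β u) * (G * Qp j y z β)) := by
        rw [Lf]
        ring
      rw [h2]
      exact dvd_add (Dvd.intro a rfl) h1
    · rw [lf_inm, der_Mf, mk_X1, mk_X2]
      have h2 : C (pa y z β e.1.1 - pa y z β e.1.2) * (a * X 1) +
          C (β e.1.1 - β e.1.2) * (a * X 2 + G * Qp j y z β) =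
          Mf j y z β e.1.1 e.1.2 * a + C (β e.1.1 - β e.1.2) * (G * Qp j y z β) := by
        rw [Mf]
        ring
      rw [h2]
      refine dvd_add (Dvd.intro a rfl) ?_
      by_cases hb : β e.1.1 = β e.1.2
      · rw [hb, sub_self, C_0, zero_mul]
        exact dvd_zero _
      · refine Dvd.dvd.mul_left (Dvd.dvd.mul_left ?_ _) _
        rw [Qp]
        exact Finset.dvd_prod_of_mem _ (Finset.mem_filter.2 ⟨Finset.mem_univ _, hb⟩)
    · rw [lf_inr, mk_X3]
      exact Dvd.intro_left _ rfl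

end Pool.Agent.H505.PG.STR
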