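import Pool.Agent.H505.PG.Stm
import Pool.Agent.H505.PG.STR

/-!
# PG, leaf INP (by helper44): interpolation
-/

set_option autoImplicit false

namespace Pool.Agent.H505.PG.INP

open MvPolynomial
open Pool.Agent.H505.PG.STR

variable {K : Type} [Field K] {k j : ℕ} {y z : Fin k → K} {β : Ix k → K}

/-! ### the number of the unmatched pairs -/

lemma card_Pr (k : ℕ) : Fintype.card (Pr k) = 2 * k ^ 2 - 2 * k := by
  classical
  have h1 : Fintype.card (Pr k) =
      ((Finset.univ : Finset (Ix k × Ix k)).filter fun e => e.1.1 < e.2.1).card :=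
    Fintype.card_subtype _
  have h2 : ((Finset.univ : Finset (Ix k × Ix k)).filter fun e => e.1.1 < e.2.1).card =
      ((Finset.univ : Finset (Ix k × Ix k)).filter fun e => e.2.1 < e.1.1).card := by
    refine Finset.card_bij (fun e _ => e.swap) ?_ ?_ ?_
    · intro e he
      simpa using he
    · intro e _ e' _ h
      exact Prod.swap_injective h
    · intro e he
      exact ⟨e.swap, by simpa using he, Prod.swap_swap e⟩
  have h3 : ((Finset.univ : Finset (Ix k × Ix k)).filter fun e => e.1.1 = e.2.1).card = 4 * k := by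
    have h4 : ((Finset.univ : Finset (Ix k × Ix k)).filter fun e => e.1.1 = e.2.1) =
        (Finset.univ : Finset (Fin k × (Bool × Bool))).image
          fun p => (((p.1, p.2.1), (p.1, p.2.2)) : Ix k × Ix k) := by
      ext e
      simp only [Finset.mem_filter, Finset.mem_univ, true_and, Finset.mem_image]
      constructor
      · intro h
        exact ⟨(e.1.1, (e.1.2, e.2.2)), by simp [Prod.ext_iff, h]⟩
      · rintro ⟨p, rfl⟩
        rfl
    rw [h4, Finset.card_image_of_injective, Finset.card_univ, Fintype.card_prod,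
      Fintype.card_prod, Fintype.card_fin, Fintype.card_bool]
    · ring
    · intro p q h
      simp only [Prod.mk.injEq] at h
      exact Prod.ext h.1.1 (Prod.ext h.1.2 h.2.2)
  have h5 : (Finset.univ : Finset (Ix k × Ix k)).card = 4 * k ^ 2 := by
    rw [Finset.card_univ, Fintype.card_prod, Fintype.card_prod, Fintype.card_fin,
      Fintype.card_bool]
    ring
  have h6 := Finset.card_filter_add_card_filter_not (s := (Finset.univ : Finset (Ix k × Ix k)))
    (fun e => e.1.1 < e.2.1)
  have h7 : ((Finset.univ : Finset (Ix k × Ix k)).filter fun e => ¬ e.1.1 < e.2.1) =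
      ((Finset.univ : Finset (Ix k × Ix k)).filter fun e => e.2.1 < e.1.1) ∪
      ((Finset.univ : Finset (Ix k × Ix k)).filter fun e => e.1.1 = e.2.1) := by
    ext e
    simp only [Finset.mem_filter, Finset.mem_univ, true_and, Finset.mem_union, not_lt,
      le_iff_lt_or_eq, eq_comm]
  rw [h7, Finset.card_union_of_disjoint, ← h2, h3, h5] at h6
  · rw [h1]
    omega
  · rw [Finset.disjoint_left]
    intro e he he'
    simp only [Finset.mem_filter, Finset.mem_univ, true_and] at he he'
    rw [he'] at he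
    exact lt_irrefl _ he

lemma pr_ne {k : ℕ} (e : Pr k) : e.1.1 ≠ e.1.2 := fun h => by
  have := e.2
  rw [h] at this
  exact lt_irrefl _ this

lemma pr_eq {k : ℕ} {e e' : Pr k} (h : s(e.1.1, e.1.2) = s(e'.1.1, e'.1.2)) : e = e' := by
  rw [Sym2.eq_iff] at h
  rcases h with ⟨h1, h2⟩ | ⟨h1, h2⟩
  · exact Subtype.ext (Prod.ext h1 h2)
  · have h3 := e.2
    have h4 := e'.2
    rw [h1, h2] at h3
    exact absurd h4 (lt_asymm h3)

lemma filter_eq (hk : 2 ≤ k) (h : Good y z β) : ∃ e₀ : Pr k,
    (open Classical in (Finset.univ : Finset (Pr k)).filter (fun e => β e.1.1 ≠ β e.1.2)) =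
      (open Classical in (Finset.univ : Finset (Pr k)).erase e₀) := by
  classical
  obtain ⟨e₀, hβ, -, hne⟩ := base_pair hk h
  refine ⟨e₀, ?_⟩
  ext e
  rw [Finset.mem_filter, Finset.mem_erase]
  constructor
  · rintro ⟨-, h1⟩
    refine ⟨?_, Finset.mem_univ _⟩
    rintro rfl
    exact h1 hβ
  · rintro ⟨h1, -⟩
    exact ⟨Finset.mem_univ _, hne _ _ (pr_ne e) fun h2 => h1 (pr_eq h2)⟩

lemma Qp_hom (hk : 2 ≤ k) (h : Good y z β) :
    (Qp j y z β).IsHomogeneous (2 * k ^ 2 - 2 * k - 1) := by
  classical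
  obtain ⟨e₀, he₀⟩ := filter_eq hk h
  have h1 : ((Finset.univ : Finset (Pr k)).filter (fun e => β e.1.1 ≠ β e.1.2)).card =
      2 * k ^ 2 - 2 * k - 1 := by
    have h2 := congrArg Finset.card he₀
    rw [Finset.card_erase_of_mem (Finset.mem_univ _), Finset.card_univ, card_Pr] at h2
    convert h2
  have h3 := IsHomogeneous.prod ((Finset.univ : Finset (Pr k)).filter
    (fun e => β e.1.1 ≠ β e.1.2)) (fun e => Mf j y z β e.1.1 e.1.2) (fun _ => 1)
    (fun e _ => Mf_hom _ _)
  rw [Finset.sum_const, smul_eq_mul, mul_one, h1] at h3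
  rw [Qp]
  convert h3

lemma Qp_ne (hk : 2 ≤ k) (h : Good y z β) : Qp j y z β ≠ 0 := by
  rw [Qp, Finset.prod_ne_zero_iff]
  intro e _
  exact Mf_ne hk h (pr_ne e)

/-! ### restrictions -/

lemma ev_ev (u : Ix k) (p : MvPolynomial (Fin (j + 3)) K) :
    ev j y z β u (ev j y z β u p) = ev j y z β u p := by
  have h1 : (ev j y z β u).comp (ev j y z β u) = ev j y z β u := by
    apply MvPolynomial.algHom_ext
    intro i
    rw [AlgHom.comp_apply]
    rcases eq_or_ne i 0 with rfl | hi
    · rw [ev_X0, map_add, map_mul, map_mul, ev_C, ev_C, ev_X u h10, ev_X u h20]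
    · rw [ev_X u hi, ev_X u hi]
  exact DFunLike.congr_fun h1 p

lemma ev_sub (u v : Ix k) (p : MvPolynomial (Fin (j + 3)) K) :
    Mf j y z β v u ∣ ev j y z β v p - ev j y z β u p := by
  refine hom_dvd _ _ _ (fun i => ?_) p
  rcases eq_or_ne i 0 with rfl | hi
  · rw [ev_X0, ev_X0, Mf, C_sub, C_sub]
    exact dvd_of_eq (by ring)
  · rw [ev_X u hi, ev_X v hi, sub_self]
    exact dvd_zero _

lemma ev_rho (u : Ix k) (p : MvPolynomial (Fin (j + 3)) K) :
    (X 2 - C (y u.1) * X 1) ∣ ev j y z β u p - rho j y z u.1 p := by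
  refine hom_dvd _ _ _ (fun i => ?_) p
  rcases eq_or_ne i 0 with rfl | hi
  · rw [ev_X0, rho_X0, ← pa_mul (y := y) (z := z) (β := β) u, C_add, C_mul]
    exact ⟨C (β u), by ring⟩
  · rw [ev_X u hi]
    rcases eq_or_ne i 2 with rfl | hi2
    · rw [rho_X2]
    · rw [rho_X u.1 hi hi2, sub_self]
      exact dvd_zero _

lemma Mf_matched {u v : Ix k} (h : u.1 = v.1) :
    Mf j y z β v u = C (β v - β u) * (X 2 - C (y u.1) * X 1) := by
  rw [Mf, pa, pa, ← h]
  simp only [C_sub, C_mul]
  ring

/-! ### interpolation -/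

lemma interp (hk : 2 ≤ k) (hG : Good y z β) (t : Ix k → MvPolynomial (Fin (j + 3)) K)
    (ht : ∀ u, ev j y z β u (t u) = t u)
    (hd : ∀ u v : Ix k, u ≠ v → Mf j y z β v u ∣ t v - t u) (s : Finset (Ix k)) :
    ∃ h : MvPolynomial (Fin (j + 3)) K, ∀ u ∈ s, ev j y z β u h = t u := by
  classical
  induction s using Finset.induction_on with
  | empty => exact ⟨0, by simp⟩
  | insert v s hv ih =>
    obtain ⟨h, hh⟩ := ih
    have hne : ∀ u ∈ s, u ≠ v := fun u hu e => hv (e ▸ hu)
    have h1 : (∏ u ∈ s, Mf j y z β v u) ∣ t v - ev j y z β v h := by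
      refine Finset.prod_dvd_of_isRelPrime ?_ ?_
      · intro u hu u' hu' huu'
        refine Mf_rel hk hG (hne u hu).symm (hne u' hu').symm fun e => ?_
        rw [Sym2.eq_iff] at e
        rcases e with ⟨-, e⟩ | ⟨e, -⟩
        · exact huu' e
        · exact hne u' hu' e.symm
      · intro u hu
        have h2 : t v - ev j y z β v h = (t v - t u) - (ev j y z β v h - ev j y z β u h) := by
          rw [hh u hu]
          ring
        rw [h2]
        exact dvd_sub (hd u v (hne u hu)) (ev_sub u v h)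
    obtain ⟨c, hc⟩ := h1
    have h3 : t v - ev j y z β v h = (∏ u ∈ s, Mf j y z β v u) * ev j y z β v c := by
      have h4 := congrArg (ev j y z β v) hc
      rw [map_sub, ht, ev_ev, map_mul, map_prod] at h4
      rw [h4]
      congr 1
      exact Finset.prod_congr rfl fun u _ => ev_Mf _ _ _
    refine ⟨h + c * ∏ u ∈ s, Lf j y z β u, fun w hw => ?_⟩
    rw [map_add, map_mul, map_prod]
    rcases Finset.mem_insert.1 hw with rfl | hw
    · have h5 : ∏ u ∈ s, ev j y z β w (Lf j y z β u) = ∏ u ∈ s, Mf j y z β w u :=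
        Finset.prod_congr rfl fun u _ => ev_Lf u w
      rw [h5, mul_comm, ← h3]
      ring
    · rw [Finset.prod_eq_zero hw (ev_Lf_self w), mul_zero, add_zero, hh w hw]

lemma ev_hom (u : Ix k) {p : MvPolynomial (Fin (j + 3)) K} {m : ℕ} (hp : p.IsHomogeneous m) :
    (ev j y z β u p).IsHomogeneous m := by
  have h1 : ∀ i : Fin (j + 3), (if i = 0 then C (pa y z β u) * X 1 + C (β u) * X 2 else X i :
      MvPolynomial (Fin (j + 3)) K).IsHomogeneous 1 := by
    intro i
    split_ifs
    · exact (isHomogeneous_C_mul_X _ _).add (isHomogeneous_C_mul_X _ _)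
    · exact isHomogeneous_X _ _
  have h2 := hp.aeval _ h1
  rwa [one_mul] at h2

lemma ev_comp (u : Ix k) (p : MvPolynomial (Fin (j + 3)) K) (m : ℕ) :
    ev j y z β u (homogeneousComponent m p) = homogeneousComponent m (ev j y z β u p) := by
  have h1 : ev j y z β u p = ∑ i ∈ Finset.range (p.totalDegree + 1),
      ev j y z β u (homogeneousComponent i p) := by
    conv_lhs => rw [← sum_homogeneousComponent p]
    rw [map_sum]
  rw [h1, map_sum]
  have h2 : ∀ i, homogeneousComponent m (ev j y z β u (homogeneousComponent i p)) =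
      if m = i then ev j y z β u (homogeneousComponent i p) else 0 := fun i =>
    homogeneousComponent_of_mem ((mem_homogeneousSubmodule _ _).2
      (ev_hom u (homogeneousComponent_isHomogeneous i p)))
  simp_rw [h2]
  rw [Finset.sum_ite_eq]
  split_ifs with h3
  · rfl
  · rw [Finset.mem_range, not_lt] at h3
    rw [homogeneousComponent_eq_zero _ _ (by omega), map_zero]

theorem main : S_INP := by
  classical
  intro K _ k j hk y z β hG
  refine ⟨Qp_hom hk hG, Qp_ne hk hG, fun e G hGI hGe => ?_⟩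
  set t : Ix k → MvPolynomial (Fin (j + 3)) K := fun u =>
    C (β u) * Qp j y z β * ev j y z β u G with ht
  have ht1 : ∀ u, ev j y z β u (t u) = t u := by
    intro u
    simp only [ht]
    rw [map_mul, map_mul, ev_C, ev_Qp, ev_ev]
  have hrho : ∀ i, rho j y z i G = 0 := by
    intro i
    have h1 := (Ideal.mem_iInf.1 hGI) i
    exact (RingHom.mem_ker).1 h1
  have hd : ∀ u v : Ix k, u ≠ v → Mf j y z β v u ∣ t v - t u := by
    intro u v huv
    have h1 : t v - t u = C (β v) * Qp j y z β * (ev j y z β v G - ev j y z β u G) +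
        C (β v - β u) * Qp j y z β * ev j y z β u G := by
      simp only [ht, C_sub]
      ring
    rw [h1]
    refine dvd_add (Dvd.dvd.mul_left (ev_sub u v G) _) ?_
    by_cases hb : β v = β u
    · rw [hb, sub_self, C_0, zero_mul, zero_mul]
      exact dvd_zero _
    · by_cases hm : u.1 = v.1
      · rw [Mf_matched hm]
        have h2 := ev_rho (β := β) (y := y) (z := z) u G
        rw [hrho, sub_zero] at h2
        obtain ⟨q, hq⟩ := h2
        rw [hq]
        exact ⟨Qp j y z β * q, by ring⟩
      · refine Dvd.dvd.mul_right (Dvd.dvd.mul_left ?_ _) _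
        rw [Qp]
        rcases lt_or_gt_of_ne hm with h3 | h3
        · have h4 : Mf j y z β v u = -Mf j y z β u v := by
            simp only [Mf, C_sub]
            ring
          rw [h4, neg_dvd]
          exact Finset.dvd_prod_of_mem (fun e : Pr k => Mf j y z β e.1.1 e.1.2)
            (a := ⟨(u, v), h3⟩) (Finset.mem_filter.2 ⟨Finset.mem_univ _, fun e => hb e.symm⟩)
        · exact Finset.dvd_prod_of_mem (fun e : Pr k => Mf j y z β e.1.1 e.1.2)
            (a := ⟨(v, u), h3⟩) (Finset.mem_filter.2 ⟨Finset.mem_univ _, hb⟩)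
  obtain ⟨h, hh⟩ := interp hk hG t ht1 hd Finset.univ
  refine ⟨homogeneousComponent (e + (2 * k ^ 2 - 2 * k - 1)) h,
    homogeneousComponent_isHomogeneous _ _, fun u => ?_⟩
  rw [ev_comp, hh u (Finset.mem_univ _)]
  have h5 : (t u).IsHomogeneous (e + (2 * k ^ 2 - 2 * k - 1)) := by
    have h6 := ((isHomogeneous_C (Fin (j + 3)) (β u)).mul (Qp_hom (j := j) hk hG)).mul
      (ev_hom (β := β) (y := y) (z := z) u hGe)
    rw [zero_add] at h6
    have h7 : 2 * k ^ 2 - 2 * k - 1 + e = e + (2 * k ^ 2 - 2 * k - 1) := Nat.add_comm _ _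
    rw [h7] at h6
    exact h6
  rw [homogeneousComponent_of_mem ((mem_homogeneousSubmodule _ _).2 h5), if_pos rfl]

end Pool.Agent.H505.PG.INP
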