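import Pool.Agent.H505.PG.Stm

/-! Leaf KER of project PG (helper505), written by helper800. -/

set_option autoImplicit false

namespace Pool.Agent.H505.PG.KER

open MvPolynomial Pool.Agent.H505.PG

variable {K : Type} [Field K]

lemma ev_Lf {k : ℕ} (j : ℕ) (y z : Fin k → K) (β : Ix k → K) (u v : Ix k) :
    ev j y z β v (Lf j y z β u) =
      C (pa y z β v - pa y z β u) * X 1 + C (β v - β u) * X 2 := by
  have h1 : ((1 : Fin (j + 3)) = 0) = False := by
    simp
  have h2 : ((2 : Fin (j + 3)) = 0) = False := by
    simp only [eq_iff_iff, iff_false]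
    intro h
    have := congrArg Fin.val h
    rw [show ((2 : Fin (j + 3)) : ℕ) = 2 from Nat.mod_eq_of_lt (show 2 < j + 3 by omega)] at this
    simp at this
  unfold ev Lf
  simp only [map_sub, map_mul, aeval_X, algHom_C, if_true, h1, h2, if_false,
    MvPolynomial.algebraMap_eq]
  ring

lemma pair_ne {k : ℕ} (hk : 2 ≤ k) (y z : Fin k → K) (β : Ix k → K) (hG : Good y z β)
    (u v : Ix k) (huv : u ≠ v) : pa y z β v - pa y z β u ≠ 0 ∨ β v - β u ≠ 0 := by
  classical
  by_contra hcon
  push Not at hcon
  obtain ⟨h1, h2⟩ := hcon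
  obtain ⟨w, hw⟩ : ∃ w : Ix k, w ∉ ({u, v} : Finset (Ix k)) := by
    by_contra hall
    push Not at hall
    have hc : Fintype.card (Ix k) ≤ ({u, v} : Finset (Ix k)).card := by
      rw [← Finset.card_univ]
      exact Finset.card_le_card (fun w _ => hall w)
    have h3 : ({u, v} : Finset (Ix k)).card ≤ 2 := Finset.card_le_two
    simp only [Fintype.card_prod, Fintype.card_fin, Fintype.card_bool] at hc
    omega
  simp only [Finset.mem_insert, Finset.mem_singleton, not_or] at hw
  have hs : s(u, v) ≠ s(u, w) := by
    intro h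
    rw [Sym2.eq_iff] at h
    rcases h with h | h
    · exact hw.2 h.2.symm
    · exact hw.1 h.1.symm
  have := hG.slopes u v u w huv (Ne.symm hw.1) hs
  apply this
  have e1 : pa y z β u - pa y z β v = 0 := by linear_combination -h1
  have e2 : β u - β v = 0 := by linear_combination -h2
  rw [e1, e2, zero_mul, zero_mul]

lemma lin_ne (j : ℕ) (a b : K) (h : a ≠ 0 ∨ b ≠ 0) :
    (C a * X 1 + C b * X 2 : MvPolynomial (Fin (j + 3)) K) ≠ 0 := by
  have h12 : ((1 : Fin (j + 3)) : Fin (j + 3)) ≠ 2 := by
    intro h
    have := congrArg Fin.val h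
    rw [show ((2 : Fin (j + 3)) : ℕ) = 2 from Nat.mod_eq_of_lt (show 2 < j + 3 by omega)] at this
    simp at this
  intro h0
  rcases h with h | h
  · apply h
    have := congrArg (eval (Pi.single (1 : Fin (j + 3)) (1 : K))) h0
    simpa [Pi.single_apply, h12.symm] using this
  · apply h
    have := congrArg (eval (Pi.single (2 : Fin (j + 3)) (1 : K))) h0
    simpa [Pi.single_apply, h12] using this

lemma dvd_of_ev {k : ℕ} (j : ℕ) (y z : Fin k → K) (β : Ix k → K) (u : Ix k)
    (g : MvPolynomial (Fin (j + 3)) K) (hg : ev j y z β u g = 0) : Lf j y z β u ∣ g := by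
  rw [← Ideal.mem_span_singleton, ← Ideal.Quotient.eq_zero_iff_mem]
  set I : Ideal (MvPolynomial (Fin (j + 3)) K) := Ideal.span {Lf j y z β u} with hI
  have key : (Ideal.Quotient.mkₐ K I).comp (ev j y z β u) = Ideal.Quotient.mkₐ K I := by
    apply MvPolynomial.algHom_ext
    intro i
    simp only [AlgHom.comp_apply, ev, aeval_X]
    by_cases hi : i = 0
    · subst hi
      rw [if_pos rfl]
      rw [← sub_eq_zero, ← map_sub]
      change Ideal.Quotient.mk I _ = 0
      rw [Ideal.Quotient.eq_zero_iff_mem, hI, Ideal.mem_span_singleton]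
      refine ⟨-1, ?_⟩
      unfold Lf
      ring
    · rw [if_neg hi]
  have h := congrArg (fun f => f g) key
  simp only [AlgHom.comp_apply, hg, map_zero] at h
  exact h.symm

theorem main : S_KER := by
  classical
  intro K _ k j hk y z β hG
  refine ⟨fun u => ?_, fun h hh => ?_⟩
  · rw [ev_Lf]; simp
  · have key : ∀ s : Finset (Ix k), (∏ u ∈ s, Lf j y z β u) ∣ h := by
      intro s
      induction s using Finset.induction_on with
      | empty => simp
      | insert v s hv ih =>
        obtain ⟨g, hg⟩ := ih
        rw [Finset.prod_insert hv]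
        have h1 := hh v
        rw [hg, map_mul, map_prod] at h1
        have h2 : ∏ u ∈ s, ev j y z β v (Lf j y z β u) ≠ 0 := by
          rw [Finset.prod_ne_zero_iff]
          intro u hu
          rw [ev_Lf]
          apply lin_ne
          apply pair_ne hk y z β hG
          rintro rfl
          exact hv hu
        have h3 : ev j y z β v g = 0 := by
          rcases mul_eq_zero.mp h1 with h | h
          · exact absurd h h2
          · exact h
        obtain ⟨c, hc⟩ := dvd_of_ev j y z β v g h3
        refine ⟨c, ?_⟩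
        rw [hg, hc]
        ring
    exact key Finset.univ

end Pool.Agent.H505.PG.KER

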