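import Pool.Agent.H505.PG.Stm

/-!
# LAT: the intersection lattice depends only on the indices
-/

set_option autoImplicit false

namespace Pool.Agent.H505.PG.LAT

open MvPolynomial Pool.Agent.H505.PG

section general

variable {K : Type} [Field K] {l : ℕ}

theorem exists_orderIso {X P Q : Type} [PartialOrder P] [PartialOrder Q] (f : X → P) (g : X → Q)
    (hf : Function.Surjective f) (hg : Function.Surjective g) (h : ∀ x y, f x ≤ f y ↔ g x ≤ g y) :
    Nonempty (P ≃o Q) := by
  have key : ∀ x y, f x = f y ↔ g x = g y := fun x y => by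
    rw [le_antisymm_iff, le_antisymm_iff, h, h]
  refine ⟨{ toFun := fun p => g (Function.surjInv hf p)
            invFun := fun q => f (Function.surjInv hg q)
            left_inv := fun p => ?_
            right_inv := fun q => ?_
            map_rel_iff' := ?_ }⟩
  · have h1 : g (Function.surjInv hg (g (Function.surjInv hf p))) = g (Function.surjInv hf p) :=
      Function.surjInv_eq hg _
    have h2 := (key _ _).2 h1
    show f (Function.surjInv hg (g (Function.surjInv hf p))) = p
    rw [h2, Function.surjInv_eq hf]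
  · have h1 : f (Function.surjInv hf (f (Function.surjInv hg q))) = f (Function.surjInv hg q) :=
      Function.surjInv_eq hf _
    have h2 := (key _ _).1 h1
    show g (Function.surjInv hf (f (Function.surjInv hg q))) = q
    rw [h2, Function.surjInv_eq hg]
  · intro a b
    show g (Function.surjInv hf a) ≤ g (Function.surjInv hf b) ↔ a ≤ b
    rw [← h, Function.surjInv_eq hf, Function.surjInv_eq hf]

/-- the functional `∑ a_j x_j`, as a linear map in `a` -/
noncomputable def fn : (Fin l → K) →ₗ[K] ((Fin l → K) →ₗ[K] K) where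
  toFun a := ∑ j, a j • LinearMap.proj j
  map_add' a b := by
    simp only [Pi.add_apply, add_smul, Finset.sum_add_distrib]
  map_smul' c a := by
    simp only [Pi.smul_apply, smul_eq_mul, mul_smul, Finset.smul_sum, RingHom.id_apply]

theorem fn_apply (a x : Fin l → K) : fn a x = ∑ j, a j * x j := by
  simp [fn, LinearMap.sum_apply]

theorem fn_injective : Function.Injective (fn : (Fin l → K) →ₗ[K] _) := by
  intro a b hab
  funext i
  have := congrArg (fun φ : (Fin l → K) →ₗ[K] K => φ (Pi.single i 1)) hab
  simpa [fn_apply, Pi.single_apply] using this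

theorem hyperplane_eq (a : Fin l → K) : hyperplane a = LinearMap.ker (fn a) := rfl

theorem inf_le_iff {ι : Type} (v : ι → Fin l → K) (s : Finset ι) (i : ι) :
    (s.inf fun c => hyperplane (v c)) ≤ hyperplane (v i) ↔
      v i ∈ Submodule.span K (v '' (s : Set ι)) := by
  constructor
  · intro h
    have h1 : (⨅ c : s, LinearMap.ker (fn (v c))) ≤ LinearMap.ker (fn (v i)) := by
      rw [← hyperplane_eq]
      refine le_trans ?_ h
      rw [Finset.inf_eq_iInf]
      refine le_iInf₂ fun c hc => ?_
      exact iInf_le_of_le (⟨c, hc⟩ : s) le_rfl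
    have h2 := mem_span_of_iInf_ker_le_ker h1
    have h3 : Set.range (fun c : s => fn (v c)) = (fn : (Fin l → K) →ₗ[K] _) '' (v '' (s : Set ι)) := by
      ext x
      simp
    rw [h3, ← Submodule.map_span] at h2
    obtain ⟨y, hy, hy'⟩ := h2
    rwa [fn_injective hy'] at hy
  · intro h x hx
    rw [hyperplane_eq, LinearMap.mem_ker]
    have h4 : Submodule.span K (v '' (s : Set ι)) ≤
        LinearMap.ker ((LinearMap.applyₗ x).comp (fn : (Fin l → K) →ₗ[K] _)) := by
      rw [Submodule.span_le]
      rintro _ ⟨c, hc, rfl⟩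
      have h5 : x ∈ hyperplane (v c) := by
        have := Finset.inf_le (f := fun c => hyperplane (v c)) hc
        exact this hx
      rw [hyperplane_eq, LinearMap.mem_ker] at h5
      simpa using h5
    have h6 := h4 h
    simpa using h6

open Classical in
/-- two families with the same closure operator have isomorphic lattices -/
theorem general {ι : Type} [Fintype ι] (v v' : ι → Fin l → K)
    (h : ∀ (s : Finset ι) (i : ι), v i ∈ Submodule.span K (v '' (s : Set ι)) ↔
      v' i ∈ Submodule.span K (v' '' (s : Set ι))) :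
    Nonempty (Lattice (Finset.univ.image fun i => hyperplane (v i)) ≃o
      Lattice (Finset.univ.image fun i => hyperplane (v' i))) := by
  have hmem : ∀ (w : ι → Fin l → K) (s : Finset ι),
      ∃ t ⊆ (Finset.univ.image fun i => hyperplane (w i)),
        (s.inf fun c => hyperplane (w c)) = t.inf id := by
    intro w s
    refine ⟨s.image fun i => hyperplane (w i), ?_, ?_⟩
    · exact Finset.image_subset_image (Finset.subset_univ s)
    · rw [Finset.inf_image]
      rfl
  have hsurj : ∀ (w : ι → Fin l → K), Function.Surjective (fun s : Finset ι =>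
      (OrderDual.toDual ⟨s.inf fun c => hyperplane (w c), hmem w s⟩ :
        Lattice (Finset.univ.image fun i => hyperplane (w i)))) := by
    intro w W
    obtain ⟨W, t, ht, hW⟩ := W
    refine ⟨Finset.univ.filter fun i => hyperplane (w i) ∈ t, ?_⟩
    apply Subtype.ext
    show ((Finset.univ.filter fun i => hyperplane (w i) ∈ t).inf fun c => hyperplane (w c)) = W
    rw [hW]
    apply le_antisymm
    · refine Finset.le_inf fun H hH => ?_
      have := ht hH
      rw [Finset.mem_image] at this
      obtain ⟨i, -, hi⟩ := this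
      have h1 : i ∈ Finset.univ.filter fun i => hyperplane (w i) ∈ t := by
        simp only [Finset.mem_filter, Finset.mem_univ, true_and]
        rw [hi]; exact hH
      have h2 := Finset.inf_le (f := fun c => hyperplane (w c)) h1
      refine le_trans h2 ?_
      show hyperplane (w i) ≤ id H
      rw [hi]; exact le_rfl
    · refine Finset.le_inf fun i hi => ?_
      simp only [Finset.mem_filter, Finset.mem_univ, true_and] at hi
      exact Finset.inf_le (f := id) hi
  have hle : ∀ (w : ι → Fin l → K) (s t : Finset ι),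
      (t.inf fun c => hyperplane (w c)) ≤ (s.inf fun c => hyperplane (w c)) ↔
        ∀ i ∈ s, w i ∈ Submodule.span K (w '' (t : Set ι)) := by
    intro w s t
    rw [Finset.le_inf_iff]
    exact forall₂_congr fun i _ => inf_le_iff w t i
  refine exists_orderIso _ _ (hsurj v) (hsurj v') fun s t => ?_
  show (t.inf fun c => hyperplane (v c)) ≤ (s.inf fun c => hyperplane (v c)) ↔
    (t.inf fun c => hyperplane (v' c)) ≤ (s.inf fun c => hyperplane (v' c))
  rw [hle, hle]
  exact forall₂_congr fun i _ => h t i

/-- the closure operator of a simple family of rank three in terms of its bases -/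
theorem rank_three {c : Type} (w : c → Fin 3 → K)
    (h0 : ∀ a, w a ≠ 0)
    (h2 : ∀ a b, a ≠ b → LinearIndependent K ![w a, w b])
    (t : Set c) (i : c) :
    w i ∈ Submodule.span K (w '' t) ↔
      i ∈ t ∨ (∃ a ∈ t, ∃ b ∈ t, a ≠ b ∧ ¬ LinearIndependent K ![w a, w b, w i]) ∨
        ∃ a ∈ t, ∃ b ∈ t, ∃ d ∈ t, LinearIndependent K ![w a, w b, w d] := by
  have key : ∀ a b d, a ≠ b → ¬ LinearIndependent K ![w a, w b, w d] →
      w d ∈ Submodule.span K {w a, w b} := by
    intro a b d hab hd
    by_contra hcon
    apply hd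
    have h3 := h2 a b hab
    have h4 : LinearIndependent K (Fin.snoc ![w a, w b] (w d) : Fin 3 → Fin 3 → K) := by
      rw [linearIndependent_finSnoc]
      refine ⟨h3, ?_⟩
      have : Set.range ![w a, w b] = {w a, w b} := by
        simp [Matrix.range_cons, Set.pair_comm]
      rw [this]
      exact hcon
    convert h4 using 1
    ext q
    fin_cases q <;> rfl
  constructor
  · intro h
    by_contra hcon
    push Not at hcon
    obtain ⟨hi, hab, habd⟩ := hcon
    rcases t.eq_empty_or_nonempty with ht | ⟨a, ha⟩
    · subst ht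
      simp only [Set.image_empty, Submodule.span_empty, Submodule.mem_bot] at h
      exact h0 i h
    · by_cases hb : ∃ b ∈ t, a ≠ b
      · obtain ⟨b, hb, hne⟩ := hb
        have h5 : Submodule.span K (w '' t) ≤ Submodule.span K {w a, w b} := by
          rw [Submodule.span_le]
          rintro _ ⟨d, hd, rfl⟩
          exact key a b d hne (habd a ha b hb d hd)
        have h6 := h5 h
        have h7 := hab a ha b hb hne
        have h8 : LinearIndependent K (Fin.snoc ![w a, w b] (w i) : Fin 3 → Fin 3 → K) := by
          convert h7 using 1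
          ext q
          fin_cases q <;> rfl
        rw [linearIndependent_finSnoc] at h8
        apply h8.2
        have : Set.range ![w a, w b] = {w a, w b} := by
          simp [Matrix.range_cons, Set.pair_comm]
        rw [this]
        exact h6
      · push Not at hb
        have h5 : t = {a} := by
          ext x
          constructor
          · intro hx; exact (hb x hx).symm
          · rintro rfl; exact ha
        subst h5
        rw [Set.image_singleton, Submodule.mem_span_singleton] at h
        obtain ⟨r, hr⟩ := h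
        have hne : i ≠ a := fun h => hi (by rw [h]; rfl)
        have h6 := h2 a i (Ne.symm hne)
        rw [LinearIndependent.pair_iff] at h6
        have h7 := h6 r (-1) (by rw [hr]; simp)
        exact one_ne_zero (neg_eq_zero.1 h7.2)
  · rintro (h | ⟨a, ha, b, hb, hab, hd⟩ | ⟨a, ha, b, hb, d, hd, h⟩)
    · exact Submodule.subset_span ⟨i, h, rfl⟩
    · have h9 := key a b i hab hd
      refine Submodule.span_mono ?_ h9
      rintro x (rfl | rfl)
      · exact ⟨a, ha, rfl⟩
      · exact ⟨b, hb, rfl⟩
    · have h10 : Submodule.span K (Set.range ![w a, w b, w d]) = ⊤ := by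
        apply h.span_eq_top_of_card_eq_finrank
        simp
      have h11 : w i ∈ Submodule.span K (Set.range ![w a, w b, w d]) := by
        rw [h10]; trivial
      refine Submodule.span_mono ?_ h11
      rintro _ ⟨q, rfl⟩
      fin_cases q
      · exact ⟨a, ha, rfl⟩
      · exact ⟨b, hb, rfl⟩
      · exact ⟨d, hd, rfl⟩

end general

section config

variable {K : Type} [Field K] {k : ℕ}

/-- the hyperplanes of the first two kinds -/
abbrev Ib (k : ℕ) := Ix k ⊕ Pr k

/-- the first three coordinates -/
def w3 (y z : Fin k → K) (β : Ix k → K) : Ib k → Fin 3 → K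
  | .inl u => ![1, -pa y z β u, -β u]
  | .inr e => ![0, pa y z β e.1.1 - pa y z β e.1.2, β e.1.1 - β e.1.2]

/-- three indices which give independent vectors -/
def tri : Ib k → Ib k → Ib k → Prop
  | .inl u, .inl v, .inl w => u ≠ v ∧ v ≠ w ∧ u ≠ w
  | .inl u, .inl v, .inr e => u ≠ v ∧ s(u, v) ≠ s(e.1.1, e.1.2)
  | .inl u, .inr e, .inl v => u ≠ v ∧ s(u, v) ≠ s(e.1.1, e.1.2)
  | .inr e, .inl u, .inl v => u ≠ v ∧ s(u, v) ≠ s(e.1.1, e.1.2)
  | .inl _, .inr e, .inr e' => e ≠ e'
  | .inr e, .inl _, .inr e' => e ≠ e'
  | .inr e, .inr e', .inl _ => e ≠ e'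
  | .inr _, .inr _, .inr _ => False

theorem pr_ne (e : Pr k) : e.1.1 ≠ e.1.2 := fun h => by
  have := e.2
  rw [h] at this
  exact lt_irrefl _ this

theorem pr_sym {e e' : Pr k} (h : e ≠ e') : s(e.1.1, e.1.2) ≠ s(e'.1.1, e'.1.2) := by
  intro h1
  rw [Sym2.eq_iff] at h1
  rcases h1 with ⟨h1, h2⟩ | ⟨h1, h2⟩
  · exact h (Subtype.ext (Prod.ext h1 h2))
  · have h3 := e.2
    have h4 := e'.2
    rw [h1, h2] at h3
    exact lt_asymm h3 h4

theorem indep_iff_det (a b c : Fin 3 → K) :
    LinearIndependent K ![a, b, c] ↔
      a 0 * b 1 * c 2 - a 0 * b 2 * c 1 - a 1 * b 0 * c 2 + a 1 * b 2 * c 0 + a 2 * b 0 * c 1 -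
        a 2 * b 1 * c 0 ≠ 0 := by
  have h := Matrix.linearIndependent_rows_iff_isUnit (A := Matrix.of ![a, b, c])
  have h2 := Matrix.isUnit_iff_isUnit_det (Matrix.of ![a, b, c])
  rw [h2, isUnit_iff_ne_zero, Matrix.det_fin_three] at h
  simp only [Matrix.of_apply, Matrix.cons_val] at h
  exact h

variable {y z : Fin k → K} {β : Ix k → K}

theorem good' (hg : Good y z β) {u v u' v' : Ix k} (h1 : u ≠ v) (h2 : u' ≠ v')
    (h3 : s(u, v) ≠ s(u', v')) :
    (pa y z β u - pa y z β v) * (β u' - β v') - (β u - β v) * (pa y z β u' - pa y z β v') ≠ 0 :=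
  sub_ne_zero.2 (hg.slopes u v u' v' h1 h2 h3)

/-- the points are distinct -/
theorem points (hk : 2 ≤ k) (hg : Good y z β) {u v : Ix k} (h : u ≠ v) :
    ¬ (pa y z β u - pa y z β v = 0 ∧ β u - β v = 0) := by
  rintro ⟨h1, h2⟩
  -- another pair
  have hx : ∃ u' v' : Ix k, u' ≠ v' ∧ s(u, v) ≠ s(u', v') := by
    let p : Ix k := (⟨0, by omega⟩, false)
    let q : Ix k := (⟨0, by omega⟩, true)
    let r : Ix k := (⟨1, by omega⟩, false)
    have hpq : p ≠ q := by intro h; have := congrArg Prod.snd h; simp [p, q] at this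
    have hpr : p ≠ r := by
      intro h; have := congrArg (fun x : Ix k => (x.1 : ℕ)) h; simp [p, r] at this
    have hqr : q ≠ r := by
      intro h; have := congrArg (fun x : Ix k => (x.1 : ℕ)) h; simp [q, r] at this
    by_cases hc : s(u, v) = s(p, q)
    · refine ⟨p, r, hpr, ?_⟩
      rw [hc]
      intro h
      rw [Sym2.eq_iff] at h
      rcases h with ⟨-, h⟩ | ⟨h, -⟩
      · exact hqr h
      · exact hpr h
    · exact ⟨p, q, hpq, hc⟩
  obtain ⟨u', v', h3, h4⟩ := hx
  apply good' hg h h3 h4
  rw [h1, h2]; ring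

theorem tri_iff (hg : Good y z β) (a b c : Ib k) :
    LinearIndependent K ![w3 y z β a, w3 y z β b, w3 y z β c] ↔ tri a b c := by
  rw [indep_iff_det]
  have LLM : ∀ (u v : Ix k) (e : Pr k),
      ((pa y z β u - pa y z β v) * (β e.1.1 - β e.1.2) -
        (β u - β v) * (pa y z β e.1.1 - pa y z β e.1.2) ≠ 0) ↔
          u ≠ v ∧ s(u, v) ≠ s(e.1.1, e.1.2) := by
    intro u v e
    constructor
    · intro h
      refine ⟨?_, ?_⟩
      · rintro rfl
        apply h; ring
      · intro h1
        rw [Sym2.eq_iff] at h1
        rcases h1 with ⟨h1, h2⟩ | ⟨h1, h2⟩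
        · rw [h1, h2] at h
          apply h; ring
        · rw [h1, h2] at h
          apply h; ring
    · rintro ⟨h1, h2⟩
      exact good' hg h1 (pr_ne e) h2
  have LMM : ∀ (e e' : Pr k),
      ((pa y z β e.1.1 - pa y z β e.1.2) * (β e'.1.1 - β e'.1.2) -
        (β e.1.1 - β e.1.2) * (pa y z β e'.1.1 - pa y z β e'.1.2) ≠ 0) ↔ e ≠ e' := by
    intro e e'
    constructor
    · rintro h rfl
      apply h; ring
    · intro h
      exact good' hg (pr_ne e) (pr_ne e') (pr_sym h)
  rcases a with u | e <;> rcases b with v | e' <;> rcases c with w | e''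
  · simp only [w3, tri, Matrix.cons_val]
    have hL : ((pa y z β v - pa y z β u) * (β w - β u) -
        (β v - β u) * (pa y z β w - pa y z β u) ≠ 0) ↔ u ≠ v ∧ v ≠ w ∧ u ≠ w := by
      constructor
      · intro h
        refine ⟨?_, ?_, ?_⟩
        · rintro rfl
          apply h; ring
        · rintro rfl
          apply h; ring
        · rintro rfl
          apply h; ring
      · rintro ⟨h1, h2, h3⟩
        refine good' hg (Ne.symm h1) (Ne.symm h3) ?_
        intro h
        rw [Sym2.eq_iff] at h
        rcases h with ⟨h, -⟩ | ⟨-, h⟩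
        · exact h2 h
        · exact h3 h
    rw [← hL]
    have : ∀ x y : K, x = y ∨ x = -y → (x ≠ 0 ↔ y ≠ 0) := by
      rintro x y (rfl | rfl)
      · rfl
      · rw [neg_ne_zero]
    apply this
    first
      | (left; ring1)
      | (right; ring1)
  · simp only [w3, tri, Matrix.cons_val]
    rw [← LLM u v e'']
    have : ∀ x y : K, x = y ∨ x = -y → (x ≠ 0 ↔ y ≠ 0) := by
      rintro x y (rfl | rfl)
      · rfl
      · rw [neg_ne_zero]
    apply this
    first
      | (left; ring1)
      | (right; ring1)
  · simp only [w3, tri, Matrix.cons_val]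
    rw [← LLM u w e']
    have : ∀ x y : K, x = y ∨ x = -y → (x ≠ 0 ↔ y ≠ 0) := by
      rintro x y (rfl | rfl)
      · rfl
      · rw [neg_ne_zero]
    apply this
    first
      | (left; ring1)
      | (right; ring1)
  · simp only [w3, tri, Matrix.cons_val]
    rw [← LMM e' e'']
    have : ∀ x y : K, x = y ∨ x = -y → (x ≠ 0 ↔ y ≠ 0) := by
      rintro x y (rfl | rfl)
      · rfl
      · rw [neg_ne_zero]
    apply this
    first
      | (left; ring1)
      | (right; ring1)
  · simp only [w3, tri, Matrix.cons_val]
    rw [← LLM v w e]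
    have : ∀ x y : K, x = y ∨ x = -y → (x ≠ 0 ↔ y ≠ 0) := by
      rintro x y (rfl | rfl)
      · rfl
      · rw [neg_ne_zero]
    apply this
    first
      | (left; ring1)
      | (right; ring1)
  · simp only [w3, tri, Matrix.cons_val]
    rw [← LMM e e'']
    have : ∀ x y : K, x = y ∨ x = -y → (x ≠ 0 ↔ y ≠ 0) := by
      rintro x y (rfl | rfl)
      · rfl
      · rw [neg_ne_zero]
    apply this
    first
      | (left; ring1)
      | (right; ring1)
  · simp only [w3, tri, Matrix.cons_val]
    rw [← LMM e e']
    have : ∀ x y : K, x = y ∨ x = -y → (x ≠ 0 ↔ y ≠ 0) := by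
      rintro x y (rfl | rfl)
      · rfl
      · rw [neg_ne_zero]
    apply this
    first
      | (left; ring1)
      | (right; ring1)
  · simp only [w3, tri, Matrix.cons_val]
    rw [iff_false, not_not]
    ring

theorem w3_ne (hk : 2 ≤ k) (hg : Good y z β) (a : Ib k) : w3 y z β a ≠ 0 := by
  rcases a with u | e
  · intro h
    have := congrFun h 0
    simp [w3] at this
  · intro h
    have h1 := congrFun h 1
    have h2 := congrFun h 2
    simp only [w3, Matrix.cons_val, Pi.zero_apply] at h1 h2
    exact points hk hg (pr_ne e) ⟨h1, h2⟩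

theorem w3_pair (hk : 2 ≤ k) (hg : Good y z β) (a b : Ib k) (hab : a ≠ b) :
    LinearIndependent K ![w3 y z β a, w3 y z β b] := by
  rw [LinearIndependent.pair_iff]
  intro s t h
  have e0 := congrFun h 0
  have e1 := congrFun h 1
  have e2 := congrFun h 2
  rcases a with u | e <;> rcases b with v | e'
  · have hne : u ≠ v := fun h => hab (by rw [h])
    simp only [w3, Pi.add_apply, Pi.smul_apply, smul_eq_mul, Matrix.cons_val, Pi.zero_apply]
      at e0 e1 e2
    have ht : t = -s := by linear_combination e0
    subst ht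
    have h1 : s * (pa y z β u - pa y z β v) = 0 := by linear_combination -e1
    have h2 : s * (β u - β v) = 0 := by linear_combination -e2
    have hs : s = 0 := by
      by_contra hs
      exact points hk hg hne ⟨(mul_eq_zero.1 h1).resolve_left hs, (mul_eq_zero.1 h2).resolve_left hs⟩
    subst hs
    simp
  · simp only [w3, Pi.add_apply, Pi.smul_apply, smul_eq_mul, Matrix.cons_val, Pi.zero_apply]
      at e0 e1 e2
    have hs : s = 0 := by linear_combination e0
    subst hs
    refine ⟨rfl, ?_⟩
    by_contra ht
    have h1 : t * (pa y z β e'.1.1 - pa y z β e'.1.2) = 0 := by linear_combination e1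
    have h2 : t * (β e'.1.1 - β e'.1.2) = 0 := by linear_combination e2
    exact points hk hg (pr_ne e') ⟨(mul_eq_zero.1 h1).resolve_left ht,
      (mul_eq_zero.1 h2).resolve_left ht⟩
  · simp only [w3, Pi.add_apply, Pi.smul_apply, smul_eq_mul, Matrix.cons_val, Pi.zero_apply]
      at e0 e1 e2
    have ht : t = 0 := by linear_combination e0
    subst ht
    refine ⟨?_, rfl⟩
    by_contra hs
    have h1 : s * (pa y z β e.1.1 - pa y z β e.1.2) = 0 := by linear_combination e1
    have h2 : s * (β e.1.1 - β e.1.2) = 0 := by linear_combination e2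
    exact points hk hg (pr_ne e) ⟨(mul_eq_zero.1 h1).resolve_left hs,
      (mul_eq_zero.1 h2).resolve_left hs⟩
  · have hne : e ≠ e' := fun h => hab (by rw [h])
    simp only [w3, Pi.add_apply, Pi.smul_apply, smul_eq_mul, Matrix.cons_val, Pi.zero_apply]
      at e0 e1 e2
    have hd := good' hg (pr_ne e) (pr_ne e') (pr_sym hne)
    have h1 : s * ((pa y z β e.1.1 - pa y z β e.1.2) * (β e'.1.1 - β e'.1.2) -
        (β e.1.1 - β e.1.2) * (pa y z β e'.1.1 - pa y z β e'.1.2)) = 0 := by
      linear_combination (β e'.1.1 - β e'.1.2) * e1 - (pa y z β e'.1.1 - pa y z β e'.1.2) * e2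
    have h2 : t * ((pa y z β e.1.1 - pa y z β e.1.2) * (β e'.1.1 - β e'.1.2) -
        (β e.1.1 - β e.1.2) * (pa y z β e'.1.1 - pa y z β e'.1.2)) = 0 := by
      linear_combination -(β e.1.1 - β e.1.2) * e1 + (pa y z β e.1.1 - pa y z β e.1.2) * e2
    exact ⟨(mul_eq_zero.1 h1).resolve_right hd, (mul_eq_zero.1 h2).resolve_right hd⟩

/-- the indices of the first two kinds -/
def emb (j : ℕ) : Ib k → Ia k j
  | .inl u => .inl u
  | .inr e => .inr (.inl e)

/-- projection to the first three coordinates -/
def prj (K : Type) [Field K] (j : ℕ) : (Fin (j + 3) → K) →ₗ[K] (Fin 3 → K) where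
  toFun x := ![x 0, x 1, x 2]
  map_add' x x' := by
    ext i; fin_cases i <;> rfl
  map_smul' c x := by
    ext i; fin_cases i <;> rfl

/-- its section -/
def sec (K : Type) [Field K] (j : ℕ) : (Fin 3 → K) →ₗ[K] (Fin (j + 3) → K) where
  toFun x := fun i => if i = 0 then x 0 else if i = 1 then x 1 else if i = 2 then x 2 else 0
  map_add' x x' := by
    ext i
    simp only [Pi.add_apply]
    split_ifs <;> simp
  map_smul' c x := by
    ext i
    simp only [Pi.smul_apply, smul_eq_mul, RingHom.id_apply]
    split_ifs <;> simp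

theorem ne10 (j : ℕ) : (1 : Fin (j + 3)) ≠ 0 := by
  intro h; have := congrArg Fin.val h; simp at this

theorem val2 (j : ℕ) : ((2 : Fin (j + 3)) : ℕ) = 2 := rfl

theorem ne20 (j : ℕ) : (2 : Fin (j + 3)) ≠ 0 := by
  intro h; have := congrArg Fin.val h; rw [val2] at this; simp at this

theorem ne21 (j : ℕ) : (2 : Fin (j + 3)) ≠ 1 := by
  intro h; have := congrArg Fin.val h; rw [val2] at this; simp at this

theorem sss0 {j : ℕ} (i : Fin j) : (i.succ.succ.succ : Fin (j + 3)) ≠ 0 := Fin.succ_ne_zero _

theorem sss1 {j : ℕ} (i : Fin j) : (i.succ.succ.succ : Fin (j + 3)) ≠ 1 := by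
  intro h; have := congrArg Fin.val h; simp at this

theorem sss2 {j : ℕ} (i : Fin j) : (i.succ.succ.succ : Fin (j + 3)) ≠ 2 := by
  intro h; have := congrArg Fin.val h; rw [val2] at this; simp at this

theorem prj_emb (j : ℕ) (c : Ib k) : prj K j (vec j y z β (emb j c)) = w3 y z β c := by
  rcases c with u | e
  · ext i
    fin_cases i <;> simp [prj, emb, vec, w3, ne10, ne20, ne21]
  · ext i
    fin_cases i <;> simp [prj, emb, vec, w3, ne10, ne20, ne21, (ne10 j).symm, (ne20 j).symm]

theorem prj_w (j : ℕ) (i : Fin j) : prj K j (vec j y z β (.inr (.inr i))) = 0 := by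
  ext l
  fin_cases l <;> simp [prj, vec, (sss0 i).symm, (sss1 i).symm, (sss2 i).symm, Pi.single_apply]

theorem sec_w3 (j : ℕ) (c : Ib k) : sec K j (w3 y z β c) = vec j y z β (emb j c) := by
  rcases c with u | e
  · ext i
    simp [sec, emb, vec, w3]
  · ext i
    simp only [sec, emb, vec, w3, LinearMap.coe_mk, AddHom.coe_mk, Matrix.cons_val]
    by_cases h0 : i = 0
    · subst h0
      simp [(ne10 j).symm, (ne20 j).symm]
    · simp [h0]

theorem span_emb (j : ℕ) (s : Set (Ia k j)) (c : Ib k) :
    vec j y z β (emb j c) ∈ Submodule.span K (vec j y z β '' s) ↔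
      w3 y z β c ∈ Submodule.span K (w3 y z β '' {d | emb j d ∈ s}) := by
  constructor
  · intro h
    have h1 : prj K j (vec j y z β (emb j c)) ∈
        (Submodule.span K (vec j y z β '' s)).map (prj K j) := ⟨_, h, rfl⟩
    rw [prj_emb, Submodule.map_span] at h1
    refine Submodule.span_le.2 ?_ h1
    rintro _ ⟨_, ⟨i, hi, rfl⟩, rfl⟩
    rcases i with u | e | i
    · exact Submodule.subset_span ⟨.inl u, hi, (prj_emb j (.inl u)).symm⟩
    · exact Submodule.subset_span ⟨.inr e, hi, (prj_emb j (.inr e)).symm⟩
    · rw [prj_w]; exact Submodule.zero_mem _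
  · intro h
    have h1 : sec K j (w3 y z β c) ∈
        (Submodule.span K (w3 y z β '' {d | emb j d ∈ s})).map (sec K j) := ⟨_, h, rfl⟩
    rw [sec_w3, Submodule.map_span] at h1
    refine Submodule.span_mono ?_ h1
    rintro _ ⟨_, ⟨d, hd, rfl⟩, rfl⟩
    exact ⟨emb j d, hd, (sec_w3 j d).symm⟩

theorem span_w (j : ℕ) (s : Set (Ia k j)) (i : Fin j) :
    vec j y z β (.inr (.inr i)) ∈ Submodule.span K (vec j y z β '' s) ↔
      (.inr (.inr i) : Ia k j) ∈ s := by
  constructor
  · intro h
    by_contra hi
    have h1 : Submodule.span K (vec j y z β '' s) ≤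
        LinearMap.ker (LinearMap.proj (i.succ.succ.succ : Fin (j + 3)) :
          (Fin (j + 3) → K) →ₗ[K] K) := by
      rw [Submodule.span_le]
      rintro _ ⟨c, hc, rfl⟩
      rw [SetLike.mem_coe, LinearMap.mem_ker, LinearMap.proj_apply]
      rcases c with u | e | i'
      · simp [vec, sss0, sss1, sss2]
      · simp [vec, sss1, sss2]
      · have hne : i' ≠ i := by
          rintro rfl; exact hi hc
        simp only [vec]
        rw [Pi.single_apply, if_neg]
        intro h
        apply hne
        have := congrArg Fin.val h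
        simp only [Fin.val_succ] at this
        exact Fin.ext (by omega)
    have h2 := h1 h
    rw [LinearMap.mem_ker, LinearMap.proj_apply] at h2
    simp [vec] at h2
  · intro h
    exact Submodule.subset_span ⟨_, h, rfl⟩

end config

theorem main : S_LAT := by
  intro K _ k j hk y z y' z' β β' hg hg'
  classical
  have h : ∀ (s : Finset (Ia k j)) (i : Ia k j),
      vec j y z β i ∈ Submodule.span K (vec j y z β '' (s : Set (Ia k j))) ↔
        vec j y' z' β' i ∈ Submodule.span K (vec j y' z' β' '' (s : Set (Ia k j))) := by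
    intro s i
    have hemb : ∀ c : Ib k,
        vec j y z β (emb j c) ∈ Submodule.span K (vec j y z β '' (s : Set (Ia k j))) ↔
        vec j y' z' β' (emb j c) ∈ Submodule.span K (vec j y' z' β' '' (s : Set (Ia k j))) := by
      intro c
      rw [span_emb, span_emb, rank_three _ (w3_ne hk hg) (w3_pair hk hg),
        rank_three _ (w3_ne hk hg') (w3_pair hk hg')]
      simp only [tri_iff hg, tri_iff hg']
    rcases i with u | e | i
    · exact hemb (.inl u)
    · exact hemb (.inr e)
    · rw [span_w, span_w]
  have := general (vec j y z β) (vec j y' z' β') h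
  exact this

end Pool.Agent.H505.PG.LAT
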