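import Pool.Agent.H505.PG.Stm

/-!
# LIN: good configurations exist (helper344 for helper505)
-/

set_option autoImplicit false

namespace Pool.Agent.H505.PG.LIN

open MvPolynomial Pool.Agent.H505.PG

section
variable {K : Type} [Field K] {k : ℕ}

/-- the identification of two indices -/
def tau (a₀ a₁ : Ix k) (w : Ix k) : Ix k := if w = a₁ then a₀ else w

theorem tau_ne {a₀ a₁ a b : Ix k} {y : Fin k → K} (hy : Function.Injective y)
    (h01 : a₀.1 ≠ a₁.1) (h : tau a₀ a₁ a = tau a₀ a₁ b) (hab : a ≠ b) : y a.1 ≠ y b.1 := by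
  unfold tau at h
  intro hc
  have hc' := hy hc
  split_ifs at h with h1 h2 h2
  · exact hab (h1.trans h2.symm)
  · subst h1; subst h; exact h01 hc'.symm
  · subst h2; subst h; exact h01 hc'
  · exact hab h

theorem three {a b c : Ix k} (h1 : a ≠ b) (h2 : a ≠ c) (h3 : b ≠ c) (h4 : a.1 = b.1)
    (h5 : a.1 = c.1) : False := by
  obtain ⟨a1, a2⟩ := a
  obtain ⟨b1, b2⟩ := b
  obtain ⟨c1, c2⟩ := c
  simp only at h4 h5
  subst h4; subst h5
  revert h1 h2 h3
  cases a2 <;> cases b2 <;> cases c2 <;> simp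

/-- the quadratic form -/
def Qf (y : Fin k → K) (β : Ix k → K) (u v u' v' : Ix k) : K :=
  (β v * y v.1 - β u * y u.1) * (β u' - β v') - (β u - β v) * (β v' * y v'.1 - β u' * y u'.1)

theorem Qf_swap (y : Fin k → K) (β : Ix k → K) (u v u' v' : Ix k) :
    Qf y β u v u' v' = - Qf y β u' v' u v := by
  unfold Qf; ring

theorem Qf_swap1 (y : Fin k → K) (β : Ix k → K) (u v u' v' : Ix k) :
    Qf y β u v u' v' = - Qf y β v u u' v' := by
  unfold Qf; ring

theorem Qf_swap2 (y : Fin k → K) (β : Ix k → K) (u v u' v' : Ix k) :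
    Qf y β u v u' v' = - Qf y β u v v' u' := by
  unfold Qf; ring

variable {a₀ a₁ : Ix k} {y : Fin k → K}

/-- one pair is the identified pair -/
theorem case_one (hy : Function.Injective y) (h01 : a₀.1 ≠ a₁.1) {u v u' v' : Ix k}
    (huv : u ≠ v) (h : tau a₀ a₁ u = tau a₀ a₁ v) (h' : tau a₀ a₁ u' ≠ tau a₀ a₁ v') :
    ∃ γ : Ix k → K, Qf y (fun w => γ (tau a₀ a₁ w)) u v u' v' ≠ 0 := by
  classical
  have hyy := tau_ne hy h01 h huv
  by_cases h1 : tau a₀ a₁ u' = tau a₀ a₁ u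
  · have h2 : tau a₀ a₁ u ≠ tau a₀ a₁ v' := h1 ▸ h'
    refine ⟨fun w => if w = tau a₀ a₁ v' then 0 else 1, ?_⟩
    unfold Qf
    simp only [← h, h1, if_neg h2, if_true]
    intro h0
    apply hyy
    linear_combination -h0
  · refine ⟨fun w => if w = tau a₀ a₁ u' then 0 else 1, ?_⟩
    unfold Qf
    simp only [← h, if_neg (Ne.symm h1), if_neg (Ne.symm h'), if_true]
    intro h0
    apply hyy
    linear_combination h0

/-- the first elements of the pairs are identified -/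
theorem case_shared (hy : Function.Injective y) (h01 : a₀.1 ≠ a₁.1) {u v u' v' : Ix k}
    (h : tau a₀ a₁ u = tau a₀ a₁ u') (h1 : tau a₀ a₁ u ≠ tau a₀ a₁ v)
    (h2 : tau a₀ a₁ u ≠ tau a₀ a₁ v') (hne : ¬ (u = u' ∧ v = v')) :
    ∃ γ : Ix k → K, Qf y (fun w => γ (tau a₀ a₁ w)) u v u' v' ≠ 0 := by
  classical
  by_cases huu : u = u'
  · have hvv : v ≠ v' := fun hv => hne ⟨huu, hv⟩
    subst huu
    by_cases h3 : tau a₀ a₁ v = tau a₀ a₁ v'
    · have hyy := tau_ne hy h01 h3 hvv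
      refine ⟨fun w => if w = tau a₀ a₁ v then 1 else 0, ?_⟩
      unfold Qf
      simp only [← h3, if_neg h1, if_true]
      intro h0
      apply hyy
      linear_combination -h0
    · have n1 : u ≠ v := fun e => h1 (by rw [e])
      have n2 : u ≠ v' := fun e => h2 (by rw [e])
      by_cases e1 : v.1 = v'.1
      · by_cases e2 : u.1 = v.1
        · exact (three n1 n2 hvv e2 (e2.trans e1)).elim
        · refine ⟨fun w => if w = tau a₀ a₁ v' then 0 else 1, ?_⟩
          unfold Qf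
          simp only [if_neg h2, if_neg h3, if_true]
          intro h0
          apply e2
          apply hy
          linear_combination -h0
      · refine ⟨fun w => if w = tau a₀ a₁ u then 0 else 1, ?_⟩
        unfold Qf
        simp only [if_neg (Ne.symm h1), if_neg (Ne.symm h2), if_true]
        intro h0
        apply e1
        apply hy
        linear_combination -h0
  · have hyy := tau_ne hy h01 h huu
    refine ⟨fun w => if w = tau a₀ a₁ u then 1 else 0, ?_⟩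
    unfold Qf
    simp only [← h, if_neg (Ne.symm h1), if_neg (Ne.symm h2), if_true]
    intro h0
    apply hyy
    linear_combination -h0

/-- four different classes -/
theorem case_disj (hy : Function.Injective y) {u v u' v' : Ix k}
    (h1 : tau a₀ a₁ u ≠ tau a₀ a₁ v) (h2 : tau a₀ a₁ u' ≠ tau a₀ a₁ v')
    (h3 : tau a₀ a₁ u ≠ tau a₀ a₁ u') (h4 : tau a₀ a₁ u ≠ tau a₀ a₁ v')
    (h5 : tau a₀ a₁ v ≠ tau a₀ a₁ u') (h6 : tau a₀ a₁ v ≠ tau a₀ a₁ v') :
    ∃ γ : Ix k → K, Qf y (fun w => γ (tau a₀ a₁ w)) u v u' v' ≠ 0 := by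
  classical
  by_cases e1 : u.1 = u'.1
  · have e2 : u.1 ≠ v'.1 := by
      intro e2
      refine three (a := u) (b := u') (c := v') ?_ ?_ ?_ e1 e2
      · exact fun e => h3 (by rw [e])
      · exact fun e => h4 (by rw [e])
      · exact fun e => h2 (by rw [e])
    refine ⟨fun w => if w = tau a₀ a₁ u then 1 else if w = tau a₀ a₁ v' then 1 else 0, ?_⟩
    unfold Qf
    simp only [if_neg (Ne.symm h1), if_neg h6, if_neg (Ne.symm h3), if_neg h2, if_neg (Ne.symm h4),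
      if_true]
    intro h0
    apply e2
    apply hy
    linear_combination h0
  · refine ⟨fun w => if w = tau a₀ a₁ u then 1 else if w = tau a₀ a₁ u' then 1 else 0, ?_⟩
    unfold Qf
    simp only [if_neg (Ne.symm h1), if_neg h5, if_neg (Ne.symm h3), if_neg (Ne.symm h2),
      if_neg (Ne.symm h4), if_true]
    intro h0
    apply e1
    apply hy
    linear_combination -h0

theorem exists_Q (hy : Function.Injective y) (h01 : a₀.1 ≠ a₁.1) {u v u' v' : Ix k}
    (huv : u ≠ v) (huv' : u' ≠ v') (hs : s(u, v) ≠ s(u', v')) :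
    ∃ γ : Ix k → K, Qf y (fun w => γ (tau a₀ a₁ w)) u v u' v' ≠ 0 := by
  have n1 : ¬ (u = u' ∧ v = v') := fun h => hs (by rw [h.1, h.2])
  have n2 : ¬ (u = v' ∧ v = u') := fun h => hs (by rw [h.1, h.2, Sym2.eq_swap])
  by_cases c1 : tau a₀ a₁ u = tau a₀ a₁ v
  · have c2 : tau a₀ a₁ u' ≠ tau a₀ a₁ v' := by
      intro c2
      unfold tau at c1 c2
      split_ifs at c1 c2 with i1 i2 i3 i4 i5 i6 i7 i8 <;> first | (exfalso; tauto) | skip
      all_goals
        subst_vars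
        exfalso
        tauto
    exact case_one hy h01 huv c1 c2
  by_cases c2 : tau a₀ a₁ u' = tau a₀ a₁ v'
  · obtain ⟨γ, hγ⟩ := case_one (K := K) hy h01 huv' c2 c1
    refine ⟨γ, ?_⟩
    rw [Qf_swap]
    exact neg_ne_zero.2 hγ
  by_cases d1 : tau a₀ a₁ u = tau a₀ a₁ u'
  · exact case_shared hy h01 d1 c1 (d1 ▸ c2) n1
  by_cases d2 : tau a₀ a₁ u = tau a₀ a₁ v'
  · obtain ⟨γ, hγ⟩ := case_shared (K := K) hy h01 d2 c1 (d2 ▸ Ne.symm c2) n2
    refine ⟨γ, ?_⟩
    rw [Qf_swap2]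
    exact neg_ne_zero.2 hγ
  by_cases d3 : tau a₀ a₁ v = tau a₀ a₁ u'
  · obtain ⟨γ, hγ⟩ := case_shared (K := K) hy h01 d3 (Ne.symm c1) (d3 ▸ c2)
      (fun h => n2 ⟨h.2, h.1⟩)
    refine ⟨γ, ?_⟩
    rw [Qf_swap1]
    exact neg_ne_zero.2 hγ
  by_cases d4 : tau a₀ a₁ v = tau a₀ a₁ v'
  · obtain ⟨γ, hγ⟩ := case_shared (K := K) hy h01 d4 (Ne.symm c1) (d4 ▸ Ne.symm c2)
      (fun h => n1 ⟨h.2, h.1⟩)
    refine ⟨γ, ?_⟩
    rw [Qf_swap1, Qf_swap2, neg_neg]
    exact hγ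
  exact case_disj hy c1 c2 d1 d2 d3 d4

/-- the inhomogeneous form -/
def Df (y z : Fin k → K) (β : Ix k → K) (u v u' v' : Ix k) : K :=
  (pa y z β u - pa y z β v) * (β u' - β v') - (β u - β v) * (pa y z β u' - pa y z β v')

theorem exists_D [Infinite K] (z : Fin k → K) {u v u' v' : Ix k}
    (h : ∃ γ : Ix k → K, Qf y (fun w => γ (tau a₀ a₁ w)) u v u' v' ≠ 0) :
    ∃ γ : Ix k → K, Df y z (fun w => γ (tau a₀ a₁ w)) u v u' v' ≠ 0 := by
  classical
  obtain ⟨γ, hγ⟩ := h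
  by_contra hcon
  push Not at hcon
  obtain ⟨s, hs⟩ := Infinite.exists_notMem_finset ({0, 1} : Finset K)
  simp only [Finset.mem_insert, Finset.mem_singleton, not_or] at hs
  have e1 := hcon γ
  have e2 := hcon (fun w => s * γ w)
  unfold Df pa at e1 e2
  apply hγ
  have h3 : s * (s - 1) * Qf y (fun w => γ (tau a₀ a₁ w)) u v u' v' = 0 := by
    unfold Qf
    linear_combination e2 - s * e1
  rcases mul_eq_zero.1 h3 with h4 | h4
  · rcases mul_eq_zero.1 h4 with h5 | h5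
    · exact absurd h5 hs.1
    · exact absurd (sub_eq_zero.1 h5) hs.2
  · exact h4

/-- the polynomial -/
noncomputable def Pf (a₀ a₁ : Ix k) (y z : Fin k → K) (q : (Ix k × Ix k) × (Ix k × Ix k)) :
    MvPolynomial (Ix k) K :=
  ((C (z q.1.1.1) - X (tau a₀ a₁ q.1.1) * C (y q.1.1.1)) -
    (C (z q.1.2.1) - X (tau a₀ a₁ q.1.2) * C (y q.1.2.1))) *
    (X (tau a₀ a₁ q.2.1) - X (tau a₀ a₁ q.2.2)) -
  (X (tau a₀ a₁ q.1.1) - X (tau a₀ a₁ q.1.2)) *
    ((C (z q.2.1.1) - X (tau a₀ a₁ q.2.1) * C (y q.2.1.1)) -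
    (C (z q.2.2.1) - X (tau a₀ a₁ q.2.2) * C (y q.2.2.1)))

theorem eval_Pf (a₀ a₁ : Ix k) (y z : Fin k → K) (q : (Ix k × Ix k) × (Ix k × Ix k))
    (γ : Ix k → K) : eval γ (Pf a₀ a₁ y z q) =
      Df y z (fun w => γ (tau a₀ a₁ w)) q.1.1 q.1.2 q.2.1 q.2.2 := by
  unfold Pf Df pa
  simp

end

theorem main : S_LIN := by
  classical
  intro K _ _ k hk y z hy
  let i₀ : Fin k := ⟨0, by omega⟩
  let i₁ : Fin k := ⟨1, by omega⟩
  let a₀ : Ix k := (i₀, false)
  let a₁ : Ix k := (i₁, false)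
  have h01 : a₀.1 ≠ a₁.1 := by
    intro h
    have := congrArg Fin.val h
    simp [a₀, a₁, i₀, i₁] at this
  have h01' : a₀ ≠ a₁ := fun h => h01 (by rw [h])
  set T : Finset ((Ix k × Ix k) × (Ix k × Ix k)) := Finset.univ.filter
    (fun q => q.1.1 ≠ q.1.2 ∧ q.2.1 ≠ q.2.2 ∧ s(q.1.1, q.1.2) ≠ s(q.2.1, q.2.2)) with hT
  have hne : ∏ q ∈ T, Pf a₀ a₁ y z q ≠ 0 := by
    rw [Finset.prod_ne_zero_iff]
    intro q hq
    rw [hT, Finset.mem_filter] at hq
    obtain ⟨-, h1, h2, h3⟩ := hq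
    obtain ⟨γ, hγ⟩ := exists_D (a₀ := a₀) (a₁ := a₁) z (exists_Q hy h01 h1 h2 h3)
    intro h0
    apply hγ
    rw [← eval_Pf, h0, map_zero]
  obtain ⟨γ, hγ⟩ : ∃ γ : Ix k → K, eval γ (∏ q ∈ T, Pf a₀ a₁ y z q) ≠ 0 := by
    by_contra hcon
    push Not at hcon
    apply hne
    apply MvPolynomial.funext
    intro x
    rw [hcon x, map_zero]
  rw [map_prod, Finset.prod_ne_zero_iff] at hγ
  refine ⟨fun w => γ (tau a₀ a₁ w), ?_, ?_⟩
  · intro u v u' v' h1 h2 h3 heq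
    have hq : ((u, v), (u', v')) ∈ T := by
      rw [hT, Finset.mem_filter]
      exact ⟨Finset.mem_univ _, h1, h2, h3⟩
    have := hγ _ hq
    rw [eval_Pf] at this
    apply this
    unfold Df
    simp only
    rw [heq, sub_self]
  · refine ⟨a₀, a₁, h01, ?_⟩
    simp [tau, h01']

end Pool.Agent.H505.PG.LIN
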