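import Mathlib
import Pool.Agent.H505.PG.Stm

/-! Leaf LOW of the project PG of helper505 (proved by helper627). -/

set_option autoImplicit false

namespace Pool.Agent.H505.PG.LOW

open MvPolynomial
open Pool.Agent.H505.PG

variable {K : Type} [Field K]

theorem hom_aeval {σ τ : Type} (f : σ → MvPolynomial τ K) (hf : ∀ i, (f i).IsHomogeneous 1)
    (n : ℕ) (p : MvPolynomial σ K) :
    homogeneousComponent n (aeval f p) = aeval f (homogeneousComponent n p) := by
  induction p using MvPolynomial.induction_on' with
  | monomial d c =>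
    have h1 : (monomial d c : MvPolynomial σ K).IsHomogeneous d.degree := isHomogeneous_monomial c rfl
    have h2 : (aeval f (monomial d c : MvPolynomial σ K)).IsHomogeneous (1 * d.degree) :=
      h1.aeval f hf
    rw [one_mul] at h2
    rw [homogeneousComponent_of_mem h1, homogeneousComponent_of_mem h2]
    split_ifs <;> simp
  | add p q hp hq => simp only [map_add, hp, hq]

theorem rho_hom {k : ℕ} (j : ℕ) (y z : Fin k → K) (i : Fin k) (n : ℕ)
    (p : MvPolynomial (Fin (j + 3)) K) :
    homogeneousComponent n (rho j y z i p) = rho j y z i (homogeneousComponent n p) := by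
  refine hom_aeval _ (fun l => ?_) n p
  split_ifs
  · exact isHomogeneous_C_mul_X _ _
  · exact isHomogeneous_C_mul_X _ _
  · exact isHomogeneous_X _ _

theorem eval_smul_hom {σ : Type} [Fintype σ] {n : ℕ} {p : MvPolynomial σ K} (hp : p.IsHomogeneous n)
    (t : K) (v : σ → K) : eval (fun i => t * v i) p = t ^ n * eval v p := by
  rw [eval_eq', eval_eq', Finset.mul_sum]
  refine Finset.sum_congr rfl fun d hd => ?_
  have h1 : ∑ i, d i = n := by
    have h2 := hp.degree_eq_sum_deg_support hd
    rw [h2]
    exact (Finset.sum_subset (Finset.subset_univ _) fun i _ hi => by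
      simpa [Finsupp.mem_support_iff] using hi).symm
  simp only [mul_pow]
  rw [Finset.prod_mul_distrib, Finset.prod_pow_eq_pow_sum, h1]
  ring

theorem eval_rho {k : ℕ} (j : ℕ) (y z : Fin k → K) (i : Fin k) (v : Fin (j + 3) → K)
    (p : MvPolynomial (Fin (j + 3)) K) :
    eval v (rho j y z i p) =
      eval (fun l => if l = 0 then z i * v 1 else if l = 2 then y i * v 1 else v l) p := by
  have h1 : eval v (rho j y z i p) = aeval v (rho j y z i p) := by
    rw [aeval_eq_eval]
  have h2 : eval (fun l => if l = 0 then z i * v 1 else if l = 2 then y i * v 1 else v l) p =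
      aeval (fun l => if l = 0 then z i * v 1 else if l = 2 then y i * v 1 else v l) p := by
    rw [aeval_eq_eval]
  rw [h1, h2, rho, ← AlgHom.comp_apply, comp_aeval]
  congr 2
  funext l
  split_ifs <;> simp

/-- the extension of a point of the plane by the other coordinates -/
def ex {j : ℕ} (a : Fin 3 → K) (w : Fin (j + 3) → K) : Fin (j + 3) → K :=
  fun l => if l = 0 then a 0 else if l = 1 then a 1 else if l = 2 then a 2 else w l * a 1

/-- the substitution -/
noncomputable def sb {j : ℕ} (w : Fin (j + 3) → K) :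
    MvPolynomial (Fin (j + 3)) K →ₐ[K] MvPolynomial (Fin 3) K :=
  aeval fun l => if l = 0 then X 0 else if l = 1 then X 1 else if l = 2 then X 2 else C (w l) * X 1

theorem eval_sb {j : ℕ} (w : Fin (j + 3) → K) (a : Fin 3 → K) (p : MvPolynomial (Fin (j + 3)) K) :
    eval a (sb w p) = eval (ex a w) p := by
  have h1 : eval a (sb w p) = aeval a (sb w p) := by rw [aeval_eq_eval]
  have h2 : eval (ex a w) p = aeval (ex a w) p := by rw [aeval_eq_eval]
  rw [h1, h2, sb, ← AlgHom.comp_apply, comp_aeval]
  congr 2
  funext l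
  unfold ex
  split_ifs <;> simp

theorem sb_hom {j : ℕ} (w : Fin (j + 3) → K) {n : ℕ} {p : MvPolynomial (Fin (j + 3)) K}
    (hp : p.IsHomogeneous n) : (sb w p).IsHomogeneous n := by
  have h := hp.aeval (fun l : Fin (j + 3) => if l = 0 then (X 0 : MvPolynomial (Fin 3) K) else
    if l = 1 then X 1 else if l = 2 then X 2 else C (w l) * X 1) (n := 1) (fun l => by
      split_ifs
      · exact isHomogeneous_X _ _
      · exact isHomogeneous_X _ _
      · exact isHomogeneous_X _ _
      · exact isHomogeneous_C_mul_X _ _)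
  rw [one_mul] at h
  exact h

theorem fin_ne (j : ℕ) : (1 : Fin (j + 3)) ≠ 0 ∧ (2 : Fin (j + 3)) ≠ 0 ∧ (2 : Fin (j + 3)) ≠ 1 := by
  refine ⟨?_, ?_, ?_⟩ <;> rw [Ne, Fin.ext_iff] <;> simp [Nat.mod_eq_of_lt]

theorem low [Infinite K] {k j d : ℕ} (hd : 1 ≤ d) (y z : Fin k → K) (hN : NoLow d y z)
    (G : MvPolynomial (Fin (j + 3)) K) (hG : G ∈ IZ j y z) (e : ℕ) (he : e < d) :
    homogeneousComponent e G = 0 := by
  obtain ⟨f1, f2, f3⟩ := fin_ne j
  set H := homogeneousComponent e G with hH
  have hHh : H.IsHomogeneous e := homogeneousComponent_isHomogeneous e G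
  have hr : ∀ i, rho j y z i H = 0 := by
    intro i
    rw [hH, ← rho_hom]
    have h1 : rho j y z i G = 0 := by
      have h2 := (Submodule.mem_iInf _).1 hG i
      exact h2
    rw [h1, map_zero]
  have hs : ∀ w : Fin (j + 3) → K, sb w H = 0 := by
    intro w
    have h1 := hN (X 1 ^ (d - 1 - e) * sb w H) (by
      have h2 := (isHomogeneous_X_pow (R := K) (1 : Fin 3) (d - 1 - e)).mul (sb_hom w hHh)
      have h3 : d - 1 - e + e = d - 1 := by omega
      rwa [h3] at h2) (by
      intro i
      rw [map_mul, eval_sb]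
      have h2 := congrArg (eval (fun l : Fin (j + 3) => if l = 1 then (1 : K) else w l)) (hr i)
      rw [eval_rho, map_zero] at h2
      have h3 : ex ![z i, 1, y i] w = (fun l : Fin (j + 3) => if l = 0 then z i * (if (1 : Fin (j + 3)) = 1 then (1 : K) else w 1)
          else if l = 2 then y i * (if (1 : Fin (j + 3)) = 1 then (1 : K) else w 1) else
          if l = 1 then (1 : K) else w l) := by
        funext l
        unfold ex
        by_cases a0 : l = 0
        · subst a0; simp
        · by_cases a1 : l = 1
          · subst a1; simp [f1, f3.symm]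
          · by_cases a2 : l = 2
            · subst a2; simp [f2, f3]
            · simp [a0, a1, a2]
      rw [h3, h2, mul_zero])
    rcases mul_eq_zero.1 h1 with h2 | h2
    · exact absurd (eq_zero_of_pow_eq_zero h2) (X_ne_zero _)
    · exact h2
  have hX : X 1 * H = 0 := by
    apply MvPolynomial.funext
    intro v
    rw [map_mul, map_zero, eval_X]
    by_cases hv : v 1 = 0
    · rw [hv, zero_mul]
    · have h1 := congrArg (eval ![v 0, v 1, v 2]) (hs (fun l => v l / v 1))
      rw [eval_sb, map_zero] at h1
      have h2 : ex ![v 0, v 1, v 2] (fun l => v l / v 1) = v := by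
        funext l
        unfold ex
        by_cases a0 : l = 0
        · subst a0; simp
        · by_cases a1 : l = 1
          · subst a1; simp [f1]
          · by_cases a2 : l = 2
            · subst a2; simp [f2, f3]
            · simp [a0, a1, a2, hv]
      rw [h2] at h1
      rw [h1, mul_zero]
  rcases mul_eq_zero.1 hX with h | h
  · exact absurd h (X_ne_zero _)
  · exact h

theorem high [Infinite K] {k j d : ℕ} (y z : Fin k → K)
    (h : ∃ g : Fin (d + 1) → MvPolynomial (Fin 3) K, LinearIndependent K g ∧
        ∀ i, (g i).IsHomogeneous d ∧ ∀ l, eval ![z l, 1, y l] (g i) = 0) :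
    ∃ g : Fin (d + 1) → MvPolynomial (Fin (j + 3)) K, LinearIndependent K g ∧
        ∀ i, (g i).IsHomogeneous d ∧ g i ∈ IZ j y z := by
  obtain ⟨f1, f2, f3⟩ := fin_ne j
  obtain ⟨g, hg1, hg2⟩ := h
  have hle : 3 ≤ j + 3 := by omega
  have hinj : Function.Injective (Fin.castLE hle) := Fin.castLE_injective hle
  refine ⟨fun i => rename (Fin.castLE hle) (g i), ?_, fun i => ⟨(hg2 i).1.rename_isHomogeneous, ?_⟩⟩
  · have h1 := hg1.map' (rename (Fin.castLE hle) : MvPolynomial (Fin 3) K →ₐ[K] _).toLinearMap
      (LinearMap.ker_eq_bot.2 (rename_injective _ hinj))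
    exact h1
  · rw [IZ, Submodule.mem_iInf]
    intro l
    show rho j y z l (rename (Fin.castLE hle) (g i)) = 0
    apply MvPolynomial.funext
    intro v
    rw [eval_rho, map_zero, eval_rename]
    have h1 := eval_smul_hom (hg2 i).1 (v 1) ![z l, 1, y l]
    rw [(hg2 i).2 l, mul_zero] at h1
    rw [← h1]
    congr 1
    congr 1
    funext m
    have c0 : Fin.castLE hle 0 = 0 := by
      rw [Fin.ext_iff]; simp
    have c1 : Fin.castLE hle 1 = 1 := by
      rw [Fin.ext_iff]; simp
    have c2 : Fin.castLE hle 2 = 2 := by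
      rw [Fin.ext_iff]
      show 2 = 2 % (j + 3)
      rw [Nat.mod_eq_of_lt (by omega)]
    fin_cases m
    · show (if Fin.castLE hle 0 = 0 then z l * v 1 else if Fin.castLE hle 0 = 2 then y l * v 1 else
        v (Fin.castLE hle 0)) = v 1 * z l
      rw [c0, if_pos rfl, mul_comm]
    · show (if Fin.castLE hle 1 = 0 then z l * v 1 else if Fin.castLE hle 1 = 2 then y l * v 1 else
        v (Fin.castLE hle 1)) = v 1 * 1
      rw [c1, if_neg f1, if_neg f3.symm, mul_one]
    · show (if Fin.castLE hle 2 = 0 then z l * v 1 else if Fin.castLE hle 2 = 2 then y l * v 1 else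
        v (Fin.castLE hle 2)) = v 1 * y l
      rw [c2, if_neg f2, if_pos rfl, mul_comm]

theorem main : S_LOW := by
  intro K _ _ k j d hd y z
  exact ⟨fun hN G hG e he => low hd y z hN G hG e he, fun h => high y z h⟩

end Pool.Agent.H505.PG.LOW
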