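import Pool.Agent.H505.PG.Stm

/-!
# PTS: a triangular grid
-/

set_option autoImplicit false

namespace Pool.Agent.H505.PG.PTS

open MvPolynomial Pool.Agent.H505.PG

variable {K : Type} [Field K]

theorem dvd_sub (t : K) (f : MvPolynomial (Fin 2) K)
    (h : bind₁ (![C t, X 1] : Fin 2 → MvPolynomial (Fin 2) K) f = 0) : (X 0 - C t) ∣ f := by
  rw [← Ideal.mem_span_singleton, ← Ideal.Quotient.eq_zero_iff_mem]
  have h1 : (Ideal.Quotient.mkₐ K (Ideal.span {(X 0 - C t : MvPolynomial (Fin 2) K)})).comp
      (bind₁ (![C t, X 1] : Fin 2 → MvPolynomial (Fin 2) K)) =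
        Ideal.Quotient.mkₐ K (Ideal.span {(X 0 - C t : MvPolynomial (Fin 2) K)}) := by
    apply MvPolynomial.algHom_ext
    intro i
    fin_cases i
    · simp only [AlgHom.comp_apply, bind₁_X_right, Ideal.Quotient.mkₐ_eq_mk]
      refine (Ideal.Quotient.eq.2 ?_).symm
      exact Ideal.mem_span_singleton_self _
    · simp
  have h2 := congrArg (fun φ => φ f) h1
  simp only [AlgHom.comp_apply, h, map_zero] at h2
  exact h2.symm

theorem comp_eq (t : K) (f : MvPolynomial (Fin 2) K) :
    Polynomial.aeval (X 1 : MvPolynomial (Fin 2) K)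
      (aeval (![Polynomial.C t, Polynomial.X] : Fin 2 → Polynomial K) f) =
        bind₁ (![C t, X 1] : Fin 2 → MvPolynomial (Fin 2) K) f := by
  have h1 : (Polynomial.aeval (X 1 : MvPolynomial (Fin 2) K)).comp
      (aeval (![Polynomial.C t, Polynomial.X] : Fin 2 → Polynomial K)) =
        bind₁ (![C t, X 1] : Fin 2 → MvPolynomial (Fin 2) K) := by
    apply MvPolynomial.algHom_ext
    intro i
    fin_cases i
    · simp [algebraMap_eq]
    · simp
  exact congrArg (fun φ => φ f) h1

theorem peval (t s : K) (f : MvPolynomial (Fin 2) K) :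
    Polynomial.eval s (aeval (![Polynomial.C t, Polynomial.X] : Fin 2 → Polynomial K) f) =
      eval ![t, s] f := by
  have h1 : (Polynomial.aeval s : Polynomial K →ₐ[K] K).comp
      (aeval (![Polynomial.C t, Polynomial.X] : Fin 2 → Polynomial K)) =
        (aeval ![t, s] : MvPolynomial (Fin 2) K →ₐ[K] K) := by
    apply MvPolynomial.algHom_ext
    intro i
    fin_cases i
    · simp
    · simp
  have h2 := congrArg (fun φ => φ f) h1
  simpa [Polynomial.coe_aeval_eq_eval, MvPolynomial.coe_aeval_eq_eval] using h2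

theorem restrict {m : ℕ} {s : ℕ → K} (hs : Function.Injective s) (t : K)
    (f : MvPolynomial (Fin 2) K) (hf : f.totalDegree ≤ m)
    (h : ∀ a ≤ m, eval ![t, s a] f = 0) : (X 0 - C t) ∣ f := by
  classical
  apply dvd_sub
  rw [← comp_eq]
  have h1 : (aeval (![Polynomial.C t, Polynomial.X] : Fin 2 → Polynomial K) f) = 0 := by
    have hdeg : (aeval (![Polynomial.C t, Polynomial.X] : Fin 2 → Polynomial K) f).natDegree ≤
        m * 1 := by
      apply MvPolynomial.aeval_natDegree_le f hf
      intro i
      fin_cases i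
      · simp
      · simp
    apply Polynomial.eq_zero_of_natDegree_lt_card_of_eval_eq_zero' _
      ((Finset.range (m + 1)).image s)
    · intro x hx
      rw [Finset.mem_image] at hx
      obtain ⟨a, ha, rfl⟩ := hx
      rw [peval]
      exact h a (by rw [Finset.mem_range] at ha; omega)
    · rw [Finset.card_image_of_injective _ hs, Finset.card_range]
      omega
  rw [h1, map_zero]

theorem tdeg (t : K) : (X 0 - C t : MvPolynomial (Fin 2) K).totalDegree = 1 := by
  have h1 : (C (-t) : MvPolynomial (Fin 2) K).totalDegree <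
      (X 0 : MvPolynomial (Fin 2) K).totalDegree := by
    rw [totalDegree_C, totalDegree_X]; exact one_pos
  have h2 : (X 0 - C t : MvPolynomial (Fin 2) K) = X 0 + C (-t) := by
    rw [C_neg, sub_eq_add_neg]
  rw [h2, totalDegree_add_eq_left_of_totalDegree_lt h1, totalDegree_X]

theorem grid : ∀ (m : ℕ) (s t : ℕ → K), Function.Injective s → Function.Injective t →
    ∀ f : MvPolynomial (Fin 2) K, f.totalDegree ≤ m →
      (∀ a b, a + b ≤ m → eval ![t b, s a] f = 0) → f = 0 := by
  intro m
  induction m with
  | zero =>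
    intro s t hs ht f hf h
    by_contra hne
    obtain ⟨g, hg⟩ := restrict hs (t 0) f hf (fun a ha => h a 0 (by omega))
    have hg0 : g ≠ 0 := by rintro rfl; exact hne (by rw [hg, mul_zero])
    have hx : (X 0 - C (t 0) : MvPolynomial (Fin 2) K) ≠ 0 := by
      intro h0; have := tdeg (t 0); rw [h0] at this; simp at this
    have := totalDegree_mul_of_isDomain hx hg0
    rw [← hg, tdeg] at this
    omega
  | succ m ih =>
    intro s t hs ht f hf h
    by_contra hne
    obtain ⟨g, hg⟩ := restrict hs (t 0) f hf (fun a ha => h a 0 (by omega))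
    have hg0 : g ≠ 0 := by rintro rfl; exact hne (by rw [hg, mul_zero])
    have hx : (X 0 - C (t 0) : MvPolynomial (Fin 2) K) ≠ 0 := by
      intro h0; have := tdeg (t 0); rw [h0] at this; simp at this
    have h3 := totalDegree_mul_of_isDomain hx hg0
    rw [← hg, tdeg] at h3
    apply hg0
    apply ih s (fun b => t (b + 1)) hs (fun a b hab => by simpa using ht hab) g (by omega)
    intro a b hab
    have h4 := h a (b + 1) (by omega)
    rw [hg, map_mul] at h4
    refine (mul_eq_zero.1 h4).resolve_left ?_
    simp only [map_sub, eval_X, eval_C, Matrix.cons_val_zero]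
    intro h5
    have := ht (sub_eq_zero.1 h5)
    omega

theorem tdeg_aeval {σ τ : Type} (F : MvPolynomial σ K) (g : σ → MvPolynomial τ K)
    (hg : ∀ i, (g i).totalDegree ≤ 1) : (aeval g F).totalDegree ≤ F.totalDegree := by
  rw [aeval_def, eval₂_eq]
  refine totalDegree_finsetSum_le fun d hd => ?_
  refine le_trans (totalDegree_mul _ _) ?_
  rw [algebraMap_eq, totalDegree_C, zero_add]
  refine le_trans (totalDegree_finsetProd _ _) ?_
  refine le_trans (Finset.sum_le_sum (g := fun i => d i) fun i _ => ?_) ?_
  · refine le_trans (totalDegree_pow _ _) ?_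
    calc d i * (g i).totalDegree ≤ d i * 1 := Nat.mul_le_mul_left _ (hg i)
      _ = d i := mul_one _
  · exact le_totalDegree hd

theorem hom_eval {σ : Type} {n : ℕ} (F : MvPolynomial σ K) (hF : F.IsHomogeneous n) (c : K)
    (w : σ → K) : eval (fun i => c * w i) F = c ^ n * eval w F := by
  rw [MvPolynomial.eval_eq, MvPolynomial.eval_eq, Finset.mul_sum]
  refine Finset.sum_congr rfl fun d hd => ?_
  have h1 : ∏ i ∈ d.support, (c * w i) ^ d i = c ^ n * ∏ i ∈ d.support, w i ^ d i := by
    simp only [mul_pow]
    rw [Finset.prod_mul_distrib, Finset.prod_pow_eq_pow_sum]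
    have h2 := hF.degree_eq_sum_deg_support hd
    rw [h2]
  rw [h1]; ring

theorem card_T (d : ℕ) : Fintype.card (Σ a : Fin d, Fin (d - a)) = d * (d + 1) / 2 := by
  rw [Fintype.card_sigma]
  simp only [Fintype.card_fin]
  have h : ∀ d : ℕ, (∑ a : Fin d, (d - (a : ℕ))) * 2 = d * (d + 1) := by
    intro d
    induction d with
    | zero => simp
    | succ d ih =>
      rw [Fin.sum_univ_succ]
      have : ∀ a : Fin d, d + 1 - ((a.succ : Fin (d + 1)) : ℕ) = d - (a : ℕ) := by
        intro a; rw [Fin.val_succ]; omega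
      simp only [this, Fin.val_zero, Nat.sub_zero]
      rw [add_mul, ih]; ring
  have := h d
  omega

theorem exists_mu [Infinite K] (d : ℕ) (s : ℕ → K) (hs : Function.Injective s) :
    ∃ μ : K, ∀ a < d, ∀ b < d, ∀ a' < d, ∀ b' < d, s a + μ * s b = s a' + μ * s b' →
      a = a' ∧ b = b' := by
  classical
  obtain ⟨μ, hμ⟩ := Infinite.exists_notMem_finset
    (((Finset.range d ×ˢ Finset.range d) ×ˢ (Finset.range d ×ˢ Finset.range d)).image
      fun x : (ℕ × ℕ) × (ℕ × ℕ) => (s x.2.1 - s x.1.1) / (s x.1.2 - s x.2.2))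
  refine ⟨μ, fun a ha b hb a' ha' b' hb' h => ?_⟩
  by_cases hbb : b = b'
  · subst hbb
    exact ⟨hs (add_right_cancel h), rfl⟩
  · exfalso
    apply hμ
    rw [Finset.mem_image]
    refine ⟨((a, b), (a', b')), ?_, ?_⟩
    · simp only [Finset.mem_product, Finset.mem_range]
      exact ⟨⟨ha, hb⟩, ⟨ha', hb'⟩⟩
    · have h1 : s b - s b' ≠ 0 := sub_ne_zero.2 fun h => hbb (hs h)
      rw [div_eq_iff h1]
      linear_combination -h

theorem main : S_PTS := by
  intro K _ _ d hd
  classical
  obtain ⟨s, hs⟩ : ∃ s : ℕ → K, Function.Injective s :=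
    ⟨Infinite.natEmbedding K, (Infinite.natEmbedding K).injective⟩
  obtain ⟨μ, hμ⟩ := exists_mu d s hs
  let e : Fin (d * (d + 1) / 2) ≃ (Σ a : Fin d, Fin (d - a)) :=
    (Fintype.equivFinOfCardEq (card_T d)).symm
  have hlt : ∀ i, ((e i).1 : ℕ) + ((e i).2 : ℕ) < d := fun i => by
    have h1 := (e i).2.2
    have h2 := (e i).1.2
    omega
  refine ⟨fun i => s (e i).1 + μ * s (e i).2, fun i => s (e i).2, ?_, ?_, ?_⟩
  · intro i i' h
    have h1 := hlt i
    have h2 := hlt i'
    obtain ⟨h3, h4⟩ := hμ _ (by omega) _ (by omega) _ (by omega) _ (by omega) h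
    apply e.injective
    have h5 : (e i).1 = (e i').1 := Fin.ext h3
    revert h5 h4
    generalize e i = p
    generalize e i' = q
    obtain ⟨pa, pb⟩ := p
    obtain ⟨qa, qb⟩ := q
    intro h4 h5
    simp only at h5
    subst h5
    simp only at h4
    rw [Fin.ext h4]
  · intro F hF h
    let G : Fin 3 → MvPolynomial (Fin 2) K := ![X 0, 1, X 1 + C μ * X 0]
    have hev : ∀ a b : K, eval ![b, a] (aeval G F) = eval ![b, 1, a + μ * b] F := by
      intro a b
      have h1 : (aeval ![b, a] : MvPolynomial (Fin 2) K →ₐ[K] K).comp (aeval G) =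
          (aeval ![b, 1, a + μ * b] : MvPolynomial (Fin 3) K →ₐ[K] K) := by
        apply MvPolynomial.algHom_ext
        intro i
        fin_cases i <;> simp [G]
      have h2 := congrArg (fun φ => φ F) h1
      simpa [MvPolynomial.coe_aeval_eq_eval] using h2
    have hf : aeval G F = 0 := by
      apply grid (d - 1) s s hs hs
      · refine le_trans (tdeg_aeval F G ?_) hF.totalDegree_le
        intro i
        fin_cases i
        · simp [G]
        · simp [G]
        · show (X 1 + C μ * X 0 : MvPolynomial (Fin 2) K).totalDegree ≤ 1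
          refine le_trans (totalDegree_add _ _) (max_le ?_ ?_)
          · rw [totalDegree_X]
          · refine le_trans (totalDegree_mul _ _) ?_
            rw [totalDegree_C, totalDegree_X]
      · intro a b hab
        rw [hev]
        have ha : a < d := by omega
        have hb : b < d - a := by omega
        obtain ⟨i, hi⟩ := e.surjective ⟨⟨a, ha⟩, ⟨b, hb⟩⟩
        have h1 := h i
        have h2 : ((e i).1 : ℕ) = a :=
          congrArg (fun x : (Σ a : Fin d, Fin (d - a)) => (x.1 : ℕ)) hi
        have h3 : ((e i).2 : ℕ) = b :=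
          congrArg (fun x : (Σ a : Fin d, Fin (d - a)) => (x.2 : ℕ)) hi
        simp only [h2, h3] at h1
        exact h1
    have hall : F * X 1 = 0 := by
      apply MvPolynomial.funext
      intro v
      rw [map_mul, eval_X, map_zero]
      by_cases hv : v 1 = 0
      · rw [hv, mul_zero]
      · have h1 : v = fun i => v 1 * (![v 0 / v 1, 1, (v 2 / v 1 - μ * (v 0 / v 1)) +
            μ * (v 0 / v 1)] : Fin 3 → K) i := by
          ext i
          fin_cases i
          · simp; field_simp
          · simp
          · simp; field_simp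
        rw [h1, hom_eval F hF, ← hev, hf]
        simp
    rcases mul_eq_zero.1 hall with h1 | h1
    · exact h1
    · exact absurd h1 (X_ne_zero 1)
  · refine ⟨fun c => (∏ a ∈ Finset.range c, (X 2 - C μ * X 0 - C (s a) * X 1)) *
      ∏ b ∈ Finset.range (d - c), (X 0 - C (s b) * X 1), ?_, fun c => ⟨?_, fun i => ?_⟩⟩
    · let φ : MvPolynomial (Fin 3) K →ₐ[K] Polynomial K :=
        aeval ![1, 0, Polynomial.X + Polynomial.C μ]
      apply LinearIndependent.of_comp φ.toLinearMap
      have h1 := (Polynomial.basisMonomials K).linearIndependent.comp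
        (fun c : Fin (d + 1) => (c : ℕ)) Fin.val_injective
      have h5 : (φ.toLinearMap ∘ fun c : Fin (d + 1) =>
          (∏ a ∈ Finset.range (c : ℕ), (X 2 - C μ * X 0 - C (s a) * X 1)) *
            ∏ b ∈ Finset.range (d - (c : ℕ)), (X 0 - C (s b) * X 1 : MvPolynomial (Fin 3) K)) =
          ((Polynomial.basisMonomials K) ∘ fun c : Fin (d + 1) => (c : ℕ)) := ?_
      · rw [h5]; exact h1
      funext c
      simp only [Function.comp_apply, AlgHom.toLinearMap_apply, map_mul, map_prod,
        Polynomial.coe_basisMonomials]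
      have h2 : ∀ a, φ (X 2 - C μ * X 0 - C (s a) * X 1) = Polynomial.X := by
        intro a
        simp [φ]
      have h3 : ∀ a, φ (X 0 - C (s a) * X 1) = 1 := by
        intro a
        simp [φ]
      simp only [h2, h3, Finset.prod_const, one_pow, mul_one, Finset.card_range]
      rw [Polynomial.X_pow_eq_monomial]
    · have h1 : (∏ a ∈ Finset.range (c : ℕ), (X 2 - C μ * X 0 - C (s a) * X 1) :
          MvPolynomial (Fin 3) K).IsHomogeneous (∑ a ∈ Finset.range (c : ℕ), 1) := by
        apply IsHomogeneous.prod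
        intro a _
        exact ((isHomogeneous_X _ _).sub (isHomogeneous_C_mul_X _ _)).sub
          (isHomogeneous_C_mul_X _ _)
      have h2 : (∏ b ∈ Finset.range (d - (c : ℕ)), (X 0 - C (s b) * X 1) :
          MvPolynomial (Fin 3) K).IsHomogeneous (∑ b ∈ Finset.range (d - (c : ℕ)), 1) := by
        apply IsHomogeneous.prod
        intro a _
        exact (isHomogeneous_X _ _).sub (isHomogeneous_C_mul_X _ _)
      have h3 := h1.mul h2
      have h4 : (∑ a ∈ Finset.range (c : ℕ), 1) + (∑ b ∈ Finset.range (d - (c : ℕ)), 1) = d := by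
        simp only [Finset.sum_const, Finset.card_range, smul_eq_mul, mul_one]
        have := c.2
        omega
      rw [h4] at h3
      exact h3
    · rw [map_mul, map_prod, map_prod]
      have h1 := hlt i
      by_cases hc : ((e i).1 : ℕ) < c
      · apply mul_eq_zero_of_left
        apply Finset.prod_eq_zero (Finset.mem_range.2 hc)
        simp
      · apply mul_eq_zero_of_right
        apply Finset.prod_eq_zero (i := ((e i).2 : ℕ)) (Finset.mem_range.2 (by omega))
        simp

end Pool.Agent.H505.PG.PTS
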